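import Mathlib

set_option autoImplicit false
set_option linter.unusedSectionVars false

namespace Pool.Agent.Lib.MP_ee21b2_co

open Finset

section Flow

variable {V : Type} [Fintype V] [DecidableEq V]

/-- Signed incidence of an ordered pair with a set of nodes. -/
def io (W : Finset V) (e : V × V) : ℤ :=
  (if e.1 ∈ W then 1 else 0) - (if e.2 ∈ W then 1 else 0)

/-- Net flow out of a set of nodes. -/
def out {R : Type} [CommRing R] (φ : V × V → R) (W : Finset V) : R :=
  ∑ e, φ e * (io W e : R)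

/-- Total absolute flow across a cut. -/
def cz {R : Type} [CommRing R] [LinearOrder R] (φ : V × V → R) (W : Finset V) : R :=
  ∑ e, |φ e| * ((|io W e| : ℤ) : R)

def Unc (F : Finset (V × V)) (W : Finset V) : Prop := ∀ e ∈ F, (e.1 ∈ W ↔ e.2 ∈ W)

def On {R : Type} [Zero R] (F : Finset (V × V)) (φ : V × V → R) : Prop := ∀ e, e ∉ F → φ e = 0

def Clo (F : Finset (V × V)) (fr : V → Prop) (W : Finset V) : Prop :=
  Unc F W ∧ ∀ v ∈ W, ¬ fr v

open Classical in
noncomputable def supp (φ : V × V → ℝ) : Finset (V × V) := univ.filter (fun e => φ e ≠ 0)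

theorem mem_supp {φ : V × V → ℝ} {e : V × V} : e ∈ supp φ ↔ φ e ≠ 0 := by
  simp [supp]

theorem on_supp (φ : V × V → ℝ) : On (supp φ) φ := fun e he => by
  simpa [mem_supp] using he

theorem supp_subset {φ : V × V → ℝ} {F : Finset (V × V)} (h : On F φ) : supp φ ⊆ F :=
  fun e he => by
    by_contra h'
    exact mem_supp.1 he (h e h')

theorem On.mono {R : Type} [Zero R] {F G : Finset (V × V)} {φ : V × V → R} (h : On F φ)
    (hs : F ⊆ G) : On G φ := fun e he => h e fun h' => he (hs h')

theorem io_eq_zero {W : Finset V} {e : V × V} : io W e = 0 ↔ (e.1 ∈ W ↔ e.2 ∈ W) := by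
  unfold io
  by_cases h1 : e.1 ∈ W <;> by_cases h2 : e.2 ∈ W <;> simp [h1, h2]

theorem abs_io_le (W : Finset V) (e : V × V) : |io W e| ≤ 1 := by
  unfold io
  by_cases h1 : e.1 ∈ W <;> by_cases h2 : e.2 ∈ W <;> simp [h1, h2]

theorem io_cases (W : Finset V) (e : V × V) : io W e = 0 ∨ io W e = 1 ∨ io W e = -1 := by
  unfold io
  by_cases h1 : e.1 ∈ W <;> by_cases h2 : e.2 ∈ W <;> simp [h1, h2]

theorem abs_io_of_ne {W : Finset V} {e : V × V} (h : io W e ≠ 0) : |io W e| = 1 := by
  rcases io_cases W e with h' | h' | h' <;> simp_all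

theorem sum_io (W : Finset V) (e : V × V) : ∑ v ∈ W, io {v} e = io W e := by
  unfold io
  simp [sum_sub_distrib]

theorem io_empty (e : V × V) : io (∅ : Finset V) e = 0 := by simp [io]

theorem io_union {A B : Finset V} (h : Disjoint A B) (e : V × V) :
    io (A ∪ B) e = io A e + io B e := by
  rw [← sum_io, sum_union h, sum_io, sum_io]

theorem Unc.mono {F G : Finset (V × V)} {W : Finset V} (h : Unc G W) (hs : F ⊆ G) : Unc F W :=
  fun e he => h e (hs he)

theorem Unc.inter {F : Finset (V × V)} {A B : Finset V} (h : Unc F A) (h' : Unc F B) :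
    Unc F (A ∩ B) := fun e he => by simp [h e he, h' e he]

theorem Unc.union {F : Finset (V × V)} {A B : Finset V} (h : Unc F A) (h' : Unc F B) :
    Unc F (A ∪ B) := fun e he => by simp [h e he, h' e he]

theorem Unc.sdiff {F : Finset (V × V)} {A B : Finset V} (h : Unc F A) (h' : Unc F B) :
    Unc F (A \ B) := fun e he => by simp [h e he, h' e he]

theorem Unc.compl {F : Finset (V × V)} {A : Finset V} (h : Unc F A) :
    Unc F Aᶜ := fun e he => by simp [h e he]

theorem Clo.inter {F : Finset (V × V)} {fr : V → Prop} {A B : Finset V} (h : Clo F fr A)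
    (h' : Unc F B) : Clo F fr (A ∩ B) :=
  ⟨h.1.inter h', fun v hv => h.2 v (mem_inter.1 hv).1⟩

theorem Clo.sdiff {F : Finset (V × V)} {fr : V → Prop} {A B : Finset V} (h : Clo F fr A)
    (h' : Unc F B) : Clo F fr (A \ B) :=
  ⟨h.1.sdiff h', fun v hv => h.2 v (mem_sdiff.1 hv).1⟩

theorem Clo.union {F : Finset (V × V)} {fr : V → Prop} {A B : Finset V} (h : Clo F fr A)
    (h' : Clo F fr B) : Clo F fr (A ∪ B) :=
  ⟨h.1.union h'.1, fun v hv => (mem_union.1 hv).elim (h.2 v) (h'.2 v)⟩

theorem Clo.mono {F G : Finset (V × V)} {fr : V → Prop} {W : Finset V} (h : Clo G fr W)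
    (hs : F ⊆ G) : Clo F fr W := ⟨h.1.mono hs, h.2⟩

section Ring

variable {R : Type} [CommRing R]

theorem out_eq_sum (φ : V × V → R) (W : Finset V) : out φ W = ∑ v ∈ W, out φ {v} := by
  unfold out
  rw [sum_comm]
  refine sum_congr rfl fun e _ => ?_
  rw [← mul_sum, ← sum_io]
  push_cast
  rfl

theorem out_add (φ χ : V × V → R) (W : Finset V) :
    out (fun e => φ e + χ e) W = out φ W + out χ W := by
  simp [out, add_mul, sum_add_distrib]

theorem out_sub (φ χ : V × V → R) (W : Finset V) :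
    out (fun e => φ e - χ e) W = out φ W - out χ W := by
  simp [out, sub_mul, sum_sub_distrib]

theorem out_mul (r : R) (φ : V × V → R) (W : Finset V) :
    out (fun e => r * φ e) W = r * out φ W := by
  simp [out, mul_sum, mul_assoc]

theorem out_neg (φ : V × V → R) (W : Finset V) : out (fun e => - φ e) W = - out φ W := by
  simp [out]

theorem out_single (e : V × V) (r : R) (W : Finset V) :
    out (fun e' => if e' = e then r else 0) W = r * (io W e : R) := by
  simp [out]

theorem out_sum {ι : Type} (s : Finset ι) (φ : ι → V × V → R) (W : Finset V) :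
    out (fun e => ∑ i ∈ s, φ i e) W = ∑ i ∈ s, out (φ i) W := by
  unfold out
  rw [sum_comm]
  exact sum_congr rfl fun e _ => sum_mul _ _ _

theorem out_unc {F : Finset (V × V)} {φ : V × V → R} {W : Finset V} (h : On F φ)
    (hW : Unc F W) : out φ W = 0 := by
  refine sum_eq_zero fun e _ => ?_
  by_cases he : e ∈ F
  · rw [io_eq_zero.2 (hW e he)]; simp
  · rw [h e he]; simp

theorem out_union (φ : V × V → R) {A B : Finset V} (h : Disjoint A B) :
    out φ (A ∪ B) = out φ A + out φ B := by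
  rw [out_eq_sum, sum_union h, ← out_eq_sum, ← out_eq_sum]

theorem out_cut {F : Finset (V × V)} {φ : V × V → R} {W : Finset V} {e : V × V} (h : On F φ)
    (hW : Unc (F.erase e) W) : out φ W = φ e * (io W e : R) := by
  unfold out
  refine sum_eq_single e (fun e' _ he' => ?_) (by simp)
  by_cases he : e' ∈ F
  · rw [io_eq_zero.2 (hW e' (mem_erase.2 ⟨he', he⟩))]; simp
  · rw [h e' he]; simp

theorem out_cast (n : V × V → ℤ) (W : Finset V) :
    out (fun e => (n e : R)) W = ((out n W : ℤ) : R) := by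
  simp [out]

end Ring

section Ord

variable {R : Type} [CommRing R] [LinearOrder R] [IsStrictOrderedRing R]

theorem cz_nonneg (φ : V × V → R) (W : Finset V) : 0 ≤ cz φ W :=
  sum_nonneg fun _ _ => mul_nonneg (abs_nonneg _) (by exact_mod_cast abs_nonneg _)

theorem abs_out_le (φ : V × V → R) (W : Finset V) : |out φ W| ≤ cz φ W := by
  refine (abs_sum_le_sum_abs _ _).trans (le_of_eq (sum_congr rfl fun e _ => ?_))
  rw [abs_mul, Int.cast_abs]

theorem cz_add_le (φ χ : V × V → R) (W : Finset V) :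
    cz (fun e => φ e + χ e) W ≤ cz φ W + cz χ W := by
  unfold cz
  rw [← sum_add_distrib]
  refine sum_le_sum fun e _ => ?_
  rw [← add_mul]
  exact mul_le_mul_of_nonneg_right (abs_add_le _ _) (by exact_mod_cast abs_nonneg _)

theorem cz_single (e : V × V) (r : R) (W : Finset V) :
    cz (fun e' => if e' = e then r else 0) W = |r| * ((|io W e| : ℤ) : R) := by
  unfold cz
  rw [sum_eq_single e (fun e' _ he' => by simp [he']) (by simp)]
  simp

theorem cz_sum_le {ι : Type} (s : Finset ι) (φ : ι → V × V → R) (W : Finset V) :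
    cz (fun e => ∑ i ∈ s, φ i e) W ≤ ∑ i ∈ s, cz (φ i) W := by
  unfold cz
  rw [sum_comm]
  refine sum_le_sum fun e _ => ?_
  rw [← sum_mul]
  exact mul_le_mul_of_nonneg_right (abs_sum_le_sum_abs _ _) (by exact_mod_cast abs_nonneg _)

theorem cz_mul (r : R) (φ : V × V → R) (W : Finset V) :
    cz (fun e => r * φ e) W = |r| * cz φ W := by
  simp [cz, mul_sum, abs_mul, mul_assoc]

theorem le_cz (φ : V × V → R) (W : Finset V) {e : V × V} (h : io W e ≠ 0) : |φ e| ≤ cz φ W := by
  have := single_le_sum (f := fun e => |φ e| * ((|io W e| : ℤ) : R))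
    (fun _ _ => mul_nonneg (abs_nonneg _) (by exact_mod_cast abs_nonneg _)) (mem_univ e)
  simp only [abs_io_of_ne h, Int.cast_one, mul_one] at this
  exact this

theorem cz_congr {F : Finset (V × V)} {φ : V × V → R} (h : On F φ) {A B : Finset V}
    (hAB : ∀ e ∈ F, |io A e| = |io B e|) : cz φ A = cz φ B := by
  refine sum_congr rfl fun e _ => ?_
  by_cases he : e ∈ F
  · rw [hAB e he]
  · simp [h e he]

theorem cz_empty (φ : V × V → R) : cz φ ∅ = 0 := by simp [cz, io_empty]

end Ord

theorem cz_cast (n : V × V → ℤ) (W : Finset V) :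
    cz (fun e => (n e : ℝ)) W = ((cz n W : ℤ) : ℝ) := by
  simp [cz]

theorem unc_of_cz {φ : V × V → ℝ} {W : Finset V} (h : cz φ W ≤ 0) : Unc (supp φ) W := by
  intro e he
  by_contra h'
  have h1 := le_cz φ W (fun h2 => h' (io_eq_zero.1 h2))
  have := abs_pos.2 (mem_supp.1 he)
  linarith

/-- The parity of the absolute flow across a cut is that of the net flow. -/
theorem even_signed (n σ : V × V → ℤ) (hσ : ∀ e, σ e = 1 ∨ σ e = -1) (W : Finset V) :
    Even (∑ e, |io W e| * σ e * n e - out n W) := by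
  unfold out
  rw [← sum_sub_distrib]
  refine even_sum _ fun e _ => ?_
  rcases io_cases W e with h | h | h <;> rcases hσ e with h' | h' <;> simp [h, h']
  exact ⟨- n e, by ring⟩

theorem even_cz (n : V × V → ℤ) (W : Finset V) : Even (cz n W - out n W) := by
  unfold out cz
  rw [← sum_sub_distrib]
  refine even_sum _ fun e _ => ?_
  rcases io_cases W e with h | h | h <;> rcases abs_choice (n e) with h' | h' <;> simp [h, h']
  exact ⟨- n e, by ring⟩

/-- An integral demand with total zero on all closed sets is met by an integral flow. -/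
theorem solve (F : Finset (V × V)) (fr : V → Prop) (r : V → ℤ)
    (h : ∀ W, Clo F fr W → ∑ v ∈ W, r v = 0) :
    ∃ n : V × V → ℤ, On F n ∧ ∀ v, ¬ fr v → out n {v} = r v := by
  classical
  let D : AddSubgroup (V → ℤ) :=
    { carrier := {r | ∃ n : V × V → ℤ, On F n ∧ ∀ v, ¬ fr v → out n {v} = r v}
      add_mem' := by
        rintro a b ⟨n, hn, hn'⟩ ⟨m, hm, hm'⟩
        exact ⟨fun e => n e + m e, fun e he => by simp [hn e he, hm e he],
          fun v hv => by rw [out_add, hn' v hv, hm' v hv]; rfl⟩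
      zero_mem' := ⟨fun _ => 0, fun _ _ => rfl, fun v _ => by simp [out]⟩
      neg_mem' := by
        rintro a ⟨n, hn, hn'⟩
        exact ⟨fun e => - n e, fun e he => by simp [hn e he],
          fun v hv => by rw [out_neg, hn' v hv]; rfl⟩ }
  let s : Setoid V :=
    { r := fun u v => (Pi.single u 1 - Pi.single v 1 : V → ℤ) ∈ D
      iseqv :=
        { refl := fun u => by simp [D.zero_mem]
          symm := fun {u v} huv => by
            have := D.neg_mem huv
            rwa [neg_sub] at this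
          trans := fun {u v w} h1 h2 => by
            have := D.add_mem h1 h2
            rwa [sub_add_sub_cancel] at this } }
  let rep : V → V := fun v => (Quotient.mk s v).out
  have hrep : ∀ v, (Pi.single (rep v) 1 - Pi.single v 1 : V → ℤ) ∈ D := fun v =>
    Quotient.mk_out (s := s) v
  have hedge : ∀ e ∈ F, rep e.1 = rep e.2 := fun e he => by
    have : s e.1 e.2 := ⟨fun e' => if e' = e then 1 else 0,
      fun e' he' => if_neg fun (h2 : e' = e) => he' (h2 ▸ he), fun v _ => by
        rw [out_single]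
        simp [io, Pi.single_apply, eq_comm]⟩
    simp only [rep, Quotient.sound this]
  have hfree : ∀ v, fr v → (Pi.single v 1 : V → ℤ) ∈ D := fun v hv =>
    ⟨fun _ => 0, fun _ _ => rfl, fun u hu => by
      have : u ≠ v := fun h2 => hu (h2 ▸ hv)
      simp [out, this]⟩
  have key : r = ∑ q, (∑ v ∈ univ.filter (fun v => rep v = q), r v) • (Pi.single q 1 : V → ℤ)
      - ∑ v, r v • (Pi.single (rep v) 1 - Pi.single v 1 : V → ℤ) := by
    have e1 : ∑ q, (∑ v ∈ univ.filter (fun v => rep v = q), r v) • (Pi.single q 1 : V → ℤ)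
        = ∑ v, r v • (Pi.single (rep v) 1 : V → ℤ) := by
      rw [← sum_fiberwise (s := univ) (g := rep)
        (f := fun v => r v • (Pi.single (rep v) 1 : V → ℤ))]
      refine sum_congr rfl fun q _ => ?_
      rw [sum_smul]
      exact sum_congr rfl fun v hv => by rw [(mem_filter.1 hv).2]
    rw [e1, ← sum_sub_distrib]
    ext u
    simp [Finset.sum_apply, Pi.single_apply, mul_sub]
  have : r ∈ D := by
    rw [key]
    refine D.sub_mem (D.sum_mem fun q _ => ?_) (D.sum_mem fun v _ => D.zsmul_mem (hrep v) _)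
    by_cases hq : (Pi.single q 1 : V → ℤ) ∈ D
    · exact D.zsmul_mem hq _
    · rw [h _ ⟨fun e he => by simp [hedge e he], fun v hv hf => hq ?_⟩]
      · simp [D.zero_mem]
      · have h1 := D.add_mem (hrep v) (hfree v hf)
        rwa [sub_add_cancel, (mem_filter.1 hv).2] at h1
  exact this

/-- No nonzero circulation (relative to the free nodes) lives on `F`. -/
def Forest (F : Finset (V × V)) (fr : V → Prop) : Prop :=
  ∀ χ : V × V → ℝ, On F χ → (∀ v, ¬ fr v → out χ {v} = 0) → ∀ e, χ e = 0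

theorem Forest.mono {F G : Finset (V × V)} {fr : V → Prop} (h : Forest G fr) (hs : F ⊆ G) :
    Forest F fr := fun χ hχ => h χ (hχ.mono hs)

theorem Forest.unique {F : Finset (V × V)} {fr : V → Prop} (h : Forest F fr) {φ χ : V × V → ℝ}
    (h1 : On F φ) (h2 : On F χ) (h3 : ∀ v, ¬ fr v → out φ {v} = out χ {v}) (e : V × V) :
    φ e = χ e :=
  sub_eq_zero.1 (h (fun e => φ e - χ e) (fun e he => by simp [h1 e he, h2 e he])
    (fun v hv => by rw [out_sub, h3 v hv, sub_self]) e)

theorem out_of_div {R : Type} [CommRing R] {fr : V → Prop} {φ : V × V → R} {r : V → R}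
    (h : ∀ v, ¬ fr v → out φ {v} = r v) {W : Finset V} (hW : ∀ v ∈ W, ¬ fr v) :
    out φ W = ∑ v ∈ W, r v := by
  rw [out_eq_sum]
  exact sum_congr rfl fun v hv => h v (hW v hv)

theorem Forest.int {F : Finset (V × V)} {fr : V → Prop} (h : Forest F fr) {φ : V × V → ℝ}
    (h1 : On F φ) (r : V → ℤ) (h2 : ∀ v, ¬ fr v → out φ {v} = r v) :
    ∃ n : V × V → ℤ, (∀ e, φ e = n e) ∧ ∀ v, ¬ fr v → out n {v} = r v := by
  obtain ⟨n, hn, hn'⟩ := solve F fr r fun W hW => by
    have h3 := out_of_div h2 hW.2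
    rw [out_unc h1 hW.1] at h3
    exact_mod_cast h3.symm
  exact ⟨n, h.unique h1 (fun e he => by simp [hn e he])
    (fun v hv => by rw [out_cast, hn' v hv, h2 v hv]), hn'⟩

theorem Forest.cut {F : Finset (V × V)} {fr : V → Prop} (h : Forest F fr) {e : V × V}
    (he : e ∈ F) : ∃ W, Clo (F.erase e) fr W ∧ io W e ≠ 0 := by
  by_contra hc
  push Not at hc
  obtain ⟨n, hn, hn'⟩ := solve (F.erase e) fr (fun v => io {v} e) fun W hW => by
    rw [sum_io]; exact hc W hW
  have := h.unique (φ := fun e' => (n e' : ℝ)) (χ := fun e' => if e' = e then 1 else 0)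
    (fun e' he' => by simp [hn e' fun h2 => he' (mem_of_mem_erase h2)])
    (fun e' he' => if_neg fun (h2 : e' = e) => he' (h2 ▸ he))
    (fun v hv => by rw [out_cast, hn' v hv, out_single, one_mul]) e
  simp [hn e (notMem_erase e F)] at this

open Classical in
/-- The smallest uncrossed set containing `v`. -/
noncomputable def comp (F : Finset (V × V)) (v : V) : Finset V :=
  univ.filter (fun u => ∀ W, Unc F W → v ∈ W → u ∈ W)

theorem mem_comp_self (F : Finset (V × V)) (v : V) : v ∈ comp F v := by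
  simp [comp]

theorem comp_subset {F : Finset (V × V)} {v : V} {W : Finset V} (h : Unc F W) (hv : v ∈ W) :
    comp F v ⊆ W := fun u hu => by
  simp only [comp, mem_filter] at hu
  exact hu.2 W h hv

theorem unc_comp (F : Finset (V × V)) (v : V) : Unc F (comp F v) := fun e he => by
  simp only [comp, mem_filter, mem_univ, true_and]
  exact ⟨fun h W hW hv => (hW e he).1 (h W hW hv), fun h W hW hv => (hW e he).2 (h W hW hv)⟩

theorem comp_subset' {F : Finset (V × V)} {v u : V} {W : Finset V} (h : Unc F W)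
    (hu : u ∈ comp F v) (huW : u ∈ W) : comp F v ⊆ W := by
  have hv : v ∈ W := by
    by_contra hv
    exact (mem_compl.1 (comp_subset h.compl (mem_compl.2 hv) hu)) huW
  exact comp_subset h hv

open Classical in
/-- The largest closed set. -/
noncomputable def top (F : Finset (V × V)) (fr : V → Prop) : Finset V :=
  univ.filter (fun v => ∃ W, Clo F fr W ∧ v ∈ W)

theorem subset_top {F : Finset (V × V)} {fr : V → Prop} {W : Finset V} (h : Clo F fr W) :
    W ⊆ top F fr := fun v hv => by
  simp only [top, mem_filter, mem_univ, true_and]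
  exact ⟨W, h, hv⟩

theorem clo_top (F : Finset (V × V)) (fr : V → Prop) : Clo F fr (top F fr) := by
  constructor
  · intro e he
    simp only [top, mem_filter, mem_univ, true_and]
    exact ⟨fun ⟨W, hW, h⟩ => ⟨W, hW, (hW.1 e he).1 h⟩, fun ⟨W, hW, h⟩ => ⟨W, hW, (hW.1 e he).2 h⟩⟩
  · intro v hv
    simp only [top, mem_filter, mem_univ, true_and] at hv
    obtain ⟨W, hW, h⟩ := hv
    exact hW.2 v h

end Flow

section Move

/-- A sign with values `1` and `-1`. -/
noncomputable def sg (r : ℝ) : ℤ := if 0 < r then 1 else -1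

theorem sg_cases (r : ℝ) : sg r = 1 ∨ sg r = -1 := by
  unfold sg; split_ifs <;> simp

theorem abs_eq_sg {f x : ℝ} (h : 0 ≤ f * x) (h0 : f = 0 → x = 0) : |x| = sg f * x := by
  unfold sg
  rcases lt_trichotomy f 0 with h1 | h1 | h1
  · rw [if_neg (by linarith), abs_of_nonpos (by nlinarith)]; simp
  · simp [h0 h1]
  · rw [if_pos h1, abs_of_nonneg (by nlinarith)]; simp

theorem sg_eq_of {f x : ℝ} (h : 0 ≤ f * x) (hf : f ≠ 0) (hx : x ≠ 0) : sg x = sg f := by
  unfold sg
  rcases lt_or_gt_of_ne hf with h1 | h1 <;> rcases lt_or_gt_of_ne hx with h2 | h2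
  · rw [if_neg (by linarith), if_neg (by linarith)]
  · nlinarith
  · nlinarith
  · rw [if_pos h1, if_pos h2]

theorem first_hit {E : Type} [Fintype E] (f g : E → ℝ) :
    (∀ e, 0 ≤ f e * g e) ∨ ∃ τ : ℝ, 0 < τ ∧ (∀ e, 0 ≤ f e * (f e + τ * g e)) ∧
      ∃ e, f e ≠ 0 ∧ f e + τ * g e = 0 := by
  classical
  by_cases h : ∀ e, 0 ≤ f e * g e
  · exact Or.inl h
  right
  push Not at h
  obtain ⟨e0, he0⟩ := h
  obtain ⟨e, he, hmin⟩ := exists_min_image (univ.filter (fun e => f e * g e < 0))
    (fun e => f e ^ 2 / (- (f e * g e))) ⟨e0, by simp [he0]⟩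
  have he' : f e * g e < 0 := (mem_filter.1 he).2
  have hf : f e ≠ 0 := fun h => by simp [h] at he'
  have hg : g e ≠ 0 := fun h => by simp [h] at he'
  refine ⟨f e ^ 2 / (- (f e * g e)), div_pos (by positivity) (by linarith), fun e' => ?_, e, hf, ?_⟩
  · by_cases h' : f e' * g e' < 0
    · have h1 := hmin e' (by simp [h'])
      rw [le_div_iff₀ (by linarith)] at h1
      nlinarith
    · have h1 : 0 ≤ f e ^ 2 / (- (f e * g e)) := div_nonneg (by positivity) (by linarith)
      have := mul_nonneg h1 (not_lt.1 h')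
      nlinarith [sq_nonneg (f e')]
  · field_simp
    ring

theorem weak_mono {f g τ σ : ℝ} (h : 0 ≤ f * (f + τ * g)) (h0 : 0 ≤ σ) (h1 : σ ≤ τ) :
    0 ≤ f * (f + σ * g) := by
  by_cases h2 : 0 ≤ f * g
  · nlinarith [sq_nonneg f, mul_nonneg h0 h2]
  · nlinarith [mul_nonneg (sub_nonneg.2 h1) (le_of_lt (neg_pos.2 (not_le.1 h2)))]

theorem sum_abs_move {E : Type} [Fintype E] (w f g : E → ℝ) (hg : ∀ e, f e = 0 → g e = 0)
    {τ : ℝ} (h : ∀ e, 0 ≤ f e * (f e + τ * g e)) :
    ∑ e, w e * |f e + τ * g e| = ∑ e, w e * |f e| + τ * ∑ e, w e * (sg (f e) * g e) := by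
  rw [mul_sum, ← sum_add_distrib]
  refine sum_congr rfl fun e _ => ?_
  rw [abs_eq_sg (h e) (fun h0 => by simp [h0, hg e h0]),
    abs_eq_sg (f := f e) (x := f e) (mul_self_nonneg _) id]
  ring

theorem lin_nonneg {E : Type} [Fintype E] (w f g : E → ℝ) (hw : ∀ e, 0 ≤ w e)
    (hg : ∀ e, f e = 0 → g e = 0) (h : ∀ e, 0 ≤ f e * g e) :
    0 ≤ ∑ e, w e * (sg (f e) * g e) :=
  sum_nonneg fun e _ => mul_nonneg (hw e) (by
    rw [← abs_eq_sg (h e) (hg e)]; exact abs_nonneg _)

theorem move {E : Type} [Fintype E] (w f g : E → ℝ) (hw : ∀ e, 0 ≤ w e)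
    (hg : ∀ e, f e = 0 → g e = 0) (hne : ∃ e, g e ≠ 0) :
    ∃ s : ℝ, ∑ e, w e * |f e + s * g e| ≤ ∑ e, w e * |f e| ∧ ∃ e, f e ≠ 0 ∧ f e + s * g e = 0 := by
  have key : ∀ g : E → ℝ, (∀ e, f e = 0 → g e = 0) → ∑ e, w e * (sg (f e) * g e) ≤ 0 →
      (∀ e, 0 ≤ f e * g e) ∨ ∃ s : ℝ, ∑ e, w e * |f e + s * g e| ≤ ∑ e, w e * |f e| ∧
        ∃ e, f e ≠ 0 ∧ f e + s * g e = 0 := fun g hg hl => by
    rcases first_hit f g with h | ⟨τ, hτ, h, he⟩
    · exact Or.inl h
    · refine Or.inr ⟨τ, ?_, he⟩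
      rw [sum_abs_move w f g hg h]
      nlinarith
  have hneg : ∑ e, w e * (sg (f e) * (- g e)) = - ∑ e, w e * (sg (f e) * g e) := by
    rw [← sum_neg_distrib]; exact sum_congr rfl fun e _ => by ring
  have hg' : ∀ e, f e = 0 → - g e = 0 := fun e h => by simp [hg e h]
  have conv : (∃ s : ℝ, ∑ e, w e * |f e + s * (- g e)| ≤ ∑ e, w e * |f e| ∧
      ∃ e, f e ≠ 0 ∧ f e + s * (- g e) = 0) → ∃ s : ℝ, ∑ e, w e * |f e + s * g e| ≤
        ∑ e, w e * |f e| ∧ ∃ e, f e ≠ 0 ∧ f e + s * g e = 0 := by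
    rintro ⟨s, h1, e, h2, h3⟩
    refine ⟨-s, ?_, e, h2, by linarith⟩
    simpa using h1
  obtain ⟨e0, he0⟩ := hne
  have hf0 : f e0 ≠ 0 := fun h => he0 (hg e0 h)
  have hprod : f e0 * g e0 ≠ 0 := mul_ne_zero hf0 he0
  rcases le_total (∑ e, w e * (sg (f e) * g e)) 0 with hl | hl
  · rcases key g hg hl with h | h
    · have h1 := lin_nonneg w f g hw hg h
      rcases key (fun e => - g e) hg' (by rw [hneg]; linarith) with h' | h'
      · have h2 := h e0
        have h3 := h' e0
        exact absurd (by linarith : f e0 * g e0 = 0) hprod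
      · exact conv h'
    · exact h
  · rcases key (fun e => - g e) hg' (by rw [hneg]; linarith) with h | h
    · have h1 := lin_nonneg w f (fun e => - g e) hw hg' h
      rw [hneg] at h1
      rcases key g hg (by linarith) with h' | h'
      · have h2 := h e0
        have h3 := h' e0
        exact absurd (by linarith : f e0 * g e0 = 0) hprod
      · exact h'
    · exact conv h

/-- The least positive integer that clears the denominator. -/
theorem exists_den (θ : ℝ) {N : ℕ} (hN : 0 < N) (h : ∃ p : ℤ, θ * N = p) :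
    ∃ m : ℕ, 0 < m ∧ m ≤ N ∧ (∃ p : ℤ, θ * m = p) ∧
      ∀ k : ℕ, 0 < k → (∃ p : ℤ, θ * k = p) → m ≤ k := by
  classical
  have hex : ∃ k : ℕ, 0 < k ∧ ∃ p : ℤ, θ * k = p := ⟨N, hN, h⟩
  exact ⟨Nat.find hex, (Nat.find_spec hex).1, Nat.find_min' hex ⟨hN, h⟩, (Nat.find_spec hex).2,
    fun k hk hp => Nat.find_min' hex ⟨hk, hp⟩⟩

end Move

end Pool.Agent.Lib.MP_ee21b2_co
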