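import Pool.Agent.Lib.MP_ee21b2_co.Flow

set_option autoImplicit false
set_option linter.unusedSectionVars false

namespace Pool.Agent.Lib.MP_ee21b2_co

open Finset

variable {V Y : Type} [Fintype V] [DecidableEq V] [DecidableEq Y]

/-- The sets `U z` restricted to the column nodes describe a loopless graph on `Ys`. -/
structure Good (Ys : Finset Y) (U : Y → Finset V) (col : Y → V) : Prop where
  symm : ∀ y ∈ Ys, ∀ z ∈ Ys, col y ∈ U z → col z ∈ U y
  loop : ∀ y ∈ Ys, col y ∉ U y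

def free (Ys : Finset Y) (U : Y → Finset V) (v : V) : Prop := ∀ z ∈ Ys, v ∉ U z

def bet (Ys : Finset Y) (col : Y → V) (W : Finset V) : ℕ := (Ys.filter (fun y => col y ∈ W)).card

def al (α : V → ℤ) (W : Finset V) : ℤ := ∑ v ∈ W, α v

def tt (Ys : Finset Y) (U : Y → Finset V) (α : V → ℤ) : ℤ := ∑ z ∈ Ys, al α (U z)

noncomputable def cost (Ys : Finset Y) (U : Y → Finset V) (φ : V × V → ℝ) : ℝ :=
  ∑ z ∈ Ys, cz φ (U z)

def Feas (Ys : Finset Y) (U : Y → Finset V) (col : Y → V) (α : V → ℤ) (θ : ℝ)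
    (ψ : V × V → ℝ) : Prop :=
  ∀ W : Finset V, (∀ v ∈ W, ¬ free Ys U v) → out ψ W = al α W - θ * bet Ys col W

variable {Ys : Finset Y} {U : Y → Finset V} {col : Y → V} {α : V → ℤ}

theorem not_free_U {z : Y} (hz : z ∈ Ys) : ∀ v ∈ U z, ¬ free Ys U v := fun _ hv h => h z hz hv

theorem bet_eq (W : Finset V) :
    (bet Ys col W : ℤ) = ∑ y ∈ Ys, if col y ∈ W then 1 else 0 := by
  simp [bet]

theorem bet_eq_sum (W : Finset V) : (bet Ys col W : ℤ) = ∑ v ∈ W, (bet Ys col {v} : ℤ) := by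
  simp only [bet_eq]
  rw [sum_comm]
  refine sum_congr rfl fun y _ => ?_
  simp

theorem bet_union {A B : Finset V} (h : Disjoint A B) :
    bet Ys col (A ∪ B) = bet Ys col A + bet Ys col B := by
  have : (bet Ys col (A ∪ B) : ℤ) = bet Ys col A + bet Ys col B := by
    rw [bet_eq_sum, sum_union h, ← bet_eq_sum, ← bet_eq_sum]
  exact_mod_cast this

theorem bet_le (W : Finset V) : bet Ys col W ≤ Ys.card := card_filter_le _ _

theorem bet_mono {A B : Finset V} (h : A ⊆ B) : bet Ys col A ≤ bet Ys col B :=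
  card_le_card fun _ hy => mem_filter.2 ⟨(mem_filter.1 hy).1, h (mem_filter.1 hy).2⟩

theorem bet_pos {W : Finset V} {y : Y} (hy : y ∈ Ys) (h : col y ∈ W) : 0 < bet Ys col W :=
  card_pos.2 ⟨y, mem_filter.2 ⟨hy, h⟩⟩

theorem bet_lt {A B : Finset V} (h : A ⊆ B) {y : Y} (hy : y ∈ Ys) (h1 : col y ∈ B)
    (h2 : col y ∉ A) : bet Ys col A < bet Ys col B :=
  card_lt_card ⟨fun _ hy => mem_filter.2 ⟨(mem_filter.1 hy).1, h (mem_filter.1 hy).2⟩,
    fun h' => h2 (mem_filter.1 (h' (mem_filter.2 ⟨hy, h1⟩))).2⟩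

theorem bet_lt_card {A : Finset V} {y : Y} (hy : y ∈ Ys) (h2 : col y ∉ A) :
    bet Ys col A < Ys.card :=
  card_lt_card ⟨filter_subset _ _, fun h' => h2 (mem_filter.1 (h' hy)).2⟩

theorem bet_eq_zero {W : Finset V} : bet Ys col W = 0 ↔ ∀ y ∈ Ys, col y ∉ W := by
  simp [bet]

theorem bet_empty : bet Ys col ∅ = 0 := by simp [bet]

theorem al_union {A B : Finset V} (h : Disjoint A B) : al α (A ∪ B) = al α A + al α B :=
  sum_union h

theorem al_empty : al α ∅ = 0 := by simp [al]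

theorem feas_of_nodes {θ : ℝ} {ψ : V × V → ℝ}
    (h : ∀ v, ¬ free Ys U v → out ψ {v} = α v - θ * bet Ys col {v}) : Feas Ys U col α θ ψ := by
  intro W hW
  rw [out_of_div h hW, sum_sub_distrib, ← mul_sum]
  have := bet_eq_sum (Ys := Ys) (col := col) W
  have h2 : (bet Ys col W : ℝ) = ∑ v ∈ W, (bet Ys col {v} : ℝ) := by exact_mod_cast this
  rw [h2, al]
  push_cast
  rfl

theorem Feas.node {θ : ℝ} {ψ : V × V → ℝ} (h : Feas Ys U col α θ ψ) (v : V)
    (hv : ¬ free Ys U v) : out ψ {v} = α v - θ * bet Ys col {v} := by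
  have := h {v} (by simpa using hv)
  simpa [al] using this

theorem cost_nonneg (φ : V × V → ℝ) : 0 ≤ cost Ys U φ := sum_nonneg fun _ _ => cz_nonneg _ _

theorem cz_le_cost (φ : V × V → ℝ) {z : Y} (hz : z ∈ Ys) : cz φ (U z) ≤ cost Ys U φ :=
  single_le_sum (f := fun z => cz φ (U z)) (fun _ _ => cz_nonneg _ _) hz

theorem cost_add_le (φ χ : V × V → ℝ) :
    cost Ys U (fun e => φ e + χ e) ≤ cost Ys U φ + cost Ys U χ := by
  unfold cost
  rw [← sum_add_distrib]
  exact sum_le_sum fun z _ => cz_add_le _ _ _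

/-- The length of an ordered pair. -/
def len (Ys : Finset Y) (U : Y → Finset V) (e : V × V) : ℤ := ∑ z ∈ Ys, |io (U z) e|

theorem len_nonneg (e : V × V) : (0 : ℝ) ≤ (len Ys U e : ℤ) := by
  exact_mod_cast sum_nonneg fun _ _ => abs_nonneg _

theorem cost_eq (φ : V × V → ℝ) : cost Ys U φ = ∑ e, (len Ys U e : ℝ) * |φ e| := by
  unfold cost cz len
  rw [sum_comm]
  refine sum_congr rfl fun e _ => ?_
  rw [← mul_sum, mul_comm]
  push_cast
  rfl

theorem supp_move {φ g : V × V → ℝ} (hg : On (supp φ) g) {s : ℝ}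
    (h : ∃ e, φ e ≠ 0 ∧ φ e + s * g e = 0) : supp (fun e => φ e + s * g e) ⊂ supp φ := by
  obtain ⟨e, h1, h2⟩ := h
  refine ⟨supp_subset fun e he => by simp [on_supp φ e he, hg e he], fun h => ?_⟩
  exact mem_supp.1 (h (mem_supp.2 h1)) h2

theorem cost_move {φ g : V × V → ℝ} (hg : On (supp φ) g) (hne : ∃ e, g e ≠ 0) :
    ∃ s : ℝ, cost Ys U (fun e => φ e + s * g e) ≤ cost Ys U φ ∧
      supp (fun e => φ e + s * g e) ⊂ supp φ := by
  obtain ⟨s, h1, h2⟩ := move (fun e => (len Ys U e : ℝ)) φ g len_nonneg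
    (fun e he => hg e (by simp [mem_supp, he])) hne
  exact ⟨s, by rw [cost_eq, cost_eq]; exact h1, supp_move hg h2⟩

theorem even_sum_bet (h : Good Ys U col) : Even (∑ z ∈ Ys, (bet Ys col (U z) : ℤ)) := by
  simp only [bet_eq]
  rw [← sum_product', ← ZMod.intCast_eq_zero_iff_even]
  push_cast
  apply sum_involution (fun p _ => p.swap)
  · intro p hp
    obtain ⟨h1, h2⟩ := mem_product.1 hp
    have : col p.2 ∈ U p.1 ↔ col p.1 ∈ U p.2 := ⟨h.symm _ h2 _ h1, h.symm _ h1 _ h2⟩
    simp only [Prod.fst_swap, Prod.snd_swap, this]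
    split_ifs
    · rfl
    · simp
  · intro p hp hne e
    have : p.2 = p.1 := congrArg Prod.fst e
    apply hne
    rw [this, if_neg (h.loop _ (mem_product.1 hp).1)]
  · intro p hp
    simp
  · intro p hp
    obtain ⟨h1, h2⟩ := mem_product.1 hp
    exact mem_product.2 ⟨h2, h1⟩

theorem int_eq_zero_of_abs_lt {a : ℤ} (h : |(a : ℝ)| < 1) : a = 0 := by
  have : |a| < 1 := by exact_mod_cast h
  exact Int.abs_lt_one_iff.1 this

theorem one_le_abs_of_odd {a : ℤ} (h : Odd a) : (1 : ℝ) ≤ |(a : ℝ)| := by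
  have h1 : a ≠ 0 := fun h' => by simp [h'] at h
  have : 1 ≤ |a| := Int.one_le_abs h1
  exact_mod_cast this

theorem one_le_cz {φ : V × V → ℝ} {n : V × V → ℤ} {M : ℝ} (hM : M ≠ 0) (hn : ∀ e, M * φ e = n e)
    {W : Finset V} (h : ¬ Unc (supp φ) W) : 1 ≤ cz n W := by
  unfold Unc at h
  push Not at h
  obtain ⟨e, he, h⟩ := h
  have h1 : io W e ≠ 0 := fun h' => by
    have := io_eq_zero.1 h'
    tauto
  refine le_trans (Int.one_le_abs fun h0 => ?_) (le_cz n W h1)
  have := hn e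
  rw [h0] at this
  simp [hM, mem_supp.1 he] at this

theorem cz_scale {φ : V × V → ℝ} {n : V × V → ℤ} {M : ℝ} (hM : 0 ≤ M) (hn : ∀ e, M * φ e = n e)
    (W : Finset V) : ((cz n W : ℤ) : ℝ) = M * cz φ W := by
  rw [← cz_cast, ← funext hn, cz_mul, abs_of_nonneg hM]

theorem out_scale {φ : V × V → ℝ} {n : V × V → ℤ} {M : ℝ} (hn : ∀ e, M * φ e = n e)
    (W : Finset V) : ((out n W : ℤ) : ℝ) = M * out φ W := by
  rw [← out_cast, ← funext hn, out_mul]

theorem cost_scale {φ : V × V → ℝ} {n : V × V → ℤ} {M : ℝ} (hM : 0 ≤ M)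
    (hn : ∀ e, M * φ e = n e) : ((∑ z ∈ Ys, cz n (U z) : ℤ) : ℝ) = M * cost Ys U φ := by
  rw [cost, mul_sum]
  push_cast
  exact sum_congr rfl fun z _ => cz_scale hM hn _

theorem card_le_sum_cz {φ : V × V → ℝ} {n : V × V → ℤ} {M : ℝ} (hM : M ≠ 0)
    (hn : ∀ e, M * φ e = n e) {C : Finset Y} (hC : C ⊆ Ys)
    (h : ∀ z ∈ C, ¬ Unc (supp φ) (U z)) : (C.card : ℤ) ≤ ∑ z ∈ Ys, cz n (U z) := by
  refine le_trans ?_ (sum_le_sum_of_subset_of_nonneg hC fun z _ _ => cz_nonneg _ _)
  rw [card_eq_sum_ones]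
  push_cast
  exact sum_le_sum fun z hz => one_le_cz hM hn (h z hz)

/-! ### Sub-instances -/

theorem Good.sub (h : Good Ys U col) {Ys' : Finset Y} (hs : Ys' ⊆ Ys) : Good Ys' U col :=
  ⟨fun y hy z hz => h.symm y (hs hy) z (hs hz), fun y hy => h.loop y (hs hy)⟩

theorem Feas.sub {θ : ℝ} {ψ : V × V → ℝ} (h : Feas Ys U col α θ ψ) {Ys' : Finset Y}
    {D : Y → Finset V} (hs : Ys' ⊆ Ys) (hfr : ∀ v, free Ys U v → free Ys' D v)
    (hc : ∀ y ∈ Ys, y ∉ Ys' → free Ys' D (col y)) : Feas Ys' D col α θ ψ := by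
  intro W hW
  rw [h W fun v hv hf => hW v hv (hfr v hf)]
  unfold bet
  congr 4
  ext y
  simp only [mem_filter]
  refine ⟨fun ⟨h1, h2⟩ => ⟨?_, h2⟩, fun ⟨h1, h2⟩ => ⟨hs h1, h2⟩⟩
  by_contra h3
  exact hW _ h2 (hc y h1 h3)

theorem Good.bet_U_of_free (h : Good Ys U col) {z : Y} (hz : z ∈ Ys) (hf : free Ys U (col z)) :
    bet Ys col (U z) = 0 :=
  bet_eq_zero.2 fun y hy h' => hf y hy (h.symm y hy z hz h')

theorem Good.bet_U_pos (h : Good Ys U col) {z : Y} (hz : z ∈ Ys) (hf : ¬ free Ys U (col z)) :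
    0 < bet Ys col (U z) := by
  unfold free at hf
  push Not at hf
  obtain ⟨y, hy, h'⟩ := hf
  exact bet_pos hy (h.symm z hz y hy h')

theorem tt_erase {z : Y} (hz : z ∈ Ys) : tt (Ys.erase z) U α = tt Ys U α - al α (U z) := by
  unfold tt
  rw [← add_sum_erase _ _ hz]
  ring

theorem cost_sub (φ : V × V → ℝ) {Ys' : Finset Y} (hs : Ys' ⊆ Ys) :
    cost Ys' U φ ≤ cost Ys U φ :=
  sum_le_sum_of_subset_of_nonneg hs fun _ _ _ => cz_nonneg _ _

theorem Feas.erase {θ : ℝ} {ψ : V × V → ℝ} (h : Feas Ys U col α θ ψ) {z : Y}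
    (hf : free Ys U (col z)) : Feas (Ys.erase z) U col α θ ψ :=
  h.sub (erase_subset _ _) (fun _ hv w hw => hv w (mem_of_mem_erase hw)) fun y hy hy' => by
    have : y = z := by
      by_contra h'
      exact hy' (mem_erase.2 ⟨h', hy⟩)
    exact fun w hw => this ▸ hf w (mem_of_mem_erase hw)

/-! ### Flips -/

/-- Toggle the adjacency between the columns in `A` and those in `B`. -/
def flip (U : Y → Finset V) (col : Y → V) (A B : Finset V) (z : Y) : Finset V :=
  symmDiff (U z) (if col z ∈ A then B else if col z ∈ B then A else ∅)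

theorem mem_flip {A B : Finset V} (hAB : Disjoint A B) {z : Y} {v : V} :
    v ∈ flip U col A B z ↔
      ¬ (v ∈ U z ↔ (col z ∈ A ∧ v ∈ B ∨ col z ∈ B ∧ v ∈ A)) := by
  have : col z ∈ A → col z ∉ B := fun h => disjoint_left.1 hAB h
  unfold flip
  rw [mem_symmDiff]
  split_ifs <;> simp_all <;> tauto

theorem Good.flip (h : Good Ys U col) {A B : Finset V} (hAB : Disjoint A B) :
    Good Ys (flip U col A B) col := by
  constructor
  · intro y hy z hz
    have h1 := h.symm y hy z hz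
    have h2 := h.symm z hz y hy
    simp only [mem_flip hAB]
    tauto
  · intro y hy
    have h1 := h.loop y hy
    have : col y ∈ A → col y ∉ B := fun h => disjoint_left.1 hAB h
    simp only [mem_flip hAB]
    tauto

theorem Feas.flip {θ : ℝ} {ψ : V × V → ℝ} (h : Feas Ys U col α θ ψ) {A B : Finset V}
    (hAB : Disjoint A B) (hA : ∀ v ∈ A, ¬ free Ys U v) (hB : ∀ v ∈ B, ¬ free Ys U v) :
    Feas Ys (flip U col A B) col α θ ψ :=
  h.sub Subset.rfl (fun v hv z hz => by
    have h1 := hv z hz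
    have h2 : v ∉ A := fun h' => hA v h' hv
    have h3 : v ∉ B := fun h' => hB v h' hv
    simp only [mem_flip hAB]
    tauto) fun _ h1 h2 => absurd h1 h2

theorem abs_io_flip {F : Finset (V × V)} {A B : Finset V} (hAB : Disjoint A B) (hA : Unc F A)
    (hB : Unc F B) (z : Y) : ∀ e ∈ F, |io (flip U col A B z) e| = |io (U z) e| := by
  intro e he
  have h1 := hA e he
  have h2 := hB e he
  have key : (e.1 ∈ flip U col A B z ↔ e.2 ∈ flip U col A B z) ↔ (e.1 ∈ U z ↔ e.2 ∈ U z) := by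
    simp only [mem_flip hAB]
    tauto
  by_cases h : e.1 ∈ U z ↔ e.2 ∈ U z
  · rw [io_eq_zero.2 h, io_eq_zero.2 (key.2 h)]
  · rw [abs_io_of_ne fun h' => h (io_eq_zero.1 h'),
      abs_io_of_ne fun h' => h (key.1 (io_eq_zero.1 h'))]

theorem cost_flip {F : Finset (V × V)} {φ : V × V → ℝ} (hφ : On F φ) {A B : Finset V}
    (hAB : Disjoint A B) (hA : Unc F A) (hB : Unc F B) :
    cost Ys (flip U col A B) φ = cost Ys U φ :=
  sum_congr rfl fun z _ => cz_congr hφ (abs_io_flip hAB hA hB z)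

theorem even_al_symmDiff (S T : Finset V) : Even (al α (symmDiff S T) - al α S - al α T) := by
  have h : ∀ W : Finset V, al α W = ∑ v, if v ∈ W then α v else 0 := fun W => by simp [al]
  rw [h, h, h, ← sum_sub_distrib, ← sum_sub_distrib]
  refine even_sum _ fun v _ => ?_
  by_cases h1 : v ∈ S <;> by_cases h2 : v ∈ T <;> simp [mem_symmDiff, h1, h2]
  exact ⟨- α v, by ring⟩

theorem odd_tt_flip {A B : Finset V} (hAB : Disjoint A B) {θ : ℝ}
    (hA : (al α A : ℝ) = θ * bet Ys col A) (hB : (al α B : ℝ) = θ * bet Ys col B)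
    (ht : Odd (tt Ys U α)) : Odd (tt Ys (flip U col A B) α) := by
  have h1 : Even (tt Ys (flip U col A B) α - tt Ys U α -
      ∑ z ∈ Ys, al α (if col z ∈ A then B else if col z ∈ B then A else ∅)) := by
    unfold tt
    rw [← sum_sub_distrib, ← sum_sub_distrib]
    exact even_sum _ fun z _ => even_al_symmDiff _ _
  have h2 : ∑ z ∈ Ys, al α (if col z ∈ A then B else if col z ∈ B then A else ∅)
      = al α B * bet Ys col A + al α A * bet Ys col B := by
    rw [bet_eq, bet_eq, mul_sum, mul_sum, ← sum_add_distrib]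
    refine sum_congr rfl fun z _ => ?_
    have : col z ∈ A → col z ∉ B := fun h => disjoint_left.1 hAB h
    split_ifs <;> simp_all [al_empty]
  have h3 : al α B * bet Ys col A = al α A * bet Ys col B := by
    have : (al α B : ℝ) * bet Ys col A = al α A * bet Ys col B := by rw [hA, hB]; ring
    exact_mod_cast this
  rw [h2, h3] at h1
  obtain ⟨a, ha⟩ := h1
  obtain ⟨b, hb⟩ := ht
  exact ⟨a + b + al α A * bet Ys col B, by linarith⟩

theorem flip_self {A B : Finset V} (hAB : Disjoint A B) {z : Y} (hA : U z = A) (hz : col z ∈ B) :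
    flip U col A B z = ∅ := by
  unfold flip
  rw [if_neg (fun h => disjoint_left.1 hAB h hz), if_pos hz, hA, symmDiff_self]
  rfl

theorem Good.free_of_bet (h : Good Ys U col) {z : Y} (hz : z ∈ Ys)
    (hb : ∀ y ∈ Ys, col y ∉ U z) : free Ys U (col z) :=
  fun y hy h' => hb y hy (h.symm z hz y hy h')

/-- Integrality of a flow on a forest. -/
theorem Feas.int {θ : ℝ} {ψ φ : V × V → ℝ} (h : Feas Ys U col α θ ψ) {F : Finset (V × V)}
    (hF : Forest F (free Ys U)) (hφ : On F φ) (M p : ℤ) (hp : θ * M = p) (r : V → ℤ)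
    (hr : ∀ v, M * (out ψ {v} - out φ {v}) = r v) :
    ∃ n : V × V → ℤ, ∀ e, M * φ e = n e := by
  obtain ⟨n, hn, -⟩ := hF.int (φ := fun e => M * φ e) (fun e he => by simp [hφ e he])
    (fun v => M * α v - p * bet Ys col {v} - r v) fun v hv => by
      rw [out_mul]
      push_cast
      rw [← hr v, h.node v hv, ← hp]
      ring
  exact ⟨n, hn⟩

/-- The linear statement without a special pair. -/
theorem thmB (Ys : Finset Y) : ∀ (U : Y → Finset V) (col : Y → V) (α : V → ℤ), Good Ys U col →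
    Odd (tt Ys U α) → ∀ (θ : ℝ) (ψ : V × V → ℝ), Feas Ys U col α θ ψ → 1 ≤ cost Ys U ψ := by
  induction Ys using Finset.strongInduction with
  | H Ys ih =>
  intro U col α hG ht θ ψ
  induction hk : (supp ψ).card using Nat.strong_induction_on generalizing θ ψ with
  | h k ihk =>
  intro hF
  by_contra hc
  push Not at hc
  have hmin : ∀ (θ' : ℝ) (g : V × V → ℝ), On (supp ψ) g → (∃ e, g e ≠ 0) →
      ¬ ∀ s : ℝ, Feas Ys U col α (θ + s * θ') (fun e => ψ e + s * g e) := by
    intro θ' g hg hne h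
    obtain ⟨s, h1, h2⟩ := cost_move (Ys := Ys) (U := U) hg hne
    have := ihk _ (hk ▸ card_lt_card h2) _ _ rfl (h s)
    linarith
  have hiso : ∀ z ∈ Ys, ¬ free Ys U (col z) := by
    intro z hz hf
    have h1 := hF (U z) (not_free_U hz)
    rw [hG.bet_U_of_free hz hf] at h1
    have h2 : al α (U z) = 0 := int_eq_zero_of_abs_lt (by
      have := (abs_out_le ψ (U z)).trans (cz_le_cost ψ hz)
      rw [h1] at this
      simp only [Nat.cast_zero, mul_zero, sub_zero] at this
      linarith)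
    have := ih _ (erase_ssubset hz) U col α (hG.sub (erase_subset _ _))
      (by rw [tt_erase hz, h2, sub_zero]; exact ht) θ ψ (hF.erase hf)
    linarith [cost_sub (U := U) ψ (erase_subset z Ys)]
  have hfor : Forest (supp ψ) (free Ys U) := by
    intro χ h1 h2
    by_contra h3
    push Not at h3
    refine hmin 0 χ h1 h3 fun s => feas_of_nodes fun v hv => ?_
    rw [out_add, out_mul, h2 v hv, hF.node v hv]
    ring
  set Z := top (supp ψ) (free Ys U) with hZ
  have hZc : Clo (supp ψ) (free Ys U) Z := clo_top _ _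
  have hcl : ∀ W, Clo (supp ψ) (free Ys U) W → (al α W : ℝ) = θ * bet Ys col W := fun W hW => by
    have := hF W hW.2
    rw [out_unc (on_supp ψ) hW.1] at this
    linarith
  have hN : 0 < bet Ys col Z := by
    by_contra h0
    obtain ⟨b, hb, hb'⟩ := solve (supp ψ) (free Ys U) (fun v => bet Ys col {v}) fun W hW => by
      rw [← bet_eq_sum]
      have := bet_mono (Ys := Ys) (col := col) (subset_top hW)
      rw [← hZ] at this
      omega
    have hne : Ys.Nonempty := by
      rw [nonempty_iff_ne_empty]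
      rintro rfl
      simp [tt] at ht
    obtain ⟨y, hy⟩ := hne
    refine hmin (-1) (fun e => (b e : ℝ)) (fun e he => by simp [hb e he]) ?_
      fun s => feas_of_nodes fun v hv => ?_
    · by_contra h3
      push Not at h3
      have h4 := hb' _ (hiso y hy)
      have h5 : b = fun _ => 0 := funext fun e => by exact_mod_cast h3 e
      have h6 := bet_pos (col := col) hy (mem_singleton_self (col y))
      rw [h5] at h4
      simp only [out, zero_mul, sum_const_zero] at h4
      omega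
    · rw [out_add, out_mul, out_cast, hb' v hv, hF.node v hv]
      push_cast
      ring
  by_cases hx : ∃ z ∈ Ys, col z ∈ Z ∧ Unc (supp ψ) (U z)
  · obtain ⟨z, hz, hzZ, hu⟩ := hx
    have hA : Clo (supp ψ) (free Ys U) (U z) := ⟨hu, not_free_U hz⟩
    have hB := hZc.sdiff hu
    have hAB : Disjoint (U z) (Z \ U z) := disjoint_sdiff
    have hG' := hG.flip hAB
    have he := flip_self hAB rfl (mem_sdiff.2 ⟨hzZ, hG.loop z hz⟩)
    have hf := hG'.free_of_bet hz (fun y _ => by rw [he]; simp)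
    have := ih _ (erase_ssubset hz) _ col α (hG'.sub (erase_subset _ _))
      (by
        rw [tt_erase hz, he, al_empty, sub_zero]
        exact odd_tt_flip hAB (hcl _ hA) (hcl _ hB) ht) θ ψ ((hF.flip hAB hA.2 hB.2).erase hf)
    have h2 := cost_sub (U := flip U col (U z) (Z \ U z)) ψ (erase_subset z Ys)
    rw [cost_flip (Ys := Ys) (on_supp ψ) hAB hA.1 hB.1] at h2
    linarith
  · push Not at hx
    obtain ⟨n, hn⟩ := hF.int hfor (on_supp ψ) (bet Ys col Z) (al α Z)
      (by rw [hcl Z hZc]; simp) (fun _ => 0) (by simp)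
    have hN' : (0 : ℝ) < ((bet Ys col Z : ℤ) : ℝ) := by exact_mod_cast hN
    have h1 := card_le_sum_cz (U := U) hN'.ne' hn (filter_subset (fun y => col y ∈ Z) Ys)
      fun z hz => hx z (mem_filter.1 hz).1 (mem_filter.1 hz).2
    have h2 := cost_scale (Ys := Ys) (U := U) hN'.le hn
    have h3 : ((bet Ys col Z : ℤ) : ℝ) ≤ ((∑ z ∈ Ys, cz n (U z) : ℤ) : ℝ) := by exact_mod_cast h1
    nlinarith

end Pool.Agent.Lib.MP_ee21b2_co
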