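import Pool.Agent.Lib.MP_ee21b2_co.Nest

set_option autoImplicit false
set_option linter.unusedSectionVars false

namespace Pool.Agent.Lib.MP_ee21b2_co

open Finset

variable {V Y : Type} [Fintype V] [DecidableEq V] [DecidableEq Y]
variable {Ys : Finset Y} {U : Y → Finset V} {col : Y → V} {α : V → ℤ} {y1 y2 z0 : Y} {e1 e2 o : V}

/-- Toggle the adjacency of the special pair. -/
def sw (col : Y → V) (y1 y2 : Y) (e1 e2 : V) (y : Y) : V :=
  if y = y1 then e1 else if y = y2 then e2 else col y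

theorem sw_1 : sw col y1 y2 e1 e2 y1 = e1 := by simp [sw]

theorem sw_2 (h : y1 ≠ y2) : sw col y1 y2 e1 e2 y2 = e2 := by simp [sw, h.symm]

theorem sw_3 {z : Y} (h1 : z ≠ y1) (h2 : z ≠ y2) : sw col y1 y2 e1 e2 z = col z := by
  simp [sw, h1, h2]

theorem not_iff_aux {A B A' B' : Prop} (h1 : ¬ (A ↔ B)) (h2 : ¬ (A' ↔ B')) (h3 : B ↔ B') :
    A ↔ A' := by tauto

theorem Sp.switch (h : Sp Ys U col y1 y2 e1 e2 z0) :
    Sp Ys U (sw col y1 y2 e1 e2) y1 y2 (col y1) (col y2) z0 := by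
  have h12 : e1 ∈ U y2 ↔ e2 ∈ U y1 := not_iff_aux h.b1 h.b2 h.adj
  refine ⟨⟨fun y hy z hz h' => ?_, fun y hy => ?_⟩, h.h1, h.h2, h.hne, fun z hz hne => ?_, ?_,
    fun z hz hne => ?_, ?_, h.hz, h.n1, h.n2, ?_⟩
  · by_cases a1 : y = y1
    · rw [a1, sw_1] at h'
      by_cases b1 : z = y1
      · exact absurd (b1 ▸ h') h.e1_y1
      by_cases b2 : z = y2
      · rw [b2, sw_2 h.hne, a1]; exact h12.1 (b2 ▸ h')
      rw [sw_3 b1 b2, a1]
      exact h.good.symm _ h.h1 _ hz ((h.a1 z hz b2).1 h')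
    by_cases a2 : y = y2
    · rw [a2, sw_2 h.hne] at h'
      by_cases b2 : z = y2
      · exact absurd (b2 ▸ h') h.e2_y2
      by_cases b1 : z = y1
      · rw [b1, sw_1, a2]; exact h12.2 (b1 ▸ h')
      rw [sw_3 b1 b2, a2]
      exact h.good.symm _ h.h2 _ hz ((h.a2 z hz b1).1 h')
    rw [sw_3 a1 a2] at h'
    have h'' := h.good.symm _ hy _ hz h'
    by_cases b1 : z = y1
    · rw [b1, sw_1]; exact (h.a1 y hy a2).2 (b1 ▸ h'')
    by_cases b2 : z = y2
    · rw [b2, sw_2 h.hne]; exact (h.a2 y hy a1).2 (b2 ▸ h'')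
    rw [sw_3 b1 b2]; exact h''
  · by_cases a1 : y = y1
    · rw [a1, sw_1]; exact h.e1_y1
    by_cases a2 : y = y2
    · rw [a2, sw_2 h.hne]; exact h.e2_y2
    rw [sw_3 a1 a2]; exact h.good.loop y hy
  · rw [sw_1]; exact (h.a1 z hz hne).symm
  · rw [sw_1]; exact fun h' => h.b1 h'.symm
  · rw [sw_2 h.hne]; exact (h.a2 z hz hne).symm
  · rw [sw_2 h.hne]; exact fun h' => h.b2 h'.symm
  · rw [sw_1, sw_2 h.hne, h.a1 z0 h.hz h.n2, h.a2 z0 h.hz h.n1]; exact h.tw

theorem Sp.bet_sw (h : Sp Ys U col y1 y2 e1 e2 z0) (W : Finset V) :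
    (bet Ys (sw col y1 y2 e1 e2) W : ℤ)
      = bet Ys col W + io W (e1, col y1) + io W (e2, col y2) := by
  have h1 : io W (e1, col y1) = ∑ y ∈ Ys, if y = y1 then io W (e1, col y1) else 0 := by
    simp [h.h1]
  have h2 : io W (e2, col y2) = ∑ y ∈ Ys, if y = y2 then io W (e2, col y2) else 0 := by
    simp [h.h2]
  rw [h1, h2, bet_eq, bet_eq, ← sum_add_distrib, ← sum_add_distrib]
  refine sum_congr rfl fun y _ => ?_
  by_cases a1 : y = y1
  · simp [a1, sw_1, h.hne, io]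
  by_cases a2 : y = y2
  · simp [a2, sw_2 h.hne, h.hne.symm, io]
  simp [a1, a2, sw_3 a1 a2]

theorem io_swap (W : Finset V) (u v : V) : io W (u, v) = - io W (v, u) := by simp [io]

theorem Sp.feas_sw (h : Sp Ys U col y1 y2 e1 e2 z0) {θ x1 x2 : ℝ} {φ : V × V → ℝ} :
    Feas Ys U col α θ (ext φ (e1, col y1) (e2, col y2) x1 x2) ↔
      Feas Ys U (sw col y1 y2 e1 e2) α θ (ext φ (col y1, sw col y1 y2 e1 e2 y1)
        (col y2, sw col y1 y2 e1 e2 y2) (θ - x1) (θ - x2)) := by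
  refine forall_congr' fun W => forall_congr' fun _ => ?_
  have h1 : (bet Ys (sw col y1 y2 e1 e2) W : ℝ)
      = bet Ys col W + io W (e1, col y1) + io W (e2, col y2) := by exact_mod_cast h.bet_sw W
  rw [out_ext, out_ext, h1, sw_1, sw_2 h.hne, io_swap W (col y1), io_swap W (col y2)]
  push_cast
  constructor <;> intro h2 <;> linarith

theorem lemN_aux (h : Sp Ys U col y1 y2 e1 e2 z0) (ht : Odd (tt Ys U α)) {θ x : ℝ}
    {φ : V × V → ℝ} (hF : Feas Ys U col α θ (ext φ (e1, col y1) (e2, col y2) x x))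
    (u1 : Unc (supp φ) (U y1)) (u2 : Unc (supp φ) (U y2)) (hk : col y1 ∉ U y2) :
    1 ≤ cost Ys U φ := by
  have a1 := h.good.loop _ h.h1
  have a2 := h.good.loop _ h.h2
  have a3 : col y2 ∉ U y1 := fun h' => hk (h.adj.2 h')
  have a4 := h.e1_y1
  have a5 := h.e2_y2
  have a6 : e1 ∈ U y2 := by_contra fun h' => h.b1 ⟨fun h'' => absurd h'' h', fun h'' => absurd h'' hk⟩
  have a7 : e2 ∈ U y1 := by_contra fun h' => h.b2 ⟨fun h'' => absurd h'' h', fun h'' => absurd h'' a3⟩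
  let π : V → ℤ := fun v => if v ∈ U y1 then (if v ∈ U y2 then 0 else 1)
    else (if v ∈ U y2 then 3 else 2)
  have p1 : π (col y1) = 2 := by simp [π, a1, hk]
  have p2 : π (col y2) = 2 := by simp [π, a2, a3]
  have p3 : π e1 = 3 := by simp [π, a4, a6]
  have p4 : π e2 = 1 := by simp [π, a5, a7]
  have q1 : ∀ z ∈ Ys, col y1 ∈ U z → π (col z) = 0 ∨ π (col z) = 1 := fun z hz h' => by
    have := h.good.symm _ h.h1 _ hz h'
    simp only [π, this, if_true]
    split_ifs <;> simp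
  have q2 : ∀ z ∈ Ys, col y2 ∈ U z → π (col z) = 0 ∨ π (col z) = 3 := fun z hz h' => by
    have := h.good.symm _ h.h2 _ hz h'
    simp only [π, this, if_true]
    split_ifs <;> simp
  refine block h.good ht hF (π := π) (fun e he => by simp only [π, u1 e he, u2 e he])
    (fun z hz => ⟨?_, ?_⟩) ?_
  · by_cases h' : z = y2
    · simp [io, mem_dg, h', p1, p2, p3, hk]
    · by_cases h'' : col y1 ∈ U z
      · rcases q1 z hz h'' with h3 | h3 <;> simp [io, mem_dg, p1, p3, h3]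
      · simp [io, mem_dg, h.a1 z hz h', h'']
  · by_cases h' : z = y1
    · simp [io, mem_dg, h', p1, p2, p4, a3]
    · by_cases h'' : col y2 ∈ U z
      · rcases q2 z hz h'' with h3 | h3 <;> simp [io, mem_dg, p2, p4, h3]
      · simp [io, mem_dg, h.a2 z hz h', h'']
  · have g1 : goff Ys U col π (e1, col y1) = 1 := by
      unfold goff
      rw [sum_eq_single_of_mem y2 h.h2 fun z hz h' => ?_]
      · simp [io, mem_up, mem_dn, p1, p2, p3, a6]
      · by_cases h'' : col y1 ∈ U z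
        · rcases q1 z hz h'' with h3 | h3 <;>
            simp [io, mem_up, mem_dn, p1, p3, h3, h.a1 z hz h', h'']
        · simp [io, mem_up, mem_dn, h.a1 z hz h', h'']
    have g2 : goff Ys U col π (e2, col y2) = -1 := by
      unfold goff
      rw [sum_eq_single_of_mem y1 h.h1 fun z hz h' => ?_]
      · simp [io, mem_up, mem_dn, p1, p2, p4, a7]
      · by_cases h'' : col y2 ∈ U z
        · rcases q2 z hz h'' with h3 | h3 <;>
            simp [io, mem_up, mem_dn, p2, p4, h3, h.a2 z hz h', h'']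
        · simp [io, mem_up, mem_dn, h.a2 z hz h', h'']
    rw [g1, g2]; rfl

/-- No edge of the support crosses either special coordinate. -/
theorem lemN (h : Sp Ys U col y1 y2 e1 e2 z0) (ht : Odd (tt Ys U α)) {θ x : ℝ}
    {φ : V × V → ℝ} (hF : Feas Ys U col α θ (ext φ (e1, col y1) (e2, col y2) x x))
    (u1 : Unc (supp φ) (U y1)) (u2 : Unc (supp φ) (U y2)) : 1 ≤ cost Ys U φ := by
  by_cases hk : col y1 ∈ U y2
  · refine lemN_aux h.switch ht (h.feas_sw.1 hF) u1 u2 ?_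
    rw [sw_1]
    exact fun h' => h.b1 ⟨fun _ => hk, fun _ => h'⟩
  · exact lemN_aux h ht hF u1 u2 hk

theorem Sp.sum_io1 (h : Sp Ys U col y1 y2 e1 e2 z0) :
    ∑ z ∈ Ys, io (U z) (e1, col y1) = io (U y2) (e1, col y1) :=
  sum_eq_single_of_mem y2 h.h2 fun _ hz hne => h.io1 hz hne

theorem int_flow {θ x : ℝ} {φ : V × V → ℝ} {l1 l2 : V × V}
    (hF : Feas Ys U col α θ (ext φ l1 l2 x x)) (hfor : Forest (supp φ) (free Ys U)) {M p q : ℤ}
    (hp : θ * M = p) (hq : x * M = q) : ∃ n : V × V → ℤ, ∀ e, M * φ e = n e :=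
  hF.int hfor (on_supp φ) M p hp (fun v => q * io {v} l1 + q * io {v} l2) fun v => by
    rw [out_ext]
    push_cast
    rw [← hq]
    ring

theorem sum_cz_lt {φ : V × V → ℝ} (hc : cost Ys U φ < 1) {M : ℤ} (hM : 0 < M) {n : V × V → ℤ}
    (hn : ∀ e, M * φ e = n e) : ∑ z ∈ Ys, cz n (U z) < M := by
  have hMR : (0 : ℝ) < M := by exact_mod_cast hM
  have h1 := cost_scale (Ys := Ys) (U := U) hMR.le hn
  have : ((∑ z ∈ Ys, cz n (U z) : ℤ) : ℝ) < M := by rw [h1]; nlinarith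
  exact_mod_cast this

theorem cnt (h : Sp Ys U col y1 y2 e1 e2 z0) (ht : Odd (tt Ys U α)) {θ x : ℝ}
    {φ : V × V → ℝ} (hF : Feas Ys U col α θ (ext φ (e1, col y1) (e2, col y2) x x))
    (hc : cost Ys U φ < 1) (hfor : Forest (supp φ) (free Ys U)) {M p q : ℤ} (hM : 0 < M)
    (hp : θ * M = p) (hq : x * M = q) {C : Finset Y} (hC : C ⊆ Ys)
    (hx : ∀ z ∈ C, ¬ Unc (supp φ) (U z)) : (C.card : ℤ) + 2 ≤ M := by
  obtain ⟨n, hn⟩ := int_flow hF hfor hp hq
  have hMR : (M : ℝ) ≠ 0 := by exact_mod_cast hM.ne'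
  have h1 := card_le_sum_cz hMR hn hC hx
  have h2 := sum_cz_lt hc hM hn
  have h3 : Even (∑ z ∈ Ys, cz n (U z) - ∑ z ∈ Ys, out n (U z)) := by
    rw [← sum_sub_distrib]
    exact even_sum _ fun z _ => even_cz n _
  have h4 : ∑ z ∈ Ys, out n (U z) = M * tt Ys U α - p * ∑ z ∈ Ys, (bet Ys col (U z) : ℤ)
      - q * (2 * io (U y2) (e1, col y1)) := by
    rw [sum_congr rfl fun z hz => hF.out_int hp hq hq hn (not_free_U hz), sum_sub_distrib,
      sum_sub_distrib, sum_sub_distrib, ← mul_sum, ← mul_sum, ← mul_sum, ← mul_sum, h.sum_io1,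
      h.swap.sum_io1, h.io_eq, tt]
    ring
  obtain ⟨a, ha⟩ := h3
  obtain ⟨b, hb⟩ := even_sum_bet h.good
  obtain ⟨c, hc⟩ := ht
  rw [h4, hb, hc] at ha
  have h5 : ∑ z ∈ Ys, cz n (U z) = M + 2 * (a + M * c - p * b - q * io (U y2) (e1, col y1)) := by
    linarith
  omega

theorem caseA (hS : Sp Ys U col y1 y2 e1 e2 z0) (ho : free Ys U o) (ht : Odd (tt Ys U α))
    (ih : Low V Ys) {θ x : ℝ} {φ : V × V → ℝ}
    (hF : Feas Ys U col α θ (ext φ (e1, col y1) (e2, col y2) x x))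
    (hc : cost Ys U φ < 1) (hfor : Forest (supp φ) (free Ys U)) {W0 : Finset V}
    (hW0 : Clo (supp φ) (free Ys U) W0) (hγ : io W0 (e1, col y1) + io W0 (e2, col y2) ≠ 0)
    (hpos : 0 < bet Ys col (top (ins (supp φ) (e1, col y1) (e2, col y2)) (free Ys U))) :
    False := by
  set G := ins (supp φ) (e1, col y1) (e2, col y2) with hG
  set Z := top G (free Ys U) with hZ
  have hZc : Clo G (free Ys U) Z := clo_top _ _
  have ndc : ∀ P, Unc G P → (col y1 ∈ P ↔ col y2 ∈ P) := fun P hP => by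
    obtain ⟨h1, h2, h3⟩ := unc_ins.1 hP
    constructor
    · intro h4
      by_contra h5
      linarith [dc hS ht hF h1 h4 (h2.2 h4) h5 (fun h => h5 (h3.1 h))]
    · intro h4
      by_contra h5
      linarith [dc hS ht hF h1.compl (mem_compl.2 h5) (mem_compl.2 fun h => h5 (h2.1 h))
        (fun h => mem_compl.1 h h4) (fun h => mem_compl.1 h (h3.2 h4))]
  have ndc' : ∀ P, Unc G P → (e1 ∈ P ↔ col y1 ∈ P) ∧ (e2 ∈ P ↔ col y1 ∈ P) ∧
      (col y2 ∈ P ↔ col y1 ∈ P) := fun P hP =>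
    ⟨(unc_ins.1 hP).2.1, (unc_ins.1 hP).2.2.trans (ndc P hP).symm, (ndc P hP).symm⟩
  have hx : ∀ z ∈ Ys, col z ∈ Z → z ≠ y1 → z ≠ y2 → ¬ Unc (supp φ) (U z) := by
    intro z hz hzZ n1 n2 hu
    have hA := hS.clo_U hz n1 n2 hu
    have hB := hZc.sdiff hA.1
    have hAB : Disjoint (U z) (Z \ U z) := disjoint_sdiff
    have he := flip_self hAB rfl (mem_sdiff.2 ⟨hzZ, hS.good.loop z hz⟩)
    have hP := del_one (hS.flip hAB (ndc' _ hA.1) (ndc' _ hB.1)) (free_flip hAB hA.2 hB.2 ho)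
      (odd_tt_flip hAB (hF.clo_ins hA) (hF.clo_ins hB) ht) ih hz n1 n2
      (fun h => hS.tw (h ▸ ndc _ hA.1)) (by rw [he, al_empty])
    have := hP θ x x φ (hF.flip hAB hA.2 hB.2)
    rw [cost_flip (on_supp φ) hAB (unc_ins.1 hA.1).1 (unc_ins.1 hB.1).1] at this
    simp only [sub_self, abs_zero, add_zero] at this
    linarith
  obtain ⟨m, hm0, hmN, ⟨p, hp⟩, hmm⟩ := exists_den θ hpos ⟨_, (hF.clo_ins hZc).symm⟩
  have hm0' : (0 : ℤ) < m := by exact_mod_cast hm0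
  have hp' : θ * ((m : ℤ) : ℝ) = p := by simpa using hp
  have hxW : ∀ W, Clo (supp φ) (free Ys U) W →
      x * m * ((io W (e1, col y1) + io W (e2, col y2) : ℤ) : ℝ)
        = ((m * al α W - p * bet Ys col W : ℤ) : ℝ) := fun W hW => by
    push_cast
    rw [hF.clo hW, ← hp]
    ring
  set YZ := Ys.filter (fun y => col y ∈ Z) with hYZ
  have hcard : bet Ys col Z = YZ.card := rfl
  have hxZ : ∀ z ∈ YZ, z ≠ y1 → z ≠ y2 → ¬ Unc (supp φ) (U z) := fun z hz =>
    hx z (mem_filter.1 hz).1 (mem_filter.1 hz).2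
  by_cases hint : ∃ q : ℤ, x * ((m : ℤ) : ℝ) = q
  · obtain ⟨q, hq⟩ := hint
    have hcnt : ∀ yc, yc = y1 ∨ yc = y2 → Unc (supp φ) (U yc) := fun yc hyc => by
      by_contra h
      have h1 := card_le_ne YZ y1 y2
      have h2 := cnt hS ht hF hc hfor hm0' hp' hq
        (C := insert yc (YZ.filter (fun z => z ≠ y1 ∧ z ≠ y2)))
        (insert_subset (by rcases hyc with h | h <;> rw [h]; exacts [hS.h1, hS.h2])
          ((filter_subset _ _).trans (filter_subset _ _))) (fun z hz => by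
          rcases mem_insert.1 hz with h' | h'
          · rw [h']; exact h
          · obtain ⟨h3, h4, h5⟩ := mem_filter.1 h'
            exact hxZ z h3 h4 h5)
      rw [card_insert_of_notMem
        (fun h' => hyc.elim (mem_filter.1 h').2.1 (mem_filter.1 h').2.2)] at h2
      omega
    linarith [lemN hS ht hF (hcnt y1 (Or.inl rfl)) (hcnt y2 (Or.inr rfl))]
  have hev : ∀ W, Clo (supp φ) (free Ys U) W → io W (e1, col y1) + io W (e2, col y2) ≠ 1 ∧
      io W (e1, col y1) + io W (e2, col y2) ≠ -1 := fun W hW => by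
    have := hxW W hW
    constructor <;> intro h <;> rw [h] at this
    · exact hint ⟨m * al α W - p * bet Ys col W, by simpa using this⟩
    · exact hint ⟨- (m * al α W - p * bet Ys col W), by push_cast at this ⊢; linarith⟩
  have hγ2 : (e1 ∈ W0 ∧ e2 ∈ W0 ∧ col y1 ∉ W0 ∧ col y2 ∉ W0) ∨
      (e1 ∉ W0 ∧ e2 ∉ W0 ∧ col y1 ∈ W0 ∧ col y2 ∈ W0) := by
    have := hev W0 hW0
    revert this hγ
    by_cases a1 : e1 ∈ W0 <;> by_cases a2 : e2 ∈ W0 <;> by_cases a3 : col y1 ∈ W0 <;>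
      by_cases a4 : col y2 ∈ W0 <;> simp [io, a1, a2, a3, a4]
  obtain ⟨X, hX⟩ : ∃ X : ℤ, x * ((2 * m : ℤ) : ℝ) = X := by
    have := hxW W0 hW0
    rcases hγ2 with ⟨a1, a2, a3, a4⟩ | ⟨a1, a2, a3, a4⟩ <;>
      simp only [io, a1, a2, a3, a4, if_true, if_false] at this
    · exact ⟨m * al α W0 - p * bet Ys col W0, by push_cast at this ⊢; linarith⟩
    · exact ⟨- (m * al α W0 - p * bet Ys col W0), by push_cast at this ⊢; linarith⟩
  have hXo : X % 2 = 1 := by
    by_contra h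
    obtain ⟨q, hq⟩ : Even X := Int.even_iff.2 (by omega)
    exact hint ⟨q, by rw [hq] at hX; push_cast at hX ⊢; linarith⟩
  have hp2 : θ * ((2 * m : ℤ) : ℝ) = ((2 * p : ℤ) : ℝ) := by push_cast; linarith
  obtain ⟨n, hn⟩ := int_flow hF hfor hp2 hX
  have hM : (0 : ℤ) < 2 * m := by omega
  have hMR : ((2 * m : ℤ) : ℝ) ≠ 0 := by exact_mod_cast hM.ne'
  have hlt := sum_cz_lt hc hM hn
  have hout : ∀ W, (∀ v ∈ W, ¬ free Ys U v) → out n W = 2 * (m * al α W - p * bet Ys col W)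
      - X * (io W (e1, col y1) + io W (e2, col y2)) := fun W hW => by
    rw [hF.out_int hp2 hX hX hn hW]; ring
  have hK2 : ∀ z ∈ YZ, z ≠ y1 → z ≠ y2 → 2 ≤ cz n (U z) := fun z hz n1 n2 => by
    have hz' := (mem_filter.1 hz).1
    have h1 := one_le_cz hMR hn (hxZ z hz n1 n2)
    have h2 := Int.even_iff.1 (even_cz n (U z))
    rw [hout _ (not_free_U hz'), hS.io1 hz' n2, hS.io2 hz' n1] at h2
    omega
  have hK1 : ∀ z ∈ YZ, 1 ≤ cz n (U z) := fun z hz => by
    have hz' := (mem_filter.1 hz).1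
    have h1 := cz_nonneg n (U z)
    have h2 := Int.even_iff.1 (even_cz n (U z))
    rw [hout _ (not_free_U hz')] at h2
    have h3 := io_cases (U y2) (e1, col y1)
    have h4 := hS.io_ne
    by_cases n1 : z = y1
    · rw [hS.io1 hz' (n1 ▸ hS.hne), n1, hS.io_eq] at h2
      rw [n1] at h1 ⊢
      rcases h3 with h | h | h <;> rw [h] at h2 h4 <;> omega
    by_cases n2 : z = y2
    · rw [hS.io2 hz' n1, n2] at h2
      rw [n2] at h1 ⊢
      rcases h3 with h | h | h <;> rw [h] at h2 h4 <;> omega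
    linarith [hK2 z hz n1 n2]
  have hlow : ∀ S ⊆ YZ, 2 * (S.card : ℤ) ≤ ∑ z ∈ S, cz n (U z)
      + (if y1 ∈ S then 1 else 0) + (if y2 ∈ S then 1 else 0) := fun S hS' => by
    have h1 : 2 * (S.card : ℤ) = ∑ _z ∈ S, 2 := by simp [mul_comm]
    rw [h1, ← sum_ite_eq' S y1 (fun _ => (1 : ℤ)), ← sum_ite_eq' S y2 (fun _ => (1 : ℤ)),
      ← sum_add_distrib, ← sum_add_distrib]
    refine sum_le_sum fun z hz => ?_
    have h2 := hK1 z (hS' hz)
    have h3 := hK2 z (hS' hz)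
    split_ifs with h4 h5 h5
    · omega
    · omega
    · omega
    · have := h3 h4 h5
      omega
  have hc1 : col y1 ∈ Z := by
    by_contra h
    have h1 := hlow YZ Subset.rfl
    have h2 : y1 ∉ YZ := fun h' => h (mem_filter.1 h').2
    have h3 : y2 ∉ YZ := fun h' => h ((ndc Z hZc.1).2 (mem_filter.1 h').2)
    have h4 : ∑ z ∈ YZ, cz n (U z) ≤ ∑ z ∈ Ys, cz n (U z) :=
      sum_le_sum_of_subset_of_nonneg (filter_subset _ _) fun _ _ _ => cz_nonneg _ _
    rw [if_neg h2, if_neg h3] at h1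
    omega
  obtain ⟨he1, he2, hc2⟩ := ndc' Z hZc.1
  have hK0 : cz n (U z0) ≤ 3 ∧ YZ.card ≤ m := by
    have h1 := hlow (YZ.erase z0) (erase_subset _ _)
    have h1' := hlow YZ Subset.rfl
    have h2 : ∑ z ∈ YZ.erase z0, cz n (U z) ≤ ∑ z ∈ Ys.erase z0, cz n (U z) :=
      sum_le_sum_of_subset_of_nonneg (erase_subset_erase _ (filter_subset _ _))
        fun _ _ _ => cz_nonneg _ _
    have h3 := add_sum_erase Ys (fun z => cz n (U z)) hS.hz
    have h4 : ∑ z ∈ YZ, cz n (U z) ≤ ∑ z ∈ Ys, cz n (U z) :=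
      sum_le_sum_of_subset_of_nonneg (filter_subset _ _) fun _ _ _ => cz_nonneg _ _
    have h5 := pred_card_le_card_erase (s := YZ) (a := z0)
    split_ifs at h1 h1' <;> omega
  have hZF := hZc.mono (subset_ins _ _ _)
  obtain ⟨E, hE, hEZ, a1, a2, a3, a4⟩ : ∃ E, Clo (supp φ) (free Ys U) E ∧ E ⊆ Z ∧ e1 ∈ E ∧ e2 ∈ E ∧
      col y1 ∉ E ∧ col y2 ∉ E := by
    rcases hγ2 with ⟨a1, a2, a3, a4⟩ | ⟨a1, a2, a3, a4⟩
    · exact ⟨Z ∩ W0, hZF.inter hW0.1, inter_subset_left, by simp [he1, hc1, a1],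
        by simp [he2, hc1, a2], by simp [a3], by simp [a4]⟩
    · exact ⟨Z \ W0, hZF.sdiff hW0.1, sdiff_subset, by simp [he1, hc1, a1],
        by simp [he2, hc1, a2], by simp [a3], by simp [a4]⟩
  have hC := hZF.sdiff hE.1
  have hOn : On (supp φ) n := fun e he => by
    have := hn e
    rw [on_supp φ e he, mul_zero] at this
    exact_mod_cast this.symm
  have b1 := hS.a1 z0 hS.hz hS.n2
  have b2 := hS.a2 z0 hS.hz hS.n1
  have hc2' : col y2 ∈ Z := hc2.2 hc1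
  have hsum : cz n (E ∩ U z0) + cz n ((Z \ E) ∩ U z0) ≤ cz n (U z0) := by
    unfold cz
    rw [← sum_add_distrib]
    refine sum_le_sum fun e _ => ?_
    by_cases he : e ∈ supp φ
    · rw [← mul_add]
      refine mul_le_mul_of_nonneg_left ?_ (abs_nonneg _)
      have h1 := hE.1 e he
      have h2 := hZF.1 e he
      by_cases c1 : e.2 ∈ E <;> by_cases c2 : e.2 ∈ Z <;> simp [io, h1, h2, c1, c2]
    · simp [hOn e he]
  have o1 := hout (E ∩ U z0) fun v hv => hE.2 v (mem_inter.1 hv).1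
  have o2 := hout ((Z \ E) ∩ U z0) fun v hv => hC.2 v (mem_inter.1 hv).1
  have o3 : out n ((Z \ E) ∩ U z0) + out n ((Z \ E) \ U z0) = 0 := by
    rw [← out_union n (disjoint_sdiff_inter _ _).symm, union_comm, sdiff_union_inter]
    exact out_unc hOn hC.1
  have l1 := abs_le.1 (abs_out_le n (E ∩ U z0))
  have l2 := abs_le.1 (abs_out_le n ((Z \ E) ∩ U z0))
  have fin : ∀ D : Finset V, D ⊆ Z \ E → ¬ (col y1 ∈ D ↔ col y2 ∈ D) →
      out n (E ∩ U z0) + out n D = 0 → False := fun D hD h1 h2 => by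
    have hdis : Disjoint (E ∩ U z0) D :=
      disjoint_left.2 fun v h3 h4 => (mem_sdiff.1 (hD h4)).2 (mem_inter.1 h3).1
    have d1 : e1 ∉ D := fun h => (mem_sdiff.1 (hD h)).2 a1
    have d2 : e2 ∉ D := fun h => (mem_sdiff.1 (hD h)).2 a2
    have hsub : E ∩ U z0 ∪ D ⊆ Z := union_subset (inter_subset_left.trans hEZ)
      (hD.trans sdiff_subset)
    have h3 := hout (E ∩ U z0 ∪ D) fun v hv => hZc.2 v (hsub hv)
    have h4 : io (E ∩ U z0 ∪ D) (e1, col y1) + io (E ∩ U z0 ∪ D) (e2, col y2) = 0 := by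
      have := hS.tw
      revert this h1
      by_cases c1 : col y1 ∈ U z0 <;> by_cases c2 : col y2 ∈ U z0 <;> by_cases c3 : col y1 ∈ D <;>
        by_cases c4 : col y2 ∈ D <;> simp [io, a1, a2, a3, a4, b1, b2, d1, d2, c1, c2, c3, c4]
    rw [out_union n hdis, h2, h4] at h3
    have h5 : 0 < bet Ys col (E ∩ U z0 ∪ D) ∧ bet Ys col (E ∩ U z0 ∪ D) < bet Ys col Z := by
      by_cases c3 : col y1 ∈ D
      · exact ⟨bet_pos hS.h1 (mem_union_right _ c3), bet_lt hsub hS.h2 hc2' (by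
          simp only [mem_union, mem_inter, a4, false_and, false_or]
          exact fun h => h1 ⟨fun _ => h, fun _ => c3⟩)⟩
      · have c4 : col y2 ∈ D :=
          by_contra fun h => h1 ⟨fun h' => absurd h' c3, fun h' => absurd h' h⟩
        exact ⟨bet_pos hS.h2 (mem_union_right _ c4), bet_lt hsub hS.h1 hc1 (by simp [a3, c3])⟩
    have h6 := hmm _ h5.1 ⟨al α (E ∩ U z0 ∪ D), by
      have h7 : (m : ℤ) * al α (E ∩ U z0 ∪ D) = p * bet Ys col (E ∩ U z0 ∪ D) := by linarith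
      have h8 : (m : ℝ) * al α (E ∩ U z0 ∪ D) = p * bet Ys col (E ∩ U z0 ∪ D) := by
        exact_mod_cast h7
      have h9 : (m : ℝ) ≠ 0 := by exact_mod_cast hm0.ne'
      refine mul_left_cancel₀ h9 ?_
      rw [h8, ← hp]
      ring⟩
    omega
  have g1 : io (E ∩ U z0) (e1, col y1) + io (E ∩ U z0) (e2, col y2) = 1 := by
    have := hS.tw
    revert this
    by_cases c1 : col y1 ∈ U z0 <;> by_cases c2 : col y2 ∈ U z0 <;>
      simp [io, a1, a2, a3, a4, b1, b2, c1, c2]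
  have g2 : io ((Z \ E) ∩ U z0) (e1, col y1) + io ((Z \ E) ∩ U z0) (e2, col y2) = -1 := by
    have := hS.tw
    revert this
    by_cases c1 : col y1 ∈ U z0 <;> by_cases c2 : col y2 ∈ U z0 <;>
      simp [io, a1, a2, a3, a4, hc1, hc2', c1, c2]
  rw [g1] at o1
  rw [g2] at o2
  have h0 := Int.even_iff.1 (even_cz n (U z0))
  rw [hout _ (not_free_U hS.hz), hS.io1 hS.hz hS.n2, hS.io2 hS.hz hS.n1] at h0
  by_cases hz : out n (E ∩ U z0) + out n ((Z \ E) ∩ U z0) = 0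
  · exact fin _ inter_subset_left (by simpa [hc1, hc2', a3, a4] using hS.tw) hz
  · refine fin ((Z \ E) \ U z0) sdiff_subset ?_ (by omega)
    simp only [mem_sdiff, hc1, hc2', a3, a4, not_false_eq_true, and_self, true_and]
    exact fun h => hS.tw (not_iff_not.1 h)

end Pool.Agent.Lib.MP_ee21b2_co
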