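import Pool.Agent.Lib.MP_ee21b2_co.Plus

set_option autoImplicit false
set_option linter.unusedSectionVars false

namespace Pool.Agent.Lib.MP_ee21b2_co

open Finset

variable {X Y : Type} [Fintype X] [DecidableEq X] [Fintype Y] [DecidableEq Y]

/-- Mass of column `y` in the rows whose label contains `z`. -/
def BB (M : X → Y → ℝ) (Z : X → Finset Y) (z y : Y) : ℝ := ∑ x, if z ∈ Z x then M x y else 0

def slack (M : X → Y → ℝ) (Z : X → Finset Y) : ℝ := ∑ x, ((Z x).card : ℝ) * (1 - ∑ y, M x y)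

def dv (M : X → Y → ℝ) (Z : X → Finset Y) (θ : ℝ) (g : Y → Y → Prop) [DecidableRel g] (z y : Y) :
    ℝ := if g z y then θ - BB M Z z y else BB M Z z y

theorem dv_eq (M : X → Y → ℝ) (Z : X → Finset Y) (θ : ℝ) (g : Y → Y → Prop) [DecidableRel g]
    (z y : Y) : dv M Z θ g z y = (∑ x, if (z ∈ Z x ↔ g z y) then 0 else M x y)
      + if g z y then θ - ∑ x, M x y else 0 := by
  unfold dv BB
  by_cases h : g z y
  · have : ∑ x, M x y = ∑ x, (if z ∈ Z x then M x y else 0) + ∑ x, if z ∈ Z x then 0 else M x y := by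
      rw [← sum_add_distrib]
      exact sum_congr rfl fun x _ => by split_ifs <;> simp
    simp only [h, iff_true, if_true]
    linarith
  · simp [h]

abbrev Nd (X Y : Type) : Type := X ⊕ Y ⊕ Fin 3

def lab (Z : X → Finset Y) (g : Y → Y → Prop) (E : Fin 3 → Y → Prop) : Nd X Y → Y → Prop
  | Sum.inl x, z => z ∈ Z x
  | Sum.inr (Sum.inl y), z => g z y
  | Sum.inr (Sum.inr i), z => E i z

open Classical in
noncomputable def UU (Z : X → Finset Y) (g : Y → Y → Prop) (E : Fin 3 → Y → Prop) (z : Y) :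
    Finset (Nd X Y) := univ.filter (fun v => lab Z g E v z)

def cl (X : Type) (y : Y) : Nd X Y := Sum.inr (Sum.inl y)

def nd (X Y : Type) (i : Fin 3) : Nd X Y := Sum.inr (Sum.inr i)

def aa (X Y : Type) : Nd X Y → ℤ
  | Sum.inl _ => 1
  | Sum.inr _ => 0

variable {M : X → Y → ℝ} {Z : X → Finset Y} {θ : ℝ} {g : Y → Y → Prop} {E : Fin 3 → Y → Prop}

theorem mem_UU {v : Nd X Y} {z : Y} : v ∈ UU Z g E z ↔ lab Z g E v z := by
  classical
  unfold UU
  simp only [mem_filter, mem_univ, true_and]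

theorem row_mem {x : X} {z : Y} : Sum.inl x ∈ UU Z g E z ↔ z ∈ Z x := mem_UU
theorem cl_mem {y z : Y} : cl X y ∈ UU Z g E z ↔ g z y := mem_UU
theorem nd_mem {i : Fin 3} {z : Y} : nd X Y i ∈ UU Z g E z ↔ E i z := mem_UU

theorem al_aa (W : Finset (Nd X Y)) :
    al (aa X Y) W = ∑ x, if Sum.inl x ∈ W then 1 else 0 := by
  have : al (aa X Y) W = ∑ v, if v ∈ W then aa X Y v else 0 := by simp [al]
  rw [this, Fintype.sum_sum_type]
  simp [aa]

theorem tt_aa : tt univ (UU Z g E) (aa X Y) = ((∑ x, (Z x).card : ℕ) : ℤ) := by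
  unfold tt
  simp only [al_aa, row_mem]
  rw [sum_comm]
  simp

theorem good_UU (hs : ∀ y z, g y z → g z y) (hl : ∀ y, ¬ g y y) : Good univ (UU Z g E) (cl X) :=
  ⟨fun _ _ _ _ h => cl_mem.2 (hs _ _ (cl_mem.1 h)), fun y _ h => hl y (cl_mem.1 h)⟩

theorem flow_props (hM : ∀ x y, 0 ≤ M x y) (hR : ∀ x, ∑ y, M x y ≤ 1) (hC : ∀ y, ∑ x, M x y ≤ θ)
    (tg : X → Y → Nd X Y) (tg0 : Y → Nd X Y) : ∃ φ : Nd X Y × Nd X Y → ℝ,
      (∀ W, out φ W = ∑ x, ∑ y, M x y * io W (Sum.inl x, tg x y)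
        + ∑ x, (1 - ∑ y, M x y) * io W (Sum.inl x, nd X Y 0)
        + ∑ y, (θ - ∑ x, M x y) * io W (nd X Y 0, tg0 y)) ∧
      ∀ W, cz φ W ≤ ∑ x, ∑ y, M x y * (|io W (Sum.inl x, tg x y)| : ℤ)
        + ∑ x, (1 - ∑ y, M x y) * (|io W (Sum.inl x, nd X Y 0)| : ℤ)
        + ∑ y, (θ - ∑ x, M x y) * (|io W (nd X Y 0, tg0 y)| : ℤ) := by
  refine ⟨fun e => (∑ x, ∑ y, if e = (Sum.inl x, tg x y) then M x y else 0)
    + (∑ x, if e = (Sum.inl x, nd X Y 0) then 1 - ∑ y, M x y else 0)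
    + ∑ y, if e = (nd X Y 0, tg0 y) then θ - ∑ x, M x y else 0, fun W => ?_, fun W => ?_⟩
  · rw [out_add, out_add, out_sum, out_sum, out_sum]
    simp only [out_sum, out_single]
  · refine (cz_add_le _ _ _).trans (add_le_add ((cz_add_le _ _ _).trans (add_le_add ?_ ?_)) ?_)
    · refine (cz_sum_le _ _ _).trans (sum_le_sum fun x _ => ?_)
      refine (cz_sum_le _ _ _).trans (sum_le_sum fun y _ => ?_)
      rw [cz_single, abs_of_nonneg (hM x y)]
    · refine (cz_sum_le _ _ _).trans (sum_le_sum fun x _ => ?_)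
      rw [cz_single, abs_of_nonneg (sub_nonneg.2 (hR x))]
    · refine (cz_sum_le _ _ _).trans (sum_le_sum fun y _ => ?_)
      rw [cz_single, abs_of_nonneg (sub_nonneg.2 (hC y))]

theorem base_out {W : Finset (Nd X Y)} (ho : nd X Y 0 ∉ W) :
    ∑ x, ∑ y, M x y * io W (Sum.inl x, cl X y)
      + ∑ x, (1 - ∑ y, M x y) * io W (Sum.inl x, nd X Y 0)
      + ∑ y, (θ - ∑ x, M x y) * io W (nd X Y 0, cl X y)
      = al (aa X Y) W - θ * bet univ (cl X) W := by
  have h1 : (bet univ (cl X) W : ℝ) = ∑ y, if cl X y ∈ W then 1 else 0 := by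
    exact_mod_cast bet_eq (Ys := univ) (col := cl X) W
  rw [h1, al_aa]
  simp only [io, ho, if_false]
  push_cast
  have h2 : ∑ x, ∑ y, M x y * ((if Sum.inl x ∈ W then (1 : ℝ) else 0)
      - if cl X y ∈ W then 1 else 0) = ∑ x, (∑ y, M x y) * (if Sum.inl x ∈ W then (1 : ℝ) else 0)
      - ∑ y, (∑ x, M x y) * (if cl X y ∈ W then (1 : ℝ) else 0) := by
    simp only [mul_sub, sum_sub_distrib, sum_mul]
    rw [sum_comm (s := univ) (t := univ) (f := fun y x => M x y * if cl X y ∈ W then 1 else 0)]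
  rw [h2, mul_sum]
  simp only [sub_zero, zero_sub, mul_neg, sub_mul, one_mul, sum_sub_distrib, sum_neg_distrib]
  ring

theorem slack_eq (hE : ∀ z, ¬ E 0 z) : ∑ z, ∑ x, (1 - ∑ y, M x y) *
    (|io (UU Z g E z) (Sum.inl x, nd X Y 0)| : ℤ) = slack M Z := by
  rw [sum_comm]
  refine sum_congr rfl fun x _ => ?_
  rw [← mul_sum, mul_comm]
  congr 1
  have : ∀ z, ((|io (UU Z g E z) (Sum.inl x, nd X Y 0)| : ℤ) : ℝ) = if z ∈ Z x then 1 else 0 :=
    fun z => by by_cases h : z ∈ Z x <;> simp [io, row_mem, nd_mem, hE, h]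
  simp [this]

theorem matB [DecidableRel g] (hM : ∀ x y, 0 ≤ M x y) (hR : ∀ x, ∑ y, M x y ≤ 1)
    (hC : ∀ y, ∑ x, M x y ≤ θ) (hs : ∀ y z, g y z → g z y) (hl : ∀ y, ¬ g y y)
    (ht : Odd (∑ x, (Z x).card)) : 1 ≤ slack M Z + ∑ z, ∑ y, dv M Z θ g z y := by
  obtain ⟨φ, h1, h2⟩ := flow_props hM hR hC (fun _ y => cl X y) (cl X)
  have := thmB univ (UU Z g fun _ _ => False) (cl X) (aa X Y) (good_UU hs hl)
    (by rw [tt_aa]; exact_mod_cast ht) θ φ fun W hW => by
      rw [h1, base_out fun h => hW _ h fun z _ h' => nd_mem.1 h']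
  refine this.trans ((sum_le_sum fun z _ => h2 _).trans (le_of_eq ?_))
  rw [sum_add_distrib, sum_add_distrib, slack_eq (fun _ => not_false), add_comm _ (slack M Z),
    add_assoc, ← sum_add_distrib]
  congr 1
  refine sum_congr rfl fun z _ => ?_
  rw [sum_comm, ← sum_add_distrib]
  refine sum_congr rfl fun y _ => ?_
  rw [dv_eq]
  congr 1
  · refine sum_congr rfl fun x _ => ?_
    by_cases a1 : z ∈ Z x <;> by_cases a2 : g z y <;> simp [io, row_mem, cl_mem, a1, a2]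
  · by_cases a2 : g z y <;> simp [io, nd_mem, cl_mem, a2]

theorem not_iff_aux' {A B : Prop} (h : ¬ (A ↔ B)) : ¬ B ↔ A := by tauto

theorem matPlus [DecidableRel g] (hM : ∀ x y, 0 ≤ M x y) (hR : ∀ x, ∑ y, M x y ≤ 1)
    (hC : ∀ y, ∑ x, M x y ≤ θ) (hs : ∀ y z, g y z → g z y) (hl : ∀ y, ¬ g y y)
    (ht : Odd (∑ x, (Z x).card)) {y1 y2 z0 : Y} (hne : y1 ≠ y2) (n1 : z0 ≠ y1) (n2 : z0 ≠ y2)
    (tw : ¬ (g z0 y1 ↔ g z0 y2)) :
    1 ≤ slack M Z + (∑ z, ∑ y, if (z = y2 ∧ y = y1) ∨ (z = y1 ∧ y = y2) then 0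
      else dv M Z θ g z y) + |dv M Z θ g y2 y1 - dv M Z θ g y1 y2| := by
  let E : Fin 3 → Y → Prop := fun i z =>
    if i = 1 then ¬ (g z y1 ↔ z = y2) else if i = 2 then ¬ (g z y2 ↔ z = y1) else False
  have E0 : ∀ z, ¬ E 0 z := fun z => by simp [E]
  have E1 : ∀ z, E 1 z ↔ ¬ (g z y1 ↔ z = y2) := fun z => by simp [E]
  have E2 : ∀ z, E 2 z ↔ ¬ (g z y2 ↔ z = y1) := fun z => by simp [E]
  let tg : Finset Y → Y → Nd X Y := fun S y =>
    if y = y1 ∧ ¬ (y2 ∈ S ↔ g y2 y1) then nd X Y 1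
    else if y = y2 ∧ ¬ (y1 ∈ S ↔ g y1 y2) then nd X Y 2 else cl X y
  have hio : ∀ (W : Finset (Nd X Y)) (v : Nd X Y) (S : Finset Y) (y : Y),
      (io W (v, tg S y) : ℝ) = io W (v, cl X y)
        - (if y = y1 then (if (y2 ∈ S ↔ g y2 y1) then 0 else 1) else 0) * io W (nd X Y 1, cl X y1)
        - (if y = y2 then (if (y1 ∈ S ↔ g y1 y2) then 0 else 1) else 0)
          * io W (nd X Y 2, cl X y2) := by
    intro W v S y
    simp only [tg]
    by_cases a1 : y = y1
    · by_cases a2 : (y2 ∈ S ↔ g y2 y1) <;> simp [a1, a2, hne, io]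
    · by_cases a3 : y = y2
      · by_cases a2 : (y1 ∈ S ↔ g y1 y2) <;> simp [a3, a2, hne.symm, io]
      · simp [a1, a3]
  have habs : ∀ (z : Y) (v : Nd X Y) (S : Finset Y) (y : Y), (v ∈ UU Z g E z ↔ z ∈ S) →
      ((|io (UU Z g E z) (v, tg S y)| : ℤ) : ℝ) = if (z = y2 ∧ y = y1) ∨ (z = y1 ∧ y = y2) then 0
        else if (z ∈ S ↔ g z y) then 0 else 1 := by
    intro z v S y hv
    have key : (tg S y ∈ UU Z g E z ↔ z ∈ S) ↔
        ((z = y2 ∧ y = y1) ∨ (z = y1 ∧ y = y2)) ∨ (z ∈ S ↔ g z y) := by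
      simp only [tg]
      split_ifs with a1 a2
      · rw [nd_mem, E1, a1.1]
        by_cases b : z = y2
        · have := a1.2
          simp only [b, hne, and_false, or_false, true_or, iff_true, and_self]
          exact not_iff_aux' this
        · simp only [b, hne, iff_false, not_not, false_and, and_false, false_or]
          exact iff_comm
      · rw [nd_mem, E2, a2.1]
        by_cases b : z = y1
        · have := a2.2
          simp only [b, hne, false_and, or_true, true_or, iff_true, and_self]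
          exact not_iff_aux' this
        · simp only [b, hne.symm, iff_false, not_not, false_and, and_false, false_or]
          exact iff_comm
      · rw [cl_mem]
        constructor
        · exact fun h => Or.inr h.symm
        · rintro ((⟨b1, b2⟩ | ⟨b1, b2⟩) | h)
          · rw [b1, b2]; exact (not_not.1 fun h => a1 ⟨b2, h⟩).symm
          · rw [b1, b2]; exact (not_not.1 fun h => a2 ⟨b2, h⟩).symm
          · exact h.symm
    by_cases h : tg S y ∈ UU Z g E z ↔ z ∈ S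
    · rw [io_eq_zero.2 (hv.trans h.symm)]
      rcases key.1 h with h' | h' <;> simp [h']
    · rw [abs_io_of_ne fun h' => h ((io_eq_zero.1 h').symm.trans hv),
        if_neg fun h' => h (key.2 (Or.inl h')), if_neg fun h' => h (key.2 (Or.inr h'))]
      simp
  obtain ⟨φ, h1, h2⟩ := flow_props hM hR hC (fun x y => tg (Z x) y) (tg ∅)
  have hS : Sp univ (UU Z g E) (cl X) y1 y2 (nd X Y 1) (nd X Y 2) z0 := by
    refine ⟨good_UU hs hl, mem_univ _, mem_univ _, hne, fun z _ h => ?_, ?_, fun z _ h => ?_, ?_,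
      mem_univ _, n1, n2, ?_⟩
    · simp [nd_mem, cl_mem, E1, h]
    · simp [nd_mem, cl_mem, E1]
    · simp [nd_mem, cl_mem, E2, h]
    · simp [nd_mem, cl_mem, E2]
    · simpa [cl_mem] using tw
  have := thmPlus univ (UU Z g E) (cl X) (aa X Y) y1 y2 (nd X Y 1) (nd X Y 2) z0 (nd X Y 0) hS
    (fun z _ h => E0 z (nd_mem.1 h)) (by rw [tt_aa]; exact_mod_cast ht) θ (dv M Z θ g y2 y1)
    (dv M Z θ g y1 y2) φ fun W hW => by
      rw [out_ext, h1, ← base_out (M := M) fun h => hW _ h fun z _ h' => E0 z (nd_mem.1 h'),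
        dv_eq, dv_eq]
      simp only [hio, mul_sub, sum_sub_distrib, ← mul_assoc, ← sum_mul, mul_ite, mul_zero, mul_one,
        sum_ite_eq', mem_univ, if_true, notMem_empty, false_iff, ite_not]
      ring
  refine this.trans (add_le_add ((sum_le_sum fun z _ => h2 _).trans (le_of_eq ?_)) le_rfl)
  rw [sum_add_distrib, sum_add_distrib, slack_eq E0, add_comm _ (slack M Z),
    add_assoc, ← sum_add_distrib]
  congr 1
  refine sum_congr rfl fun z _ => ?_
  rw [sum_comm, ← sum_add_distrib]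
  refine sum_congr rfl fun y _ => ?_
  rw [dv_eq, habs z _ ∅ y (by simp [nd_mem, E0]),
    sum_congr rfl fun x _ => by rw [habs z _ (Z x) y row_mem]]
  split_ifs <;> simp_all

end Pool.Agent.Lib.MP_ee21b2_co
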