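import Pool.Agent.Lib.MP_ee21b2_co.Slope

set_option autoImplicit false
set_option linter.unusedSectionVars false

namespace Pool.Agent.Lib.MP_ee21b2_co

open Finset

variable {V Y : Type} [Fintype V] [DecidableEq V] [DecidableEq Y]
variable {Ys : Finset Y} {U : Y → Finset V} {col : Y → V} {α : V → ℤ} {y1 y2 z0 : Y} {e1 e2 o : V}

/-- Remove the flow on the two special pairs. -/
def cutf {R : Type} [Zero R] (χ : V × V → R) (l1 l2 : V × V) : V × V → R :=
  fun e => if e = l1 ∨ e = l2 then 0 else χ e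

theorem out_cutf {R : Type} [CommRing R] (χ : V × V → R) {l1 l2 : V × V} (h : l1 ≠ l2)
    (W : Finset V) : out χ W = out (cutf χ l1 l2) W + χ l1 * io W l1 + χ l2 * io W l2 := by
  rw [← out_single, ← out_single, ← out_add, ← out_add]
  congr 1
  funext e
  unfold cutf
  by_cases h1 : e = l1
  · simp [h1, h]
  · by_cases h2 : e = l2
    · simp [h2, h.symm]
    · simp [h1, h2]

theorem on_cutf {R : Type} [Zero R] {χ : V × V → R} {F : Finset (V × V)} {l1 l2 : V × V}
    (h : On (ins F l1 l2) χ) : On F (cutf χ l1 l2) := fun e he => by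
  unfold cutf
  split_ifs with h'
  · rfl
  · exact h e (by rw [mem_ins]; tauto)

theorem Feas.out_int {θ x1 x2 : ℝ} {φ : V × V → ℝ} {l1 l2 : V × V}
    (hF : Feas Ys U col α θ (ext φ l1 l2 x1 x2)) {M p q1 q2 : ℤ} (hp : θ * M = p)
    (h1 : x1 * M = q1) (h2 : x2 * M = q2) {n : V × V → ℤ} (hn : ∀ e, M * φ e = n e)
    {W : Finset V} (hW : ∀ v ∈ W, ¬ free Ys U v) :
    out n W = M * al α W - p * bet Ys col W - q1 * io W l1 - q2 * io W l2 := by
  have h3 := hF W hW
  rw [out_ext] at h3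
  have : ((out n W : ℤ) : ℝ) = M * al α W - p * bet Ys col W - q1 * io W l1 - q2 * io W l2 := by
    rw [out_scale hn, ← hp, ← h1, ← h2]
    linear_combination (M : ℝ) * h3
  exact_mod_cast this

/-- The nested configuration is impossible. -/
theorem nest (hS : Sp Ys U col y1 y2 e1 e2 z0) (ho : free Ys U o) (ht : Odd (tt Ys U α))
    (ih : Low V Ys) (hiso : ∀ z ∈ Ys, z ≠ y1 → z ≠ y2 → ¬ free Ys U (col z)) {θ x : ℝ}
    {φ : V × V → ℝ} (hF : Feas Ys U col α θ (ext φ (e1, col y1) (e2, col y2) x x))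
    (hc : cost Ys U φ < 1) (hfor : Forest (supp φ) (free Ys U))
    (hz : ∀ W, Clo (ins (supp φ) (e1, col y1) (e2, col y2)) (free Ys U) W → bet Ys col W = 0)
    (hmin : ∀ (θ' x1 x2 : ℝ) (φ' : V × V → ℝ),
      Feas Ys U col α θ' (ext φ' (e1, col y1) (e2, col y2) x1 x2) → supp φ' ⊂ supp φ →
        1 ≤ cost Ys U φ' + |x1 - x2|)
    {K1 K2 : Finset V} (hK1 : Clo (supp φ) (free Ys U) K1) (hK2 : Clo (supp φ) (free Ys U) K2)
    (k1 : e1 ∈ K1) (k2 : e2 ∈ K1) (k3 : col y1 ∉ K1) (k4 : col y2 ∉ K1) (k5 : col y1 ∈ K2)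
    (k6 : e1 ∉ K2) (k7 : e2 ∉ K2) (k8 : col y2 ∉ K2) : False := by
  have bad : ¬ Plus Ys U col α y1 y2 e1 e2 := fun h => by
    have := h θ x x φ hF
    simp only [sub_self, abs_zero, add_zero] at this
    linarith
  set l1 : V × V := (e1, col y1) with hl1
  set l2 : V × V := (e2, col y2) with hl2
  have hl : l1 ≠ l2 := hS.l_ne
  have n1 : l1 ∉ supp φ := fun h => k3 ((hK1.1 _ h).1 k1)
  have n2 : l2 ∉ supp φ := fun h => k4 ((hK1.1 _ h).1 k2)
  have i11 : io K1 l1 = 1 := by simp [io, hl1, k1, k3]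
  have i12 : io K1 l2 = 1 := by simp [io, hl2, k2, k4]
  have i21 : io K2 l1 = -1 := by simp [io, hl1, k5, k6]
  have i22 : io K2 l2 = 0 := by simp [io, hl2, k7, k8]
  have hfp : Forest (ins (supp φ) l1 l2) (free Ys U) := by
    intro χ h1 h2 e
    have h3 : ∀ W, Clo (supp φ) (free Ys U) W → χ l1 * io W l1 + χ l2 * io W l2 = 0 :=
      fun W hW => by
        have h4 := out_of_div (r := fun _ => 0) h2 hW.2
        rw [out_cutf χ hl, out_unc (on_cutf h1) hW.1] at h4
        simpa using h4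
    have h4 := h3 K2 hK2
    have h5 := h3 K1 hK1
    rw [i21, i22] at h4
    rw [i11, i12] at h5
    have h6 : χ l1 = 0 := by simpa using h4
    have h7 : χ l2 = 0 := by simpa [h6] using h5
    refine hfor χ (fun e he => ?_) h2 e
    by_cases h8 : e = l1
    · rw [h8, h6]
    by_cases h9 : e = l2
    · rw [h9, h7]
    exact h1 e (by rw [mem_ins]; tauto)
  obtain ⟨b, hb, hb'⟩ := solve (ins (supp φ) l1 l2) (free Ys U) (fun v => bet Ys col {v})
    fun W hW => by rw [← bet_eq_sum, hz W hW]; simp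
  obtain ⟨a, ha, ha'⟩ := solve (ins (supp φ) l1 l2) (free Ys U) α fun W hW => by
    have := hF.clo_ins hW
    rw [hz W hW] at this
    exact_mod_cast (by simpa using this : (al α W : ℝ) = 0)
  have hψ : ∀ e, ext φ l1 l2 x x e = a e - θ * b e := hfp.unique
    (fun e he => by
      rw [mem_ins] at he
      push Not at he
      simp [ext, he.1, he.2.1, on_supp φ e he.2.2])
    (fun e he => by simp [ha e he, hb e he]) fun v hv => by
      rw [hF.node v hv, out_sub, out_mul, out_cast, out_cast, ha' v hv, hb' v hv]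
      simp
  have φ1 : φ l1 = 0 := on_supp _ _ n1
  have φ2 : φ l2 = 0 := on_supp _ _ n2
  have x1 : x = a l1 - θ * b l1 := by simpa [ext, φ1, hl] using hψ l1
  have x2 : x = a l2 - θ * b l2 := by simpa [ext, φ2, hl.symm] using hψ l2
  set a0 := cutf a l1 l2 with ha0
  set b0 := cutf b l1 l2 with hb0
  have hφ : ∀ e, φ e = a0 e - θ * b0 e := fun e => by
    by_cases h1 : e = l1
    · simp [h1, φ1, ha0, hb0, cutf]
    by_cases h2 : e = l2
    · simp [h2, φ2, ha0, hb0, cutf]
    simpa [ext, h1, h2, ha0, hb0, cutf] using hψ e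
  have hbW : ∀ W, Clo (supp φ) (free Ys U) W →
      b l1 * io W l1 + b l2 * io W l2 = bet Ys col W := fun W hW => by
    have h4 := out_of_div hb' hW.2
    rw [out_cutf b hl, out_unc (on_cutf hb) hW.1, ← bet_eq_sum] at h4
    simpa using h4
  have hb1 := hbW K2 hK2
  have hb2 := hbW (K1 ∪ K2) (hK1.union hK2)
  rw [i21, i22] at hb1
  rw [show io (K1 ∪ K2) l1 = 0 by simp [io, hl1, k1, k5],
    show io (K1 ∪ K2) l2 = 1 by simp [io, hl2, k2, k4, k8]] at hb2
  have q1 : 0 < bet Ys col K2 := bet_pos hS.h1 k5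
  have q2 : bet Ys col K2 ≤ bet Ys col (K1 ∪ K2) := bet_mono subset_union_right
  have q3 : bet Ys col (K1 ∪ K2) < Ys.card := bet_lt_card hS.h2 (by simp [k4, k8])
  set L : ℤ := ∑ e, len Ys U e * (sg (φ e) * b0 e) with hL
  obtain ⟨s, hs, hsL⟩ : ∃ s : ℤ, (s = 1 ∨ s = -1) ∧ 0 ≤ s * L := by
    rcases le_total 0 L with h | h
    · exact ⟨1, Or.inl rfl, by linarith⟩
    · exact ⟨-1, Or.inr rfl, by linarith⟩
  have hss : s * s = 1 := by rcases hs with h | h <;> rw [h] <;> rfl
  have hssR : (s : ℝ) * s = 1 := by exact_mod_cast hss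
  let σ : V × V → ℤ := fun e => if e = l1 then s else if e = l2 then - s else sg (φ e)
  have σ1 : σ l1 = s := by simp [σ]
  have σ2 : σ l2 = - s := by simp [σ, hl.symm]
  have σ3 : ∀ e ∈ supp φ, σ e = sg (φ e) := fun e he => by
    have h1 : e ≠ l1 := fun h => n1 (h ▸ he)
    have h2 : e ≠ l2 := fun h => n2 (h ▸ he)
    simp [σ, h1, h2]
  have hσ : ∀ e, σ e = 1 ∨ σ e = -1 := fun e => by
    simp only [σ]
    split_ifs
    · exact hs
    · rcases hs with h | h <;> simp [h]
    · exact sg_cases _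
  have hlinc : ∀ χ : V × V → ℤ, lin Ys U σ χ
      = ∑ e, len Ys U e * (sg (φ e) * cutf χ l1 l2 e) + s * (χ l1 - χ l2) := fun χ => by
    have h1 : s * (χ l1 - χ l2) = ∑ e, ((if e = l1 then len Ys U e * (s * χ e) else 0)
        + if e = l2 then len Ys U e * (- s * χ e) else 0) := by
      rw [sum_add_distrib]
      simp only [sum_ite_eq', mem_univ, if_true, hl1, hl2, hS.len1, hS.len2]
      ring
    rw [lin_eq, h1, ← sum_add_distrib]
    refine sum_congr rfl fun e _ => ?_
    by_cases h2 : e = l1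
    · simp [h2, σ1, cutf, hl]
    by_cases h3 : e = l2
    · simp [h3, σ2, cutf, hl.symm]
    simp [h2, h3, cutf, σ]
  have hpar : ∀ (χ : V × V → ℤ) (r : V → ℤ), (∀ v, ¬ free Ys U v → out χ {v} = r v) →
      Even (lin Ys U σ χ - ∑ z ∈ Ys, ∑ v ∈ U z, r v) := fun χ r h => by
    unfold lin
    rw [← sum_sub_distrib]
    refine even_sum _ fun z hz => ?_
    rw [← out_of_div h (not_free_U hz)]
    exact even_xz σ χ hσ _
  obtain ⟨A, hA⟩ : Odd (lin Ys U σ a) := by
    obtain ⟨u, hu⟩ := hpar a α ha'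
    obtain ⟨v, hv⟩ := ht
    exact ⟨u + v, by unfold tt al at hv; linarith⟩
  obtain ⟨B, hB⟩ : Even (lin Ys U σ b) := by
    obtain ⟨u, hu⟩ := hpar b _ hb'
    obtain ⟨v, hv⟩ := even_sum_bet hS.good
    simp only [← bet_eq_sum] at hu
    exact ⟨u + v, by linarith⟩
  have hcost : cost Ys U φ = (2 * A + 1) - θ * (B + B) := by
    have h1 : ((lin Ys U σ a : ℤ) : ℝ) = 2 * A + 1 := by exact_mod_cast hA
    have h2 : ((lin Ys U σ b : ℤ) : ℝ) = B + B := by exact_mod_cast hB
    rw [← h1, ← h2, hlinc, hlinc, cost_eq]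
    push_cast
    rw [mul_add, mul_sum]
    have h3 : ∑ e, (len Ys U e : ℝ) * |φ e| = ∑ e, (len Ys U e : ℝ) * (sg (φ e) * a0 e)
        - ∑ e, θ * ((len Ys U e : ℝ) * (sg (φ e) * b0 e)) := by
      rw [← sum_sub_distrib]
      refine sum_congr rfl fun e _ => ?_
      rw [abs_eq_sg (f := φ e) (x := φ e) (mul_self_nonneg _) id]
      linear_combination (len Ys U e : ℝ) * (sg (φ e)) * hφ e
    rw [h3]
    linear_combination (- s : ℝ) * (x2 - x1)
  set M : ℤ := b l2 - b l1 with hM
  have hM0 : 0 < M := by omega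
  have hMR : (0 : ℝ) < M := by exact_mod_cast hM0
  have hBL : B + B = L - s * M := by rw [← hB, hlinc, hM]; ring
  let g : V × V → ℝ := fun e => - s * (b0 e : ℝ)
  have hg : ∀ e, φ e = 0 → g e = 0 := fun e he => by
    simp [g, hb0, on_cutf hb e (by simp [mem_supp, he])]
  have hgl : ∑ e, (len Ys U e : ℝ) * (sg (φ e) * g e) = - s * L := by
    rw [hL]
    push_cast
    rw [mul_sum]
    exact sum_congr rfl fun e _ => by simp only [g]; ring
  have hfeas : ∀ τ : ℝ, Feas Ys U col α (θ + s * τ)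
      (ext (fun e => φ e + τ * g e) l1 l2 (x - τ * s * b l1) (x - τ * s * b l2)) := fun τ =>
    feas_of_nodes fun v hv => by
      have h1 := hF.node v hv
      have h2 : ((out b {v} : ℤ) : ℝ) = bet Ys col {v} := by exact_mod_cast hb' v hv
      rw [out_cutf b hl] at h2
      rw [out_ext] at h1
      rw [out_ext, out_add, out_mul]
      simp only [g]
      rw [out_mul, out_cast]
      push_cast at h2
      linear_combination h1 - τ * s * h2
  have hwτ : ∀ τ : ℝ, (x - τ * s * b l1) - (x - τ * s * b l2) = s * (τ * M) := fun τ => by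
    rw [hM]; push_cast; ring
  have habs : |(s : ℝ)| = 1 := by rcases hs with h | h <;> simp [h]
  have htot : ∀ τ : ℝ, 0 ≤ τ → (∀ e, 0 ≤ φ e * (φ e + τ * g e)) →
      cost Ys U (fun e => φ e + τ * g e) + |(x - τ * s * b l1) - (x - τ * s * b l2)|
        = cost Ys U φ + τ * (M - s * L) := fun τ h0 h => by
    rw [cost_eq, sum_abs_move _ φ g hg h, ← cost_eq, hgl, hwτ, abs_mul, habs,
      abs_of_nonneg (mul_nonneg h0 hMR.le)]
    ring
  obtain ⟨hsl, hweak⟩ : (0 : ℝ) < M - s * L ∧
      ∀ e, 0 ≤ φ e * (φ e + (1 - cost Ys U φ) / (M - s * L) * g e) := by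
    rcases first_hit φ g with h | ⟨τ, h1, h2, h3⟩
    · have h4 := lin_nonneg (fun e => (len Ys U e : ℝ)) φ g len_nonneg hg h
      rw [hgl] at h4
      have h5 : (0 : ℝ) < M - s * L := by linarith
      refine ⟨h5, fun e => ?_⟩
      have := mul_nonneg (div_nonneg (sub_nonneg.2 hc.le) h5.le) (h e)
      nlinarith [mul_self_nonneg (φ e)]
    · have h4 := hmin _ _ _ _ (hfeas τ) (supp_move (fun e he => hg e (on_supp φ e he)) h3)
      rw [htot τ h1.le h2] at h4
      have h5 : (0 : ℝ) < M - s * L := by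
        by_contra h6
        nlinarith
      exact ⟨h5, fun e => weak_mono (h2 e) (div_nonneg (sub_nonneg.2 hc.le) h5.le)
        (by rw [div_le_iff₀ h5]; linarith)⟩
  set T : ℝ := (1 - cost Ys U φ) / (M - s * L) with hT
  have hT0 : 0 < T := div_pos (sub_pos.2 hc) hsl
  have hT1 : T * (M - s * L) = 1 - cost Ys U φ := div_mul_cancel₀ _ hsl.ne'
  set φR : V × V → ℝ := fun e => φ e + T * g e with hφR
  have hFR := hfeas T
  have hcR := htot T hT0.le hweak
  rw [hT1] at hcR
  have hwR : x - T * s * b l1 ≠ x - T * s * b l2 := by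
    rw [← sub_ne_zero, hwτ]
    refine mul_ne_zero (fun h => ?_) (mul_pos hT0 hMR).ne'
    simp [h] at habs
  have hsl' : M - s * L = - 2 * s * B := by linear_combination s * hBL - M * hss
  have hslR : (M : ℝ) - s * L = - 2 * s * B := by exact_mod_cast hsl'
  have hu0 : 0 < - s * B := by
    have : (0 : ℤ) < M - s * L := by exact_mod_cast hsl
    linarith
  obtain ⟨u, hu⟩ : ∃ u : ℕ, (u : ℤ) = - s * B := ⟨(- s * B).toNat, Int.toNat_of_nonneg hu0.le⟩
  have huR : (u : ℝ) = - s * B := by exact_mod_cast hu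
  obtain ⟨m, hm0, hmu, ⟨p, hp⟩, hmm⟩ := exists_den (θ + s * T) (N := u) (by omega) ⟨- s * A, by
    rw [huR]
    rw [hslR, hcost] at hT1
    push_cast
    linear_combination (s / 2 : ℝ) * hT1 + (T * s * B) * hssR - (T * B * s) * hssR⟩
  have hsub : supp φR ⊆ supp φ := supp_subset fun e he => by
    simp [hφR, on_supp φ e he, hg e (on_supp φ e he)]
  let n : V × V → ℤ := fun e => m * a0 e - p * b0 e
  have hn : ∀ e, (m : ℝ) * φR e = n e := fun e => by
    simp only [hφR, n, g]
    push_cast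
    rw [hφ e, ← hp]
    ring
  have hmR : (0 : ℝ) < m := by exact_mod_cast hm0
  have hK : ∑ z ∈ Ys, cz n (U z) + 1 ≤ m := by
    have h1 := cost_scale (Ys := Ys) (U := U) hmR.le hn
    have h2 : (m : ℝ) * ((x - T * s * b l1) - (x - T * s * b l2))
        = ((m * a l1 - p * b l1 - (m * a l2 - p * b l2) : ℤ) : ℝ) := by
      push_cast
      rw [← hp]
      linear_combination (m : ℝ) * (x1 - x2)
    have h3 : (1 : ℝ) ≤ m * |(x - T * s * b l1) - (x - T * s * b l2)| := by
      rw [← abs_of_pos hmR, ← abs_mul, h2]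
      have : m * a l1 - p * b l1 - (m * a l2 - p * b l2) ≠ 0 := fun h => by
        rw [h] at h2
        exact mul_ne_zero hmR.ne' (sub_ne_zero.2 hwR) (by simpa using h2)
      exact_mod_cast Int.one_le_abs this
    have h4 : ((∑ z ∈ Ys, cz n (U z) : ℤ) : ℝ) + 1 ≤ m := by
      rw [h1]
      nlinarith
    exact_mod_cast h4
  obtain ⟨Γ, zs, zp, yj, e0, TT⟩ := tB hS ho ht ih hiso bad hFR (le_of_eq (by linarith)) hwR hp hm0
    hmm (by
      have : (2 * u : ℤ) = M - s * L := by rw [hu, hsl']; ring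
      omega) (fun C hC h => by
      have := card_le_sum_cz hmR.ne' hn hC h
      omega) (hK1.mono hsub) (hK2.mono hsub) k1 k2 k4 k5 k7 k8
  have hfin := tB2 hS ho ht ih hFR (le_of_eq (by linarith)) hwR TT hsub n1 n2 hfp hz hb hb' hσ hs
    σ1 σ2 (by
      rw [hwτ]
      have := mul_pos hT0 hMR
      rcases hs with h | h <;> rw [h] <;> simp [sg, this, this.le])
    (fun e he => by
      rw [σ3 e (hsub he), sg_eq_of (hweak e) (mem_supp.1 (hsub he)) (mem_supp.1 he)])
    (fun e he he' => by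
      have h1 : e ≠ l1 := fun h => n1 (h ▸ he)
      have h2 : e ≠ l2 := fun h => n2 (h ▸ he)
      have h3 : φ e + T * (- s * (b e : ℝ)) = 0 := by
        have := on_supp φR e he'
        simpa [hφR, g, hb0, cutf, h1, h2] using this
      have h4 : |φ e| = sg (φ e) * φ e := abs_eq_sg (mul_self_nonneg _) id
      have h5 := abs_pos.2 (mem_supp.1 he)
      have h6 : (0 : ℝ) < T * (sg (φ e) * s * b e) := by
        rw [h4] at h5
        have : T * (sg (φ e) * s * b e) = sg (φ e) * φ e := by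
          linear_combination (- sg (φ e) : ℝ) * h3
        rw [this]
        exact h5
      rw [σ3 e he]
      exact_mod_cast (mul_pos_iff_of_pos_left hT0).1 h6)
    (n := n) (fun e he h => by
      have := hn e
      rw [h] at this
      exact mul_ne_zero hmR.ne' (mem_supp.1 he) (by simpa using this)) hK
  have h1 : lin Ys U σ (fun e => s * b e) = s * lin Ys U σ b := by
    simp only [lin_eq, mul_sum]
    exact sum_congr rfl fun e _ => by ring
  rw [h1, hB] at hfin
  linarith

end Pool.Agent.Lib.MP_ee21b2_co
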