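import Pool.Agent.Lib.MP_ee21b2_co.Main

set_option autoImplicit false
set_option linter.unusedSectionVars false

namespace Pool.Agent.Lib.MP_ee21b2_co

open Finset

variable {V Y : Type} [Fintype V] [DecidableEq V] [DecidableEq Y]
variable {Ys : Finset Y} {U : Y → Finset V} {col : Y → V} {α : V → ℤ} {y1 y2 z0 : Y} {e1 e2 o : V}

theorem pat0 {W : Finset V} {a b c d : V} (h : io W (a, b) + io W (c, d) = 0)
    (h' : ¬ ((a ∈ W ↔ b ∈ W) ∧ (c ∈ W ↔ d ∈ W))) :
    (a ∈ W ∧ b ∉ W ∧ c ∉ W ∧ d ∈ W) ∨ (a ∉ W ∧ b ∈ W ∧ c ∈ W ∧ d ∉ W) := by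
  revert h h'
  by_cases a1 : a ∈ W <;> by_cases a2 : b ∈ W <;> by_cases a3 : c ∈ W <;> by_cases a4 : d ∈ W <;>
    simp [io, a1, a2, a3, a4]

theorem pat2 {W : Finset V} {a b c d : V} (h : io W (a, b) + io W (c, d) = 2) :
    a ∈ W ∧ c ∈ W ∧ b ∉ W ∧ d ∉ W := by
  revert h
  by_cases a1 : a ∈ W <;> by_cases a2 : b ∈ W <;> by_cases a3 : c ∈ W <;> by_cases a4 : d ∈ W <;>
    simp [io, a1, a2, a3, a4]

theorem pat2' {W : Finset V} {a b c d : V} (h : io W (a, b) + io W (c, d) = -2) :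
    a ∉ W ∧ c ∉ W ∧ b ∈ W ∧ d ∈ W := by
  revert h
  by_cases a1 : a ∈ W <;> by_cases a2 : b ∈ W <;> by_cases a3 : c ∈ W <;> by_cases a4 : d ∈ W <;>
    simp [io, a1, a2, a3, a4]

theorem pat1 {W : Finset V} {a b c d : V} (h : io W (a, b) + io W (c, d) = 1) :
    b ∉ W ∨ d ∉ W := by
  revert h
  by_cases a1 : a ∈ W <;> by_cases a2 : b ∈ W <;> by_cases a3 : c ∈ W <;> by_cases a4 : d ∈ W <;>
    simp [io, a1, a2, a3, a4]

theorem pat1' {W : Finset V} {a b c d : V} (h : io W (a, b) + io W (c, d) = -1) :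
    (b ∈ W ∨ d ∈ W) ∧ (a ∉ W → c ∉ W → (b ∈ W ∧ d ∉ W) ∨ (d ∈ W ∧ b ∉ W)) := by
  revert h
  by_cases a1 : a ∈ W <;> by_cases a2 : b ∈ W <;> by_cases a3 : c ∈ W <;> by_cases a4 : d ∈ W <;>
    simp [io, a1, a2, a3, a4]

theorem ins_comm (F : Finset (V × V)) (l1 l2 : V × V) : ins F l1 l2 = ins F l2 l1 :=
  insert_comm _ _ _

theorem nestE (hS : Sp Ys U col y1 y2 e1 e2 z0) (ho : free Ys U o) (ht : Odd (tt Ys U α))
    (ih : Low V Ys) (hiso : ∀ z ∈ Ys, z ≠ y1 → z ≠ y2 → ¬ free Ys U (col z)) {θ x : ℝ}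
    {φ : V × V → ℝ} (hF : Feas Ys U col α θ (ext φ (e1, col y1) (e2, col y2) x x))
    (hc : cost Ys U φ < 1) (hfor : Forest (supp φ) (free Ys U))
    (hz : ∀ W, Clo (ins (supp φ) (e1, col y1) (e2, col y2)) (free Ys U) W → bet Ys col W = 0)
    (hmin : ∀ (θ' x1 x2 : ℝ) (φ' : V × V → ℝ),
      Feas Ys U col α θ' (ext φ' (e1, col y1) (e2, col y2) x1 x2) → supp φ' ⊂ supp φ →
        1 ≤ cost Ys U φ' + |x1 - x2|)
    {A B : Finset V} (hA : Clo (supp φ) (free Ys U) A) (hB : Clo (supp φ) (free Ys U) B)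
    (hAB : Disjoint A B) (h1 : io A (e1, col y1) + io A (e2, col y2) = 2)
    (h2 : io B (e1, col y1) + io B (e2, col y2) = -1) : False := by
  obtain ⟨a1, a2, a3, a4⟩ := pat2 h1
  have b1 := disjoint_left.1 hAB a1
  have b2 := disjoint_left.1 hAB a2
  rcases (pat1' h2).2 b1 b2 with ⟨b3, b4⟩ | ⟨b3, b4⟩
  · exact nest hS ho ht ih hiso hF hc hfor hz hmin hA hB a1 a2 a3 a4 b3 b1 b2 b4
  · refine nest hS.swap ho ht ih (fun z hz h1 h2 => hiso z hz h2 h1) (ext_comm φ _ _ x x ▸ hF) hc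
      hfor (fun W hW => hz W (ins_comm (supp φ) _ _ ▸ hW)) (fun θ' x1 x2 φ' h3 h4 => ?_) hA hB
      a2 a1 a4 a3 b3 b2 b1 b4
    rw [abs_sub_comm]
    exact hmin θ' x2 x1 φ' (ext_comm φ' _ _ x1 x2 ▸ h3) h4

theorem nestC (hS : Sp Ys U col y1 y2 e1 e2 z0) (ho : free Ys U o) (ht : Odd (tt Ys U α))
    (ih : Low V Ys) (hiso : ∀ z ∈ Ys, z ≠ y1 → z ≠ y2 → ¬ free Ys U (col z)) {θ x : ℝ}
    {φ : V × V → ℝ} (hF : Feas Ys U col α θ (ext φ (e1, col y1) (e2, col y2) x x))
    (hc : cost Ys U φ < 1) (hfor : Forest (supp φ) (free Ys U))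
    (hz : ∀ W, Clo (ins (supp φ) (e1, col y1) (e2, col y2)) (free Ys U) W → bet Ys col W = 0)
    (hmin : ∀ (θ' x1 x2 : ℝ) (φ' : V × V → ℝ),
      Feas Ys U col α θ' (ext φ' (e1, col y1) (e2, col y2) x1 x2) → supp φ' ⊂ supp φ →
        1 ≤ cost Ys U φ' + |x1 - x2|)
    {A B : Finset V} (hA : Clo (supp φ) (free Ys U) A) (hB : Clo (supp φ) (free Ys U) B)
    (hAB : Disjoint A B) (h1 : io A (e1, col y1) + io A (e2, col y2) = -2)
    (h2 : io B (e1, col y1) + io B (e2, col y2) = 1) : False := by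
  refine nestE hS.switch ho ht ih (fun z hz h1 h2 => by rw [sw_3 h1 h2]; exact hiso z hz h1 h2)
    (hS.feas_sw.1 hF) hc hfor (fun W hW => ?_) (fun θ' x1 x2 φ' h3 h4 => ?_) hA hB hAB ?_ ?_
  · obtain ⟨a1, a2, a3⟩ := unc_ins.1 hW.1
    rw [sw_1] at a2
    rw [sw_2 hS.hne] at a3
    have a4 := hz W ⟨unc_ins.2 ⟨a1, a2.symm, a3.symm⟩, hW.2⟩
    have := hS.bet_sw W
    rw [a4, io_eq_zero.2 (show (e1, col y1).1 ∈ W ↔ (e1, col y1).2 ∈ W from a2.symm),
      io_eq_zero.2 (show (e2, col y2).1 ∈ W ↔ (e2, col y2).2 ∈ W from a3.symm)] at this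
    exact_mod_cast this
  · have := hmin θ' (θ' - x1) (θ' - x2) φ' (hS.feas_sw.2 (by simpa using h3)) h4
    rwa [show θ' - x1 - (θ' - x2) = - (x1 - x2) by ring, abs_neg] at this
  · rw [sw_1, sw_2 hS.hne, io_swap A (col y1), io_swap A (col y2)]; linarith
  · rw [sw_1, sw_2 hS.hne, io_swap B (col y1), io_swap B (col y2)]; linarith

theorem caseB (hS : Sp Ys U col y1 y2 e1 e2 z0) (ho : free Ys U o) (ht : Odd (tt Ys U α))
    (ih : Low V Ys) (hiso : ∀ z ∈ Ys, z ≠ y1 → z ≠ y2 → ¬ free Ys U (col z)) {θ x : ℝ}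
    {φ : V × V → ℝ} (hF : Feas Ys U col α θ (ext φ (e1, col y1) (e2, col y2) x x))
    (hc : cost Ys U φ < 1) (hfor : Forest (supp φ) (free Ys U))
    (hz : ∀ W, Clo (ins (supp φ) (e1, col y1) (e2, col y2)) (free Ys U) W → bet Ys col W = 0)
    (hmin : (e1, col y1) ∉ supp φ → ∀ (θ' x1 x2 : ℝ) (φ' : V × V → ℝ),
      Feas Ys U col α θ' (ext φ' (e1, col y1) (e2, col y2) x1 x2) → supp φ' ⊂ supp φ →
        1 ≤ cost Ys U φ' + |x1 - x2|)
    (R2 : ∀ i j : ℤ, (i ≠ 0 ∨ j ≠ 0) → ∃ W, Clo (supp φ) (free Ys U) W ∧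
      i * bet Ys col W + j * (io W (e1, col y1) + io W (e2, col y2)) ≠ 0) : False := by
  set γ : Finset V → ℤ := fun W => io W (e1, col y1) + io W (e2, col y2) with hγ
  have hrange : ∀ W, -2 ≤ γ W ∧ γ W ≤ 2 := fun W => by
    have h1 := abs_le.1 (abs_io_le W (e1, col y1))
    have h2 := abs_le.1 (abs_io_le W (e2, col y2))
    simp only [hγ]
    omega
  have hcount : ∀ M p q : ℤ, 0 < M → θ * M = p → x * M = q → (Ys.card : ℤ) ≤ M := by
    intro M p q h1 h2 h3
    have h4 := cnt hS ht hF hc hfor h1 h2 h3 (filter_subset (fun z => z ≠ y1 ∧ z ≠ y2) Ys)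
      fun z hz' hu => by
        obtain ⟨a1, a2, a3⟩ := mem_filter.1 hz'
        have := hz _ (hS.clo_U a1 a2 a3 hu)
        have := hS.good.bet_U_pos a1 (hiso z a1 a2 a3)
        omega
    have h5 := card_le_ne Ys y1 y2
    omega
  have hdet : ∀ A B, Clo (supp φ) (free Ys U) A → Clo (supp φ) (free Ys U) B →
      bet Ys col A * γ B - bet Ys col B * γ A ≠ 0 →
      (Ys.card : ℤ) ≤ |bet Ys col A * γ B - bet Ys col B * γ A| := by
    intro A B hA hB h
    have h1 := hF.clo hA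
    have h2 := hF.clo hB
    have h3 : θ * ((bet Ys col A * γ B - bet Ys col B * γ A : ℤ) : ℝ)
        = ((al α A * γ B - al α B * γ A : ℤ) : ℝ) := by
      simp only [hγ]; push_cast; rw [h1, h2]; ring
    have h4 : x * ((bet Ys col A * γ B - bet Ys col B * γ A : ℤ) : ℝ)
        = ((bet Ys col A * al α B - bet Ys col B * al α A : ℤ) : ℝ) := by
      simp only [hγ]; push_cast; rw [h1, h2]; ring
    rcases lt_or_gt_of_ne h with h5 | h5
    · rw [abs_of_neg h5]
      exact hcount _ (- (al α A * γ B - al α B * γ A))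
        (- (bet Ys col A * al α B - bet Ys col B * al α A)) (by linarith)
        (by rw [Int.cast_neg, Int.cast_neg, mul_neg, h3]) (by rw [Int.cast_neg, Int.cast_neg,
          mul_neg, h4])
    · rw [abs_of_pos h5]
      exact hcount _ _ _ h5 h3 h4
  obtain ⟨W1, hW1, g1⟩ := R2 0 1 (Or.inr one_ne_zero)
  have g1' : γ W1 ≠ 0 := by simpa using g1
  have hb1 : ∀ W, Clo (supp φ) (free Ys U) W → γ W = 0 → bet Ys col W = 0 := by
    intro W hW h0
    by_contra hb
    have hp := pat0 h0 fun h => hb (hz W ⟨unc_ins.2 ⟨hW.1, h⟩, hW.2⟩)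
    have hlt : bet Ys col W < Ys.card := by
      rcases hp with h | h
      exacts [bet_lt_card hS.h1 h.2.1, bet_lt_card hS.h2 h.2.2.2]
    obtain ⟨W', hW', g'⟩ : ∃ W', Clo (supp φ) (free Ys U) W' ∧ (γ W' = 1 ∨ γ W' = -1) := by
      have := hrange W1
      by_cases h2 : γ W1 = 2
      · obtain ⟨a1, a2, a3, a4⟩ := pat2 h2
        refine ⟨W1 ∩ W, hW1.inter hW.1, Or.inl ?_⟩
        rcases hp with ⟨b1, b2, b3, b4⟩ | ⟨b1, b2, b3, b4⟩ <;>
          simp [hγ, io, a1, a2, a3, a4, b1, b3]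
      by_cases h3 : γ W1 = -2
      · obtain ⟨a1, a2, a3, a4⟩ := pat2' h3
        refine ⟨W1 ∩ W, hW1.inter hW.1, Or.inr ?_⟩
        rcases hp with ⟨b1, b2, b3, b4⟩ | ⟨b1, b2, b3, b4⟩ <;>
          simp [hγ, io, a1, a2, a3, a4, b2, b4]
      exact ⟨W1, hW1, by omega⟩
    have := hdet W W' hW hW' (by rcases g' with h | h <;> rw [h, h0] <;> omega)
    rcases g' with h | h <;> rw [h, h0] at this <;> simp at this <;> omega
  obtain ⟨W2, hW2, g2⟩ := R2 (γ W1) (- bet Ys col W1) (Or.inl g1')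
  have hpair : ∀ A B, Clo (supp φ) (free Ys U) A → Clo (supp φ) (free Ys U) B → Disjoint A B →
      bet Ys col A * γ B - bet Ys col B * γ A = 0 := by
    intro A B hA hB hAB
    by_contra h
    have h1 := hdet A B hA hB h
    have h2 : γ (A ∪ B) = γ A + γ B := by simp only [hγ, io_union hAB]; ring
    have h3 := bet_union (Ys := Ys) (col := col) hAB
    have h4 := bet_le (Ys := Ys) (col := col) (A ∪ B)
    have a1 : γ A ≠ 0 := fun h0 => h (by rw [h0, hb1 A hA h0]; simp)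
    have a2 : γ B ≠ 0 := fun h0 => h (by rw [h0, hb1 B hB h0]; simp)
    have a3 : γ A + γ B ≠ 0 := fun h0 => h (by
      have := hb1 _ (hA.union hB) (h2.trans h0)
      rw [show bet Ys col A = 0 by omega, show bet Ys col B = 0 by omega]; simp)
    have r1 := hrange A
    have r2 := hrange B
    have r3 := hrange (A ∪ B)
    have hlt : ∀ W, γ W = 1 → bet Ys col W < Ys.card := fun W h =>
      (pat1 h).elim (bet_lt_card hS.h1) (bet_lt_card hS.h2)
    have hgt : ∀ W, γ W = -1 → 0 < bet Ys col W := fun W h =>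
      (pat1' h).1.elim (bet_pos hS.h1) (bet_pos hS.h2)
    have nl : ∀ W, Clo (supp φ) (free Ys U) W → γ W = 2 ∨ γ W = -2 → (e1, col y1) ∉ supp φ :=
      fun W hW h h' => h.elim (fun h => (pat2 h).2.2.1 ((hW.1 _ h').1 (pat2 h).1))
        (fun h => (pat2' h).1 ((hW.1 _ h').2 (pat2' h).2.2.1))
    rcases (by omega : (γ A = 1 ∧ γ B = 1) ∨ (γ A = -1 ∧ γ B = -1) ∨ (γ A = 2 ∧ γ B = -1) ∨
      (γ A = -1 ∧ γ B = 2) ∨ (γ A = -2 ∧ γ B = 1) ∨ (γ A = 1 ∧ γ B = -2)) with
      ⟨b1, b2⟩ | ⟨b1, b2⟩ | ⟨b1, b2⟩ | ⟨b1, b2⟩ | ⟨b1, b2⟩ | ⟨b1, b2⟩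
    · have := hlt A b1
      have := hlt B b2
      rw [b1, b2, le_abs] at h1
      omega
    · have := hgt A b1
      have := hgt B b2
      rw [b1, b2, le_abs] at h1
      omega
    · exact nestE hS ho ht ih hiso hF hc hfor hz (hmin (nl A hA (Or.inl b1))) hA hB hAB b1 b2
    · exact nestE hS ho ht ih hiso hF hc hfor hz (hmin (nl B hB (Or.inl b2))) hB hA hAB.symm b2 b1
    · exact nestC hS ho ht ih hiso hF hc hfor hz (hmin (nl A hA (Or.inr b1))) hA hB hAB b1 b2
    · exact nestC hS ho ht ih hiso hF hc hfor hz (hmin (nl B hB (Or.inr b2))) hB hA hAB.symm b2 b1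
  have d1 : Disjoint (W1 \ W2) (W1 ∩ W2) := disjoint_sdiff_inter _ _
  have d2 : Disjoint (W2 \ W1) (W1 ∩ W2) := by rw [inter_comm]; exact disjoint_sdiff_inter _ _
  have d3 : Disjoint (W1 \ W2) (W2 \ W1) := disjoint_sdiff_sdiff
  have u1 : W1 \ W2 ∪ W1 ∩ W2 = W1 := sdiff_union_inter _ _
  have u2 : W2 \ W1 ∪ W1 ∩ W2 = W2 := by rw [inter_comm]; exact sdiff_union_inter _ _
  have p1 := hpair _ _ (hW1.sdiff hW2.1) (hW1.inter hW2.1) d1
  have p2 := hpair _ _ (hW2.sdiff hW1.1) (hW1.inter hW2.1) d2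
  have p3 := hpair _ _ (hW1.sdiff hW2.1) (hW2.sdiff hW1.1) d3
  have q1 : (bet Ys col W1 : ℤ) = bet Ys col (W1 \ W2) + bet Ys col (W1 ∩ W2) := by
    rw [← Nat.cast_add, ← bet_union d1, u1]
  have q2 : (bet Ys col W2 : ℤ) = bet Ys col (W2 \ W1) + bet Ys col (W1 ∩ W2) := by
    rw [← Nat.cast_add, ← bet_union d2, u2]
  have q3 : γ W1 = γ (W1 \ W2) + γ (W1 ∩ W2) := by
    conv_lhs => rw [← u1]
    simp only [hγ, io_union d1]; ring
  have q4 : γ W2 = γ (W2 \ W1) + γ (W1 ∩ W2) := by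
    conv_lhs => rw [← u2]
    simp only [hγ, io_union d2]; ring
  refine g2 ?_
  change γ W1 * _ + _ * γ W2 = 0
  rw [q1, q2, q3, q4]
  linear_combination p2 - p1 - p3

/-- The linear statement with a special pair. -/
theorem thmPlus (Ys : Finset Y) : ∀ (U : Y → Finset V) (col : Y → V) (α : V → ℤ) (y1 y2 : Y)
    (e1 e2 : V) (z0 : Y) (o : V), Sp Ys U col y1 y2 e1 e2 z0 → free Ys U o → Odd (tt Ys U α) →
      Plus Ys U col α y1 y2 e1 e2 := by
  induction Ys using Finset.strongInduction with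
  | H Ys ih =>
  intro U col α y1 y2 e1 e2 z0 o hS ho ht
  let meas : (V × V → ℝ) → ℕ := fun φ =>
    2 * ((supp φ).erase (e1, col y1)).card + if (e1, col y1) ∈ supp φ then 1 else 0
  have conv : ∀ (θ x1 x2 : ℝ) (φ : V × V → ℝ),
      Feas Ys U col α θ (ext φ (e1, col y1) (e2, col y2) x1 x2) →
      Feas Ys U col α θ (ext (fun e => φ e + if e = (e1, col y1) then x1 - x2 else 0)
        (e1, col y1) (e2, col y2) x2 x2) ∧
      cost Ys U (fun e => φ e + if e = (e1, col y1) then x1 - x2 else 0)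
        ≤ cost Ys U φ + |x1 - x2| := fun θ x1 x2 φ h => by
    constructor
    · have : ext (fun e => φ e + if e = (e1, col y1) then x1 - x2 else 0)
          (e1, col y1) (e2, col y2) x2 x2 = ext φ (e1, col y1) (e2, col y2) x1 x2 := by
        funext e
        simp only [ext]
        split_ifs <;> ring
      rw [this]
      exact h
    · rw [← hS.cost_l1]
      exact cost_add_le _ _
  have main : ∀ (k : ℕ) (θ x : ℝ) (φ : V × V → ℝ), meas φ = k →
      Feas Ys U col α θ (ext φ (e1, col y1) (e2, col y2) x x) → 1 ≤ cost Ys U φ := by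
    intro k
    induction k using Nat.strong_induction_on with
    | h k ihk =>
    intro θ x φ hk hF
    by_contra hc
    push Not at hc
    have hlt : ∀ φ' : V × V → ℝ, supp φ' ⊂ supp φ → meas φ' < k := fun φ' h => by
      rw [← hk]
      simp only [meas]
      have h1 := card_lt_card h
      by_cases a1 : (e1, col y1) ∈ supp φ'
      · have a2 := h.1 a1
        have := card_pos.2 ⟨_, a1⟩
        rw [card_erase_of_mem a1, card_erase_of_mem a2, if_pos a1, if_pos a2]
        omega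
      · by_cases a2 : (e1, col y1) ∈ supp φ
        · rw [erase_eq_of_notMem a1, card_erase_of_mem a2, if_neg a1, if_pos a2]
          omega
        · rw [erase_eq_of_notMem a1, erase_eq_of_notMem a2, if_neg a1, if_neg a2]
          omega
    have hmove : ∀ (i j : ℝ) (g : V × V → ℝ), On (supp φ) g →
        (∀ v, ¬ free Ys U v → out g {v} = i * bet Ys col {v}
          + j * (io {v} (e1, col y1) + io {v} (e2, col y2))) → ∀ e, g e = 0 := by
      intro i j g hg h
      by_contra hne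
      push Not at hne
      obtain ⟨s, h1, h2⟩ := cost_move (Ys := Ys) (U := U) hg hne
      have := ihk _ (hlt _ h2) (θ - s * i) (x - s * j) _ rfl (feas_of_nodes fun v hv => by
        have h3 := hF.node v hv
        rw [out_ext] at h3
        rw [out_ext, out_add, out_mul, h v hv]
        linarith)
      linarith
    have bad : ¬ Plus Ys U col α y1 y2 e1 e2 := fun h => by
      have := h θ x x φ hF
      simp only [sub_self, abs_zero, add_zero] at this
      linarith
    have hiso : ∀ z ∈ Ys, z ≠ y1 → z ≠ y2 → ¬ free Ys U (col z) := by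
      intro z hz n1 n2 hf
      have h0 := hS.good.bet_U_of_free hz hf
      refine bad (del_one hS ho ht ih hz n1 n2 (fun h => ?_) (int_eq_zero_of_abs_lt ?_))
      · rw [h] at h0
        have h1 := bet_eq_zero.1 h0
        exact hS.tw ⟨fun h => absurd h (h1 _ hS.h1), fun h => absurd h (h1 _ hS.h2)⟩
      · have := (abs_out_le φ (U z)).trans (cz_le_cost φ hz)
        rw [hS.out_U hF hz n1 n2, h0] at this
        simp only [Nat.cast_zero, mul_zero, sub_zero] at this
        linarith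
    have hfor : Forest (supp φ) (free Ys U) := fun χ h1 h2 =>
      hmove 0 0 χ h1 fun v hv => by rw [h2 v hv]; simp
    have R2 : ∀ i j : ℤ, (i ≠ 0 ∨ j ≠ 0) → ∃ W, Clo (supp φ) (free Ys U) W ∧
        i * bet Ys col W + j * (io W (e1, col y1) + io W (e2, col y2)) ≠ 0 := by
      intro i j hij
      by_contra h
      push Not at h
      have hsum : ∀ W : Finset V, ∑ v ∈ W, (i * bet Ys col {v}
          + j * (io {v} (e1, col y1) + io {v} (e2, col y2)))
          = i * bet Ys col W + j * (io W (e1, col y1) + io W (e2, col y2)) := fun W => by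
        rw [sum_add_distrib, ← mul_sum, ← mul_sum, sum_add_distrib, sum_io, sum_io, ← bet_eq_sum]
      obtain ⟨g, hg, hg'⟩ := solve (supp φ) (free Ys U) (fun v => i * bet Ys col {v}
        + j * (io {v} (e1, col y1) + io {v} (e2, col y2))) fun W hW => by rw [hsum, h W hW]
      have h0 := hmove i j (fun e => (g e : ℝ)) (fun e he => by simp [hg e he]) fun v hv => by
        rw [out_cast, hg' v hv]; push_cast; ring
      have h1 : ∀ z ∈ Ys, i * bet Ys col (U z)
          + j * (io (U z) (e1, col y1) + io (U z) (e2, col y2)) = 0 := fun z hz => by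
        rw [← hsum, ← out_of_div hg' (not_free_U hz)]
        refine sum_eq_zero fun e _ => ?_
        have : g e = 0 := by exact_mod_cast h0 e
        simp [this]
      have h2 := h1 z0 hS.hz
      have h3 := h1 y2 hS.h2
      have h4 := hS.good.bet_U_pos hS.hz (hiso z0 hS.hz hS.n1 hS.n2)
      rw [hS.io1 hS.hz hS.n2, hS.io2 hS.hz hS.n1] at h2
      have hi : i = 0 := by
        have : i * bet Ys col (U z0) = 0 := by simpa using h2
        rcases mul_eq_zero.1 this with h | h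
        · exact h
        · omega
      rw [hi, hS.io2 hS.h2 hS.hne.symm] at h3
      have hj : j = 0 := by
        have : j * io (U y2) (e1, col y1) = 0 := by simpa using h3
        exact (mul_eq_zero.1 this).resolve_right hS.io_ne
      tauto
    by_cases hpos : 0 < bet Ys col (top (ins (supp φ) (e1, col y1) (e2, col y2)) (free Ys U))
    · obtain ⟨W, hW, h⟩ := R2 0 1 (Or.inr one_ne_zero)
      exact caseA hS ho ht ih hF hc hfor hW (by simpa using h) hpos
    · refine caseB hS ho ht ih hiso hF hc hfor (fun W hW => ?_) (fun hl θ' x1 x2 φ' h1 h2 => ?_) R2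
      · have := bet_mono (Ys := Ys) (col := col) (subset_top hW)
        omega
      · obtain ⟨h3, h4⟩ := conv θ' x1 x2 φ' h1
        refine le_trans (ihk _ ?_ θ' x2 _ rfl h3) h4
        rw [← hk]
        simp only [meas]
        have h5 : (supp fun e => φ' e + if e = (e1, col y1) then x1 - x2 else 0).erase (e1, col y1)
            ⊆ supp φ' := fun e he => by
          have h6 := mem_supp.1 (mem_of_mem_erase he)
          rw [if_neg (ne_of_mem_erase he), add_zero] at h6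
          exact mem_supp.2 h6
        have h6 := card_le_card h5
        have h7 := card_lt_card h2
        rw [erase_eq_of_notMem hl, if_neg hl]
        split_ifs <;> omega
  intro θ x1 x2 φ hF
  obtain ⟨h1, h2⟩ := conv θ x1 x2 φ hF
  exact (main _ θ x2 _ rfl h1).trans h2

end Pool.Agent.Lib.MP_ee21b2_co
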