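import Mathlib

set_option autoImplicit false

namespace Pool.Agent.Lib.MP_ee21b2_co

open Finset

variable {Y : Type} [Fintype Y] [DecidableEq Y]

/-- A real number that is a natural number. -/
def IsNat (r : ℝ) : Prop := ∃ n : ℕ, r = n

open Classical in
theorem round_row (m c : ℕ) (w : Y → ℝ) (hw : ∀ y, 0 ≤ w y) :
    ∀ (N : ℕ) (b : Y → ℝ), (univ.filter (fun y => ¬ IsNat (b y))).card ≤ N →
      (∀ y, 0 ≤ b y) → (∀ y, b y ≤ m) → ∑ y, b y ≤ c →
      ∃ b' : Y → ℝ, (∀ y, IsNat (b' y)) ∧ (∀ y, b' y ≤ m) ∧ (∀ y, b y = 0 → b' y = 0) ∧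
        ∑ y, b' y ≤ c ∧ ∑ y, w y * b y ≤ ∑ y, w y * b' y := by
  intro N
  induction N with
  | zero =>
    intro b hN h0 hm hc
    refine ⟨b, fun y => ?_, hm, fun _ h => h, hc, le_rfl⟩
    by_contra h
    have : y ∈ univ.filter (fun y => ¬ IsNat (b y)) := by simp [h]
    rw [Nat.le_zero, card_eq_zero] at hN
    simp [hN] at this
  | succ N ih =>
    intro b hN h0 hm hc
    set S := univ.filter (fun y => ¬ IsNat (b y)) with hS
    by_cases hle : S.card ≤ N
    · exact ih b hle h0 hm hc
    have hSc : S.card = N + 1 := by omega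
    have hne : S.Nonempty := card_pos.1 (by omega)
    obtain ⟨i, hi, himax⟩ := exists_max_image S w hne
    have hi' : ¬ IsNat (b i) := (mem_filter.1 hi).2
    have hz : ∀ y, ¬ IsNat (b y) → b y ≠ 0 := fun y h e => h ⟨0, by simp [e]⟩
    have hceil : ∀ y, ((⌈b y⌉₊ : ℕ) : ℝ) ≤ m := fun y => by
      exact_mod_cast Nat.ceil_le.2 (hm y)
    by_cases h1 : ∃ j ∈ S, j ≠ i
    · obtain ⟨j, hj, hji⟩ := h1
      have hj' : ¬ IsNat (b j) := (mem_filter.1 hj).2
      set s : ℝ := min ((⌈b i⌉₊ : ℝ) - b i) (b j - (⌊b j⌋₊ : ℝ)) with hs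
      have hs0 : 0 ≤ s := le_min (sub_nonneg.2 (Nat.le_ceil _)) (sub_nonneg.2 (Nat.floor_le (h0 j)))
      have hs1 : s ≤ (⌈b i⌉₊ : ℝ) - b i := min_le_left _ _
      have hs2 : s ≤ b j - (⌊b j⌋₊ : ℝ) := min_le_right _ _
      let b1 : Y → ℝ := fun y => b y + (if y = i then s else 0) - (if y = j then s else 0)
      have e1 : b1 i = b i + s := by simp [b1, hji.symm]
      have e2 : b1 j = b j - s := by simp [b1, hji]
      have e3 : ∀ y, y ≠ i → y ≠ j → b1 y = b y := fun y h h' => by simp [b1, h, h']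
      have hsum : ∑ y, b1 y = ∑ y, b y := by
        simp [b1, sum_add_distrib, sum_sub_distrib]
      have hwsum : ∑ y, w y * b1 y = ∑ y, w y * b y + (w i - w j) * s := by
        simp only [b1, mul_add, mul_sub, sum_add_distrib, sum_sub_distrib, mul_ite, mul_zero,
          sum_ite_eq', mem_univ, if_true]
        ring
      have hcard : (univ.filter (fun y => ¬ IsNat (b1 y))).card ≤ N := by
        have hsub : univ.filter (fun y => ¬ IsNat (b1 y)) ⊆ S := by
          intro y hy
          by_cases h : y = i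
          · exact h ▸ hi
          by_cases h' : y = j
          · exact h' ▸ hj
          have := (mem_filter.1 hy).2
          rw [e3 y h h'] at this
          exact mem_filter.2 ⟨mem_univ _, this⟩
        have hne' : univ.filter (fun y => ¬ IsNat (b1 y)) ≠ S := by
          intro e
          rcases min_choice ((⌈b i⌉₊ : ℝ) - b i) (b j - (⌊b j⌋₊ : ℝ)) with h | h
          · have : i ∈ univ.filter (fun y => ¬ IsNat (b1 y)) := e ▸ hi
            exact (mem_filter.1 this).2 ⟨⌈b i⌉₊, by rw [e1, hs, h]; ring⟩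
          · have : j ∈ univ.filter (fun y => ¬ IsNat (b1 y)) := e ▸ hj
            exact (mem_filter.1 this).2 ⟨⌊b j⌋₊, by rw [e2, hs, h]; ring⟩
        have := card_lt_card (lt_of_le_of_ne hsub hne')
        omega
      obtain ⟨b', k1, k2, k3, k4, k5⟩ := ih b1 hcard
        (fun y => by
          by_cases h : y = i
          · rw [h, e1]; linarith [h0 i]
          by_cases h' : y = j
          · rw [h', e2]; linarith [(Nat.cast_nonneg ⌊b j⌋₊ : (0 : ℝ) ≤ _)]
          rw [e3 y h h']; exact h0 y)
        (fun y => by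
          by_cases h : y = i
          · rw [h, e1]; linarith [hceil i]
          by_cases h' : y = j
          · rw [h', e2]; linarith [hm j]
          rw [e3 y h h']; exact hm y)
        (hsum ▸ hc)
      refine ⟨b', k1, k2, fun y hy => k3 y ?_, k4, ?_⟩
      · rw [e3 y (fun e => hz i hi' (e ▸ hy)) (fun e => hz j hj' (e ▸ hy)), hy]
      · have := mul_nonneg (sub_nonneg.2 (himax j hj)) hs0
        linarith
    · push Not at h1
      have hall : ∀ y, y ≠ i → IsNat (b y) := fun y h => by
        by_contra h'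
        exact h (h1 y (mem_filter.2 ⟨mem_univ _, h'⟩))
      let b1 : Y → ℝ := Function.update b i (⌈b i⌉₊ : ℝ)
      have e1 : b1 i = (⌈b i⌉₊ : ℝ) := by simp [b1]
      have e3 : ∀ y, y ≠ i → b1 y = b y := fun y h => by simp [b1, h]
      refine ⟨b1, fun y => ?_, fun y => ?_, fun y hy => ?_, ?_, ?_⟩
      · by_cases h : y = i
        · exact ⟨_, h ▸ e1⟩
        · rw [e3 y h]; exact hall y h
      · by_cases h : y = i
        · rw [h, e1]; exact hceil i
        · rw [e3 y h]; exact hm y
      · rw [e3 y (fun e => hz i hi' (e ▸ hy)), hy]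
      · choose! g hg using hall
        have hs : ∑ y ∈ univ.erase i, b y = ((∑ y ∈ univ.erase i, g y : ℕ) : ℝ) := by
          push_cast
          exact sum_congr rfl fun y hy => hg y (ne_of_mem_erase hy)
        have hs1 : ∑ y, b1 y = (⌈b i⌉₊ : ℝ) + ∑ y ∈ univ.erase i, b y := by
          rw [← add_sum_erase _ _ (mem_univ i), e1]
          congr 1
          exact sum_congr rfl fun y hy => e3 y (ne_of_mem_erase hy)
        rw [← add_sum_erase _ _ (mem_univ i), hs] at hc
        rw [hs1, hs]
        have hle' : (∑ y ∈ univ.erase i, g y) ≤ c := by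
          have : ((∑ y ∈ univ.erase i, g y : ℕ) : ℝ) ≤ c := by linarith [h0 i]
          exact_mod_cast this
        have : ⌈b i⌉₊ ≤ c - ∑ y ∈ univ.erase i, g y := by
          apply Nat.ceil_le.2
          rw [Nat.cast_sub hle']
          linarith
        have h2 : ⌈b i⌉₊ + ∑ y ∈ univ.erase i, g y ≤ c := by omega
        exact_mod_cast h2
      · apply sum_le_sum
        intro y _
        apply mul_le_mul_of_nonneg_left _ (hw y)
        by_cases h : y = i
        · rw [h, e1]; exact Nat.le_ceil _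
        · rw [e3 y h]

/-- The quadratic form `tr (B ^ 2)`. -/
def qf (B : Y → Y → ℝ) : ℝ := ∑ y, ∑ y', B y y' * B y' y

theorem qf_update (B : Y → Y → ℝ) (y : Y) (r : Y → ℝ) (h1 : B y y = 0) (h2 : r y = 0) :
    qf (Function.update B y r) = qf B + 2 * (∑ y', B y' y * r y' - ∑ y', B y' y * B y y') := by
  have key : ∀ A : Y → Y → ℝ, A y y = 0 → qf A = 2 * ∑ y', A y' y * A y y'
      + ∑ a ∈ univ.erase y, ∑ b ∈ univ.erase y, A a b * A b a := by
    intro A hA
    unfold qf
    rw [← add_sum_erase _ _ (mem_univ y)]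
    have e1 : ∑ a ∈ univ.erase y, ∑ b, A a b * A b a
        = ∑ a ∈ univ.erase y, A a y * A y a + ∑ a ∈ univ.erase y, ∑ b ∈ univ.erase y, A a b * A b a := by
      rw [← sum_add_distrib]
      exact sum_congr rfl fun a _ => (add_sum_erase _ _ (mem_univ y)).symm
    have e2 : ∑ a ∈ univ.erase y, A a y * A y a = ∑ a, A a y * A y a := by
      rw [← add_sum_erase _ _ (mem_univ y), hA]; simp
    have e3 : ∑ y', A y y' * A y' y = ∑ a, A a y * A y a := sum_congr rfl fun a _ => mul_comm _ _
    rw [e1, e2, e3]; ring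
  rw [key B h1, key (Function.update B y r) (by simp [h2])]
  have e1 : ∑ a ∈ univ.erase y, ∑ b ∈ univ.erase y,
      Function.update B y r a b * Function.update B y r b a
      = ∑ a ∈ univ.erase y, ∑ b ∈ univ.erase y, B a b * B b a :=
    sum_congr rfl fun a ha => sum_congr rfl fun b hb => by
      rw [Function.update_of_ne (ne_of_mem_erase ha), Function.update_of_ne (ne_of_mem_erase hb)]
  have e2 : ∑ y', Function.update B y r y' y * Function.update B y r y y'
      = ∑ y', B y' y * r y' := sum_congr rfl fun a _ => by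
    by_cases h : a = y
    · subst h; simp [h1, h2]
    · rw [Function.update_of_ne h, Function.update_self]
  rw [e1, e2]; ring

theorem round_all (m : ℕ) (c : Y → ℕ) (B : Y → Y → ℝ) (h0 : ∀ y y', 0 ≤ B y y')
    (hm : ∀ y y', B y y' ≤ m) (hd : ∀ y, B y y = 0) (hc : ∀ y, ∑ y', B y y' ≤ c y) (s : Finset Y) :
    ∃ A : Y → Y → ℝ, (∀ y y', 0 ≤ A y y') ∧ (∀ y y', A y y' ≤ m) ∧ (∀ y, A y y = 0) ∧
      (∀ y, ∑ y', A y y' ≤ c y) ∧ (∀ y ∈ s, ∀ y', IsNat (A y y')) ∧ qf B ≤ qf A := by
  induction s using Finset.induction_on with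
  | empty => exact ⟨B, h0, hm, hd, hc, by simp, le_rfl⟩
  | insert y s _ ih =>
    obtain ⟨A, a0, am, ad, ac, an, aq⟩ := ih
    obtain ⟨r, r1, r2, r3, r4, r5⟩ := round_row m (c y) (fun y' => A y' y) (fun y' => a0 y' y)
      _ (A y) le_rfl (a0 y) (am y) (ac y)
    refine ⟨Function.update A y r, fun a b => ?_, fun a b => ?_, fun a => ?_, fun a => ?_,
      fun a ha b => ?_, ?_⟩
    · by_cases h : a = y
      · rw [h, Function.update_self]
        obtain ⟨n, hn⟩ := r1 b
        rw [hn]; exact Nat.cast_nonneg n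
      · rw [Function.update_of_ne h]; exact a0 a b
    · by_cases h : a = y
      · rw [h, Function.update_self]; exact r2 b
      · rw [Function.update_of_ne h]; exact am a b
    · by_cases h : a = y
      · rw [h, Function.update_self]; exact r3 y (ad y)
      · rw [Function.update_of_ne h]; exact ad a
    · by_cases h : a = y
      · rw [h, Function.update_self]; exact r4
      · rw [Function.update_of_ne h]; exact ac a
    · by_cases h : a = y
      · rw [h, Function.update_self]; exact r1 b
      · rw [Function.update_of_ne h]; exact an a ((mem_insert.1 ha).resolve_left h) b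
    · rw [qf_update A y r (ad y) (r3 y (ad y))]
      linarith

omit [DecidableEq Y] in
theorem even_sum_symm (g : Y → Y → ℕ) (hs : ∀ a b, g a b = g b a) (hd : ∀ a, g a a = 0) :
    Even (∑ a, ∑ b, g a b) := by
  classical
  rw [← sum_product', ← ZMod.natCast_eq_zero_iff_even]
  push_cast
  apply sum_involution (fun p _ => p.swap)
  · intro p _
    simp only [Prod.fst_swap, Prod.snd_swap]
    rw [hs p.2 p.1, ← two_mul]
    have : (2 : ZMod 2) = 0 := rfl
    rw [this, zero_mul]
  · intro p _ hp e
    apply hp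
    have : p.2 = p.1 := congrArg Prod.fst e
    rw [this, hd]; simp
  · intro p _; simp
  · intro p _; simp

theorem qf_le (m t : ℕ) (ht : Odd t) (c : Y → ℕ) (hct : ∑ y, c y = t) (B : Y → Y → ℝ)
    (h0 : ∀ y y', 0 ≤ B y y') (hm : ∀ y y', B y y' ≤ m) (hd : ∀ y, B y y = 0)
    (hc : ∀ y, ∑ y', B y y' ≤ c y) : qf B ≤ ((t : ℝ) - 1) * m := by
  obtain ⟨A, -, am, ad, ac, an, aq⟩ := round_all m c B h0 hm hd hc univ
  choose g hg using fun y y' => an y (mem_univ y) y'
  have gm : ∀ a b, g a b ≤ m := fun a b => by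
    have := am a b
    rw [hg] at this
    exact_mod_cast this
  have gd : ∀ a, g a a = 0 := fun a => by
    have := ad a
    rw [hg] at this
    exact_mod_cast this
  have gc : ∀ a, ∑ b, g a b ≤ c a := fun a => by
    have := ac a
    simp only [hg] at this
    exact_mod_cast this
  have h1 : Even (∑ a, ∑ b, min (g a b) (g b a)) :=
    even_sum_symm _ (fun a b => min_comm _ _) (fun a => by simp [gd])
  have h2 : ∑ a, ∑ b, min (g a b) (g b a) ≤ t := by
    rw [← hct]
    exact sum_le_sum fun a _ => (sum_le_sum fun b _ => min_le_left _ _).trans (gc a)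
  have h3 : ∑ a, ∑ b, min (g a b) (g b a) + 1 ≤ t := by
    obtain ⟨u, hu⟩ := h1
    obtain ⟨v, hv⟩ := ht
    omega
  have h4 : ∑ a, ∑ b, g a b * g b a ≤ (∑ a, ∑ b, min (g a b) (g b a)) * m := by
    rw [sum_mul]
    refine sum_le_sum fun a _ => ?_
    rw [sum_mul]
    refine sum_le_sum fun b _ => ?_
    rcases le_total (g a b) (g b a) with h | h
    · rw [min_eq_left h]; exact Nat.mul_le_mul_left _ (gm b a)
    · rw [min_eq_right h, mul_comm]; exact Nat.mul_le_mul_left _ (gm a b)
  have h5 : qf A = ((∑ a, ∑ b, g a b * g b a : ℕ) : ℝ) := by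
    simp only [qf, hg]; push_cast; rfl
  have h6 : ((∑ a, ∑ b, g a b * g b a : ℕ) : ℝ)
      ≤ ((∑ a, ∑ b, min (g a b) (g b a) : ℕ) : ℝ) * m := by exact_mod_cast h4
  have h7 : ((∑ a, ∑ b, min (g a b) (g b a) : ℕ) : ℝ) + 1 ≤ t := by exact_mod_cast h3
  have h8 : (0 : ℝ) ≤ m := Nat.cast_nonneg m
  nlinarith

/-- The inequality when the column bound is an integer multiple of the row bound. -/
theorem int_ratio {X : Type} [Fintype X] [DecidableEq X] {ι : Type} [Fintype ι]
    (M : X → Y → ℝ) (hM : ∀ x y, 0 ≤ M x y) (ht : Odd (Fintype.card ι)) (x : ι → X) (y : ι → Y)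
    (hinj : Function.Injective fun i => (x i, y i)) (hz : ∀ i, M (x i) (y i) = 0)
    (R : ℝ) (m : ℕ) (hR : ∀ a, ∑ b, M a b ≤ R) (hC : ∀ b, ∑ a, M a b ≤ m * R) :
    ∑ i, ∑ j, M (x i) (y j) * M (x j) (y i) ≤ ((Fintype.card ι : ℝ) - 1) * R * (m * R) := by
  classical
  have hpos : 0 < Fintype.card ι := ht.pos
  obtain ⟨i0⟩ := Fintype.card_pos_iff.1 hpos
  have hR0 : 0 ≤ R := (sum_nonneg fun b _ => hM _ b).trans (hR (x i0))
  rcases hR0.eq_or_lt with h | hRp
  · have hM0 : ∀ a b, M a b = 0 := fun a b => le_antisymm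
      ((single_le_sum (fun b _ => hM a b) (mem_univ b)).trans (h ▸ hR a)) (hM a b)
    simp [hM0, ← h]
  let B : Y → Y → ℝ := fun b b' => (∑ i ∈ univ.filter (fun i => y i = b), M (x i) b') / R
  have hq := qf_le m (Fintype.card ι) ht (fun b => (univ.filter (fun i => y i = b)).card)
    (by rw [← card_eq_sum_card_fiberwise (fun i _ => mem_univ (y i))]; rfl) B
    (fun b b' => div_nonneg (sum_nonneg fun i _ => hM _ _) hR0)
    (fun b b' => by
      rw [div_le_iff₀ hRp]
      refine le_trans ?_ (hC b')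
      rw [← sum_image (s := univ.filter (fun i => y i = b)) (g := x) (f := fun a => M a b')]
      · exact sum_le_sum_of_subset_of_nonneg (subset_univ _) fun a _ _ => hM a b'
      · intro i hi j hj e
        apply hinj
        have h1 := (mem_filter.1 hi).2
        have h2 := (mem_filter.1 hj).2
        exact Prod.ext e (h1.trans h2.symm))
    (fun b => by
      have : ∑ i ∈ univ.filter (fun i => y i = b), M (x i) b = 0 :=
        sum_eq_zero fun i hi => (mem_filter.1 hi).2 ▸ hz i
      simp only [B, this, zero_div])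
    (fun b => by
      simp only [B]
      rw [← sum_div, div_le_iff₀ hRp, sum_comm]
      calc _ ≤ ∑ _i ∈ univ.filter (fun i => y i = b), R := sum_le_sum fun i _ => hR (x i)
        _ = _ := by simp)
  have e : qf B * R ^ 2 = ∑ i, ∑ j, M (x i) (y j) * M (x j) (y i) := by
    unfold qf
    rw [← sum_fiberwise (s := univ) (g := y)
      (f := fun i => ∑ j, M (x i) (y j) * M (x j) (y i)), sum_mul]
    refine sum_congr rfl fun b _ => ?_
    rw [sum_comm, ← sum_fiberwise (s := univ) (g := y)
      (f := fun j => ∑ i ∈ univ.filter (fun i => y i = b), M (x i) (y j) * M (x j) (y i)), sum_mul]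
    refine sum_congr rfl fun b' _ => ?_
    have : B b b' * B b' b * R ^ 2 = (∑ i ∈ univ.filter (fun i => y i = b), M (x i) b') *
        (∑ j ∈ univ.filter (fun i => y i = b'), M (x j) b) := by
      simp only [B]; field_simp
    rw [this, sum_mul_sum, sum_comm]
    refine sum_congr rfl fun j hj => sum_congr rfl fun i hi => ?_
    rw [(mem_filter.1 hi).2, (mem_filter.1 hj).2]
  rw [← e]
  have := mul_le_mul_of_nonneg_right hq (sq_nonneg R)
  calc _ ≤ _ := this
    _ = _ := by ring

end Pool.Agent.Lib.MP_ee21b2_co
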