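import Pool.Agent.Lib.MP_ee21b2_co.Two

set_option autoImplicit false
set_option linter.unusedSectionVars false

namespace Pool.Agent.Lib.MP_ee21b2_co

open Finset

variable {V Y : Type} [Fintype V] [DecidableEq V] [DecidableEq Y]
variable {Ys : Finset Y} {U : Y → Finset V} {col : Y → V} {α : V → ℤ} {y1 y2 z0 : Y} {e1 e2 o : V}

/-- Signed flow across a cut. -/
def xz (σ χ : V × V → ℤ) (W : Finset V) : ℤ := ∑ e, |io W e| * σ e * χ e

def lin (Ys : Finset Y) (U : Y → Finset V) (σ χ : V × V → ℤ) : ℤ := ∑ z ∈ Ys, xz σ χ (U z)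

theorem lin_eq (σ χ : V × V → ℤ) : lin Ys U σ χ = ∑ e, len Ys U e * (σ e * χ e) := by
  unfold lin xz len
  rw [sum_comm]
  refine sum_congr rfl fun e _ => ?_
  rw [sum_mul]
  exact sum_congr rfl fun z _ => by ring

theorem even_xz (σ χ : V × V → ℤ) (hσ : ∀ e, σ e = 1 ∨ σ e = -1) (W : Finset V) :
    Even (xz σ χ W - out χ W) := even_signed χ σ hσ W

theorem Sp.len1 (h : Sp Ys U col y1 y2 e1 e2 z0) : len Ys U (e1, col y1) = 1 := by
  unfold len
  rw [sum_eq_single_of_mem y2 h.h2 fun z hz hne => by rw [h.io1 hz hne]; simp,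
    abs_io_of_ne h.io_ne]

theorem Sp.len2 (h : Sp Ys U col y1 y2 e1 e2 z0) : len Ys U (e2, col y2) = 1 := h.swap.len1

theorem unit_flow {Fp : Finset (V × V)} (hfor : Forest Fp (free Ys U))
    (hz : ∀ W, Clo Fp (free Ys U) W → bet Ys col W = 0) {b : V × V → ℤ} (hb : On Fp b)
    (hb' : ∀ v, ¬ free Ys U v → out b {v} = bet Ys col {v}) {y : Y} (hy : y ∈ Ys) :
    ∃ p : V × V → ℤ, On Fp p ∧ (∀ v, ¬ free Ys U v → out p {v} = if v = col y then 1 else 0) ∧
      ∀ e, |p e| ≤ 1 ∧ 0 ≤ p e * b e := by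
  obtain ⟨p, hp, hp'⟩ := solve Fp (free Ys U) (fun v => if v = col y then 1 else 0) fun W hW => by
    simp [bet_eq_zero.1 (hz W hW) y hy]
  refine ⟨p, hp, hp', fun e => ?_⟩
  by_cases he : e ∈ Fp
  · obtain ⟨W, hW, hio⟩ := hfor.cut he
    have h1 := out_of_div hp' hW.2
    have h2 := out_of_div hb' hW.2
    rw [out_cut hp hW.1] at h1
    rw [out_cut hb hW.1, ← bet_eq_sum] at h2
    simp only [sum_ite_eq', Int.cast_id] at h1 h2
    have h3 : (0 : ℤ) ≤ bet Ys col W := Int.natCast_nonneg _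
    rcases io_cases W e with h | h | h
    · exact absurd h hio
    · rw [h] at h1 h2
      split_ifs at h1
      · rw [show p e = 1 by linarith]; exact ⟨by simp, by linarith⟩
      · rw [show p e = 0 by linarith]; simp
    · rw [h] at h1 h2
      split_ifs at h1
      · rw [show p e = -1 by linarith]; exact ⟨by simp, by linarith⟩
      · rw [show p e = 0 by linarith]; simp
  · simp [hp e he]

section

variable {F FR : Finset (V × V)} {l1 l2 : V × V} {σ b p n : V × V → ℤ} {s : ℤ}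

theorem term_nonneg (hal : ∀ e ∈ F, e ∉ FR → 0 < σ e * s * b e) (hp : On (ins F l1 l2) p)
    (hpb : ∀ e, 0 ≤ p e * b e) {e : V × V} (he : e ∉ ins FR l1 l2) : 0 ≤ σ e * (s * p e) := by
  rw [mem_ins] at he
  push Not at he
  by_cases h : e ∈ F
  · have h1 := hal e h he.2.2
    have h2 := hpb e
    by_contra h3
    push Not at h3
    have h4 : 0 < (σ e * s * b e) * (- (σ e * (s * p e))) := mul_pos h1 (by linarith)
    nlinarith [mul_nonneg (mul_self_nonneg (σ e * s)) h2]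
  · rw [hp e (by rw [mem_ins]; tauto)]; simp

theorem term_ge (hσ : ∀ e, σ e = 1 ∨ σ e = -1) (hs : s = 1 ∨ s = -1) (e : V × V) :
    - |p e| ≤ σ e * (s * p e) := by
  have h1 := neg_abs_le (p e)
  have h2 := le_abs_self (p e)
  rcases hσ e with h | h <;> rcases hs with h' | h' <;> rw [h, h'] <;> linarith

theorem xz_ge (hσ : ∀ e, σ e = 1 ∨ σ e = -1) (hs : s = 1 ∨ s = -1)
    (hal : ∀ e ∈ F, e ∉ FR → 0 < σ e * s * b e) (hp : On (ins F l1 l2) p)
    (hpb : ∀ e, 0 ≤ p e * b e) (W : Finset V) :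
    - (∑ e, |io W e| * if e ∈ FR then |p e| else 0) - |io W l1| * |p l1| - |io W l2| * |p l2|
      ≤ xz σ (fun e => s * p e) W := by
  have h1 : |io W l1| * |p l1| = ∑ e, if e = l1 then |io W e| * |p e| else 0 := by simp
  have h2 : |io W l2| * |p l2| = ∑ e, if e = l2 then |io W e| * |p e| else 0 := by simp
  rw [h1, h2, ← sum_neg_distrib, ← sum_sub_distrib, ← sum_sub_distrib]
  refine sum_le_sum fun e _ => ?_
  have h3 := mul_le_mul_of_nonneg_left (term_ge (p := p) hσ hs e) (abs_nonneg (io W e))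
  have h4 := mul_nonneg (abs_nonneg (io W e)) (abs_nonneg (p e))
  by_cases he : e ∈ ins FR l1 l2
  · rw [mem_ins] at he
    split_ifs <;> first | nlinarith | tauto
  · have h5 := mul_nonneg (abs_nonneg (io W e)) (term_nonneg hal hp hpb he)
    rw [mem_ins] at he
    push Not at he
    simp only [he.1, he.2.1, he.2.2, if_false]
    linarith

theorem kz_le (hp1 : ∀ e, |p e| ≤ 1) (hn : ∀ e ∈ FR, n e ≠ 0) (W : Finset V) :
    (∑ e, |io W e| * if e ∈ FR then |p e| else 0) ≤ cz n W := by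
  refine sum_le_sum fun e _ => ?_
  rw [mul_comm]
  refine mul_le_mul_of_nonneg_right ?_ (abs_nonneg _)
  split_ifs with h
  · exact (hp1 e).trans (Int.one_le_abs (hn e h))
  · exact abs_nonneg _

theorem kz_lt (hp1 : ∀ e, |p e| ≤ 1) (hn : ∀ e ∈ FR, n e ≠ 0) (W : Finset V) {e0 : V × V}
    (h1 : e0 ∈ FR) (h2 : io W e0 ≠ 0) (h3 : p e0 = 0) :
    (∑ e, |io W e| * if e ∈ FR then |p e| else 0) < cz n W := by
  refine sum_lt_sum (fun e _ => ?_) ⟨e0, mem_univ _, ?_⟩
  · rw [mul_comm]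
    refine mul_le_mul_of_nonneg_right ?_ (abs_nonneg _)
    split_ifs with h
    · exact (hp1 e).trans (Int.one_le_abs (hn e h))
    · exact abs_nonneg _
  · have := Int.one_le_abs (hn e0 h1)
    simp only [h1, h3, abs_io_of_ne h2, if_true, abs_zero, mul_zero, Int.cast_one, mul_one]
    omega

theorem xz_nonneg (hal : ∀ e ∈ F, e ∉ FR → 0 < σ e * s * b e) (hp : On (ins F l1 l2) p)
    (hpb : ∀ e, 0 ≤ p e * b e) {W : Finset V} (hW : Unc (ins FR l1 l2) W) (e : V × V) :
    0 ≤ |io W e| * σ e * (s * p e) := by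
  by_cases he : e ∈ ins FR l1 l2
  · simp [io_eq_zero.2 (hW e he)]
  · rw [mul_assoc]
    exact mul_nonneg (abs_nonneg _) (term_nonneg hal hp hpb he)

theorem xz_pos {fr : V → Prop} (hfor : Forest (ins F l1 l2) fr) (hσ : ∀ e, σ e = 1 ∨ σ e = -1)
    (hs : s = 1 ∨ s = -1) (hal : ∀ e ∈ F, e ∉ FR → 0 < σ e * s * b e) (hp : On (ins F l1 l2) p)
    (hpb : ∀ e, 0 ≤ p e * b e) {W : Finset V} (hW : Unc (ins FR l1 l2) W)
    (hdiv : ∀ v ∈ W, ¬ fr v → out p {v} = 0) {e0 : V × V} (h1 : e0.1 ∈ W) (h2 : e0.2 ∈ W)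
    (h3 : p e0 ≠ 0) : 0 < xz σ (fun e => s * p e) W := by
  by_contra hc
  have h4 := (sum_eq_zero_iff_of_nonneg fun e _ => xz_nonneg hal hp hpb hW e).1
    (le_antisymm (not_lt.1 hc) (sum_nonneg fun e _ => xz_nonneg hal hp hpb hW e))
  have h5 : ∀ e, io W e ≠ 0 → p e = 0 := fun e he => by
    have := h4 e (mem_univ e)
    rw [abs_io_of_ne he] at this
    rcases hσ e with h | h <;> rcases hs with h' | h' <;> rw [h, h'] at this <;> linarith
  have := hfor (fun e => ((if e.1 ∈ W ∧ e.2 ∈ W then p e else 0 : ℤ) : ℝ))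
    (fun e he => by simp [hp e he]) (fun v hv => by
      rw [out_cast, Int.cast_eq_zero]
      by_cases hvW : v ∈ W
      · refine Eq.trans (sum_congr rfl fun e _ => ?_) (hdiv v hvW hv)
        dsimp only
        split_ifs with h
        · rfl
        · by_cases h6 : io W e = 0
          · have h7 := io_eq_zero.1 h6
            have h8 : e.1 ≠ v := fun h' => h ⟨h' ▸ hvW, h7.1 (h' ▸ hvW)⟩
            have h9 : e.2 ≠ v := fun h' => h ⟨h7.2 (h' ▸ hvW), h' ▸ hvW⟩
            simp [io, h8, h9]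
          · simp [h5 e h6]
      · refine sum_eq_zero fun e _ => ?_
        dsimp only
        split_ifs with h
        · have h8 : e.1 ≠ v := fun h' => hvW (h' ▸ h.1)
          have h9 : e.2 ≠ v := fun h' => hvW (h' ▸ h.2)
          simp [io, h8, h9]
        · simp) e0
  simp [h1, h2, h3] at this

end

/-- After the flip between the two components the slope along the inner flow is nonnegative. -/
theorem inner_slope (hS : Sp Ys U col y1 y2 e1 e2 z0) (ho : free Ys U o) (ht : Odd (tt Ys U α))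
    (ih : Low V Ys) {θR x1 x2 : ℝ} {φR : V × V → ℝ}
    (hF : Feas Ys U col α θR (ext φR (e1, col y1) (e2, col y2) x1 x2))
    (hc : cost Ys U φR + |x1 - x2| ≤ 1) (hw : x1 ≠ x2) {m : ℕ} {Γ : Finset V} {zs zp yj : Y}
    {e0 : V × V} (T : TwoCl Ys U col y1 y2 e1 e2 z0 (supp φR) m Γ zs zp yj e0)
    (n1 : (e1, col y1) ∉ supp φR) {σ : V × V → ℤ} {s : ℤ}
    (σ1 : σ (e1, col y1) = s) (σ2 : σ (e2, col y2) = - s) (hsw : sg (x1 - x2) = s)
    (hσR : ∀ e ∈ supp φR, σ e = sg (φR e)) (n2 : (e2, col y2) ∉ supp φR) {ψ : V × V → ℤ}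
    (hψ : On (ins (supp φR) (e1, col y1) (e2, col y2)) ψ)
    (hψ' : ∀ v, ¬ free Ys U v → v ≠ col zs → v ≠ col zp → out ψ {v} = bet Ys col {v}) :
    0 ≤ lin Ys U σ (fun e => s * ψ e) := by
  set G := ins (supp φR) (e1, col y1) (e2, col y2) with hG
  set K := comp G (col y1) with hK
  have c1K : col y1 ∈ K := mem_comp_self _ _
  have hz0 : col z0 ∈ Γ := T.isc ▸ mem_comp_self _ _
  have e1K : e1 ∈ K := (unc_ins.1 T.cK.1).2.1.2 c1K
  have c2K : col y2 ∈ K := T.c2
  have e2K : e2 ∈ K := (unc_ins.1 T.cK.1).2.2.2 c2K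
  have nΓ : ∀ v ∈ K, v ∉ Γ := fun v hv => disjoint_left.1 T.disj hv
  have hS' := hS.flip T.disj (by simp only [← hG, ← hK, c1K, c2K, e1K, e2K, and_self])
    (by simp [nΓ _ c1K, nΓ _ c2K, nΓ _ e1K, nΓ _ e2K])
  have hfs : flip U col K Γ zs = U zs \ Γ := by
    ext v
    have h1 := @T.s6 v
    have h2 := nΓ _ T.s2
    have h3 : col zs ∈ K := T.s2
    rw [mem_flip T.disj, mem_sdiff]
    simp only [← hG, ← hK, h2, h3, true_and, false_and, or_false]
    exact ⟨fun h => ⟨by_contra fun h' => h ⟨fun h'' => absurd h'' h', fun h'' => h1 h''⟩,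
      fun h' => h ⟨fun _ => h', fun _ => h1 h'⟩⟩, fun h h' => h.2 (h'.1 h.1)⟩
  have hfp : flip U col K Γ zp = U zp \ K := by
    ext v
    have h1 := @T.p6 v
    have h3 : col zp ∈ Γ := T.p2
    have h2 : col zp ∉ K := fun h => nΓ _ h h3
    rw [mem_flip T.disj, mem_sdiff]
    simp only [← hG, ← hK, h2, h3, true_and, false_and, false_or]
    exact ⟨fun h => ⟨by_contra fun h' => h ⟨fun h'' => absurd h'' h', fun h'' => h1 h''⟩,
      fun h' => h ⟨fun _ => h', fun _ => h1 h'⟩⟩, fun h h' => h.2 (h'.1 h.1)⟩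
  have hns : ∀ y ∈ Ys, col y ∉ U zs \ Γ := fun y hy h => (T.all y hy).elim
    (fun h' => disjoint_left.1 T.s7 h' (mem_sdiff.1 h).1) (mem_sdiff.1 h).2
  have hnp : ∀ y ∈ Ys, col y ∉ U zp \ K := fun y hy h => (T.all y hy).elim
    (mem_sdiff.1 h).2 (fun h' => disjoint_left.1 T.p7 h' (mem_sdiff.1 h).1)
  have fs : free Ys (flip U col K Γ) (col zs) := hS'.good.free_of_bet T.s1 (hfs ▸ hns)
  have fp : free Ys (flip U col K Γ) (col zp) := hS'.good.free_of_bet T.p1 (hfp ▸ hnp)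
  have hP : Plus Ys (flip U col K Γ) col α y1 y2 e1 e2 := by
    refine del_one hS' (free_flip T.disj T.cK.2 T.cΓ.2 ho)
      (odd_tt_flip T.disj (hF.clo_ins T.cK) (hF.clo_ins T.cΓ) ht) ih T.s1 T.s3 T.s4
      (fun h => nΓ _ T.s2 (h ▸ hz0)) ?_
    have := hF.clo_ins ((hS.clo_U T.s1 T.s3 T.s4 T.s5).sdiff T.cΓ.1)
    rw [bet_eq_zero.2 hns] at this
    rw [hfs]
    exact_mod_cast (by simpa using this : (al α (U zs \ Γ) : ℝ) = 0)
  let f : V × V → ℝ := fun e => φR e + if e = (e1, col y1) then x1 - x2 else 0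
  let g : V × V → ℝ := ext (fun e => ((s * ψ e : ℤ) : ℝ)) (e1, col y1) (e2, col y2)
    (- ((s * ψ (e2, col y2) : ℤ) : ℝ)) (- ((s * ψ (e2, col y2) : ℤ) : ℝ))
  have hl := hS.l_ne
  have φ1 : φR (e1, col y1) = 0 := on_supp _ _ n1
  have φ2 : φR (e2, col y2) = 0 := on_supp _ _ n2
  have f1 : f (e1, col y1) = x1 - x2 := by simp [f, φ1]
  have g2 : g (e2, col y2) = 0 := by simp [g, ext, hl.symm]
  have hfe : ∀ e, e ≠ (e1, col y1) → f e = φR e := fun e he => by simp [f, he]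
  have hg0 : ∀ e, e ≠ (e1, col y1) → e ∉ supp φR → g e = 0 := fun e h1 h3 => by
    by_cases h2 : e = (e2, col y2)
    · rw [h2, g2]
    · have := hψ e (by rw [mem_ins]; tauto)
      simp [g, ext, h1, h2, this]
  have hfg : ∀ e, f e = 0 → g e = 0 := fun e he => by
    have h1 : e ≠ (e1, col y1) := fun h => sub_ne_zero.2 hw (by rw [← f1, ← h, he])
    exact hg0 e h1 (by rw [mem_supp, ← hfe e h1, he]; simp)
  obtain ⟨τ, hτ, hweak⟩ : ∃ τ : ℝ, 0 < τ ∧ ∀ e, 0 ≤ f e * (f e + τ * g e) := by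
    rcases first_hit f g with h | ⟨τ, h1, h2, -⟩
    · exact ⟨1, one_pos, fun e => by nlinarith [h e, mul_self_nonneg (f e)]⟩
    · exact ⟨τ, h1, h2⟩
  have hOn : On G (fun e => f e + τ * g e) := fun e he => by
    rw [mem_ins] at he
    push Not at he
    simp only [hfe e he.1, hg0 e he.1 he.2.2, on_supp φR e he.2.2]
    simp
  have h1 := hP (θR - τ * s) (x2 + τ * ((s * ψ (e2, col y2) : ℤ) : ℝ))
    (x2 + τ * ((s * ψ (e2, col y2) : ℤ) : ℝ)) (fun e => f e + τ * g e)
    (feas_of_nodes fun v hv => by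
      have hv' : ¬ free Ys U v := fun h => hv (free_flip T.disj T.cK.2 T.cΓ.2 h)
      have h2 := hF.node v hv'
      have h3 := hψ' v hv' (fun h => hv (h ▸ fs)) (fun h => hv (h ▸ fp))
      have h4 : out (fun e => ((s * ψ e : ℤ) : ℝ)) {v} = s * bet Ys col {v} := by
        rw [out_cast, out_mul, h3]; simp
      rw [out_ext] at h2
      rw [out_ext, out_add, out_mul]
      simp only [f, g]
      rw [out_add, out_single, out_ext, h4]
      linarith)
  rw [cost_flip hOn T.disj T.cK.1 T.cΓ.1, cost_eq, sum_abs_move _ f g hfg hweak, ← cost_eq] at h1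
  have h2 : cost Ys U f ≤ 1 := by
    have := cost_add_le (Ys := Ys) (U := U) φR (fun e => if e = (e1, col y1) then x1 - x2 else 0)
    rw [hS.cost_l1] at this
    linarith
  have h3 : ∑ e, (len Ys U e : ℝ) * (sg (f e) * g e) = (lin Ys U σ (fun e => s * ψ e) : ℤ) := by
    have h4 : ∑ e, (len Ys U e : ℝ) * (sg (f e) * g e) = ∑ e, (len Ys U e : ℝ) * (σ e * g e) := by
      refine sum_congr rfl fun e _ => ?_
      by_cases h5 : e = (e1, col y1)
      · rw [h5, f1, hsw, σ1]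
      · by_cases h6 : e ∈ supp φR
        · rw [hfe e h5, hσR e h6]
        · simp [hg0 e h5 h6]
    rw [h4, lin_eq]
    simp only [g, ext, mul_add, sum_add_distrib, mul_ite, mul_zero, sum_ite_eq', mem_univ, if_true,
      hS.len1, hS.len2, σ1, σ2]
    push_cast
    ring
  rw [h3] at h1
  have h5 : (0 : ℝ) ≤ (lin Ys U σ (fun e => s * ψ e) : ℤ) := by
    simp only [sub_self, abs_zero, add_zero] at h1
    by_contra h6
    nlinarith
  exact_mod_cast h5

theorem tB2 (hS : Sp Ys U col y1 y2 e1 e2 z0) (ho : free Ys U o) (ht : Odd (tt Ys U α))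
    (ih : Low V Ys) {θR x1 x2 : ℝ} {φR : V × V → ℝ}
    (hF : Feas Ys U col α θR (ext φR (e1, col y1) (e2, col y2) x1 x2))
    (hc : cost Ys U φR + |x1 - x2| ≤ 1) (hw : x1 ≠ x2) {m : ℕ} {Γ : Finset V} {zs zp yj : Y}
    {e0 : V × V} (T : TwoCl Ys U col y1 y2 e1 e2 z0 (supp φR) m Γ zs zp yj e0)
    {F : Finset (V × V)} (hsub : supp φR ⊆ F) (n1 : (e1, col y1) ∉ F) (n2 : (e2, col y2) ∉ F)
    (hfor : Forest (ins F (e1, col y1) (e2, col y2)) (free Ys U))
    (hz : ∀ W, Clo (ins F (e1, col y1) (e2, col y2)) (free Ys U) W → bet Ys col W = 0)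
    {b : V × V → ℤ} (hb : On (ins F (e1, col y1) (e2, col y2)) b)
    (hb' : ∀ v, ¬ free Ys U v → out b {v} = bet Ys col {v}) {σ : V × V → ℤ} {s : ℤ}
    (hσ : ∀ e, σ e = 1 ∨ σ e = -1) (hs : s = 1 ∨ s = -1)
    (σ1 : σ (e1, col y1) = s) (σ2 : σ (e2, col y2) = - s) (hsw : sg (x1 - x2) = s)
    (hσR : ∀ e ∈ supp φR, σ e = sg (φR e)) (hal : ∀ e ∈ F, e ∉ supp φR → 0 < σ e * s * b e)
    {n : V × V → ℤ} (hn : ∀ e ∈ supp φR, n e ≠ 0)
    (hK : ∑ z ∈ Ys, cz n (U z) + 1 ≤ m) : 0 ≤ lin Ys U σ (fun e => s * b e) := by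
  set G := ins (supp φR) (e1, col y1) (e2, col y2) with hG
  set K := comp G (col y1) with hKdef
  have hGF : G ⊆ ins F (e1, col y1) (e2, col y2) := insert_subset_insert _
    (insert_subset_insert _ hsub)
  have c1K : col y1 ∈ K := mem_comp_self _ _
  have e1K : e1 ∈ K := (unc_ins.1 T.cK.1).2.1.2 c1K
  have c2K : col y2 ∈ K := T.c2
  have e2K : e2 ∈ K := (unc_ins.1 T.cK.1).2.2.2 c2K
  have nΓ : ∀ v ∈ K, v ∉ Γ := fun v hv => disjoint_left.1 T.disj hv
  obtain ⟨ps, a1, a2, a3⟩ := unit_flow hfor hz hb hb' T.s1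
  obtain ⟨pp, b1, b2, b3⟩ := unit_flow hfor hz hb hb' T.p1
  obtain ⟨ψ, c1, c2⟩ := solve G (free Ys U) (fun v => (bet Ys col {v} : ℤ)
      - (if v = col zs then (m : ℤ) else 0) - (if v = col zp then (m : ℤ) else 0)) fun W hW => by
    rw [sum_sub_distrib, sum_sub_distrib, ← bet_eq_sum]
    simp only [sum_ite_eq']
    have h1 : (bet Ys col W : ℤ) = bet Ys col (W ∩ K) + bet Ys col (W ∩ Γ) := by
      rw [bet_eq, bet_eq, bet_eq, ← sum_add_distrib]
      refine sum_congr rfl fun y hy => ?_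
      rcases T.all y hy with h | h
      · simp [show col y ∈ K from h, nΓ _ h]
      · simp [h, show col y ∉ K from fun h' => nΓ _ h' h]
    have h2 : (bet Ys col (W ∩ K) : ℤ) = if col zs ∈ W then (m : ℤ) else 0 := by
      split_ifs with h
      · rw [inter_eq_right.2 (comp_subset' hW.1 T.s2 h), T.bK]
      · rw [bet_eq_zero.2 fun y _ h' =>
          h (comp_subset' hW.1 (mem_inter.1 h').2 (mem_inter.1 h').1 T.s2)]
        simp
    have h3 : (bet Ys col (W ∩ Γ) : ℤ) = if col zp ∈ W then (m : ℤ) else 0 := by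
      have hc' : ∀ v ∈ Γ, v ∈ W → Γ ⊆ W := by
        rw [T.isc]; exact fun v h1 h2 => comp_subset' hW.1 h1 h2
      split_ifs with h
      · rw [inter_eq_right.2 (hc' _ T.p2 h), T.bΓ]
      · rw [bet_eq_zero.2 fun y _ h' => h (hc' _ (mem_inter.1 h').2 (mem_inter.1 h').1 T.p2)]
        simp
    rw [h1, h2, h3]
    ring
  have hψ := inner_slope hS ho ht ih hF hc hw T (fun h => n1 (hsub h)) σ1 σ2 hsw hσR
    (fun h => n2 (hsub h)) c1 fun v hv h1 h2 => by rw [c2 v hv]; simp [h1, h2]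
  have hdec : ∀ e, b e = ψ e + m * ps e + m * pp e := fun e => by
    have := hfor.unique (φ := fun e => (b e : ℝ))
      (χ := fun e => ((ψ e + m * ps e + m * pp e : ℤ) : ℝ)) (fun e he => by simp [hb e he])
      (fun e he => by simp [c1.mono hGF e he, a1 e he, b1 e he]) (fun v hv => by
        rw [out_cast, out_cast, out_add, out_add, out_mul, out_mul, hb' v hv, c2 v hv, a2 v hv,
          b2 v hv]
        congr 1
        split_ifs <;> ring) e
    exact_mod_cast this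
  have hlin : lin Ys U σ (fun e => s * b e) = lin Ys U σ (fun e => s * ψ e)
      + m * ∑ z ∈ Ys, (xz σ (fun e => s * ps e) (U z) + xz σ (fun e => s * pp e) (U z)) := by
    rw [sum_add_distrib]
    change _ = _ + m * (lin Ys U σ _ + lin Ys U σ _)
    simp only [lin_eq, mul_add, mul_sum, ← sum_add_distrib]
    exact sum_congr rfl fun e _ => by rw [hdec e]; ring
  have hodd : ∀ z ∈ Ys, Odd (xz σ (fun e => s * ps e) (U z) + xz σ (fun e => s * pp e) (U z)) := by
    intro z hz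
    obtain ⟨u, hu⟩ := even_xz σ (fun e => s * ps e) hσ (U z)
    obtain ⟨v, hv⟩ := even_xz σ (fun e => s * pp e) hσ (U z)
    rw [out_mul, out_of_div a2 (not_free_U hz)] at hu
    rw [out_mul, out_of_div b2 (not_free_U hz)] at hv
    simp only [sum_ite_eq'] at hu hv
    have h1 : col zs ∈ U z ↔ col z ∈ U zs :=
      ⟨hS.good.symm _ T.s1 _ hz, hS.good.symm _ hz _ T.s1⟩
    have h2 : col zp ∈ U z ↔ col z ∈ U zp :=
      ⟨hS.good.symm _ T.p1 _ hz, hS.good.symm _ hz _ T.p1⟩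
    rw [Int.odd_iff]
    rcases T.all z hz with h | h
    · rw [if_neg (fun h' => disjoint_left.1 T.s7 h (h1.1 h'))] at hu
      rw [if_pos (h2.2 (T.p6 h))] at hv
      omega
    · rw [if_pos (h1.2 (T.s6 h))] at hu
      rw [if_neg (fun h' => disjoint_left.1 T.p7 h (h2.1 h'))] at hv
      omega
  have gs := xz_ge hσ hs hal a1 (fun e => (a3 e).2)
  have gp := xz_ge hσ hs hal b1 (fun e => (b3 e).2)
  have ks := kz_le (fun e => (a3 e).1) hn
  have kp := kz_le (fun e => (b3 e).1) hn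
  have i1 : ∀ z ∈ Ys, |io (U z) (e1, col y1)| = if z = y2 then 1 else 0 := fun z hz => by
    split_ifs with h
    · rw [h, abs_io_of_ne hS.io_ne]
    · rw [hS.io1 hz h, abs_zero]
  have i2 : ∀ z ∈ Ys, |io (U z) (e2, col y2)| = if z = y1 then 1 else 0 := fun z hz => by
    split_ifs with h
    · rw [h, abs_io_of_ne hS.swap.io_ne]
    · rw [hS.io2 hz h, abs_zero]
  let Φ : Y → ℤ := fun z => xz σ (fun e => s * ps e) (U z) + xz σ (fun e => s * pp e) (U z)
    + 2 * cz n (U z) - 1 + 2 * (if z = y1 then 1 else 0) + 2 * (if z = y2 then 1 else 0)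
  have s1 := (a3 (e1, col y1)).1
  have s2 := (a3 (e2, col y2)).1
  have s3 := (b3 (e1, col y1)).1
  have s4 := (b3 (e2, col y2)).1
  have hΦ : ∀ z ∈ Ys, 0 ≤ Φ z := fun z hz => by
    have h1 := gs (U z)
    have h2 := gp (U z)
    have h3 := ks (U z)
    have h4 := kp (U z)
    have h5 := Int.odd_iff.1 (hodd z hz)
    rw [i1 z hz, i2 z hz] at h1 h2
    simp only [Φ]
    split_ifs at h1 h2 ⊢ <;> omega
  have hgain : ∃ z ∈ Ys, 2 ≤ Φ z := by
    have hzp1 : zp ≠ y1 := fun h => nΓ _ c1K (h ▸ T.p2)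
    have hzp2 : zp ≠ y2 := fun h => nΓ _ c2K (h ▸ T.p2)
    have us := (hS.clo_U T.s1 T.s3 T.s4 T.s5).1
    have up' := (hS.clo_U T.p1 hzp1 hzp2 T.p5).1
    by_cases h1 : ps e0 = 0
    · by_cases h2 : pp (e1, col y1) = 0 ∧ pp (e2, col y2) = 0
      · have hyj : yj ∈ Ys := by rcases T.j1 with h | h <;> rw [h]; exacts [hS.h1, hS.h2]
        refine ⟨yj, hyj, ?_⟩
        have h3 := gs (U yj)
        have h4 := gp (U yj)
        have h5 := kz_lt (fun e => (a3 e).1) hn (U yj) T.j2 T.j4 h1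
        have h6 := kp (U yj)
        have h7 := Int.odd_iff.1 (hodd yj hyj)
        have h8 := hS.hne
        rw [i1 yj hyj, i2 yj hyj] at h3
        rw [h2.1, h2.2] at h4
        simp only [abs_zero, mul_zero, sub_zero] at h4
        simp only [Φ]
        rcases T.j1 with h | h
        · rw [if_neg (h ▸ h8), if_pos h] at h3
          rw [if_pos h, if_neg (h ▸ h8)]
          omega
        · rw [if_pos h, if_neg (h ▸ h8.symm)] at h3
          rw [if_neg (h ▸ h8.symm), if_pos h]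
          omega
      · refine ⟨zp, T.p1, ?_⟩
        have hdiv : ∀ v ∈ U zp, ¬ free Ys U v → out pp {v} = 0 := fun v hv hv' => by
          rw [b2 v hv', if_neg fun (h : v = col zp) => hS.good.loop _ T.p1 (h ▸ hv)]
        have h3 : 0 < xz σ (fun e => s * pp e) (U zp) := by
          rcases not_and_or.1 h2 with h | h
          · exact xz_pos hfor hσ hs hal b1 (fun e => (b3 e).2) up' hdiv (T.p6 e1K) (T.p6 c1K) h
          · exact xz_pos hfor hσ hs hal b1 (fun e => (b3 e).2) up' hdiv (T.p6 e2K) (T.p6 c2K) h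
        have h4 : 0 ≤ xz σ (fun e => s * ps e) (U zp) :=
          sum_nonneg fun e _ => xz_nonneg hal a1 (fun e => (a3 e).2) up' e
        obtain ⟨u, hu⟩ := even_xz σ (fun e => s * pp e) hσ (U zp)
        rw [out_mul, out_of_div b2 (not_free_U T.p1)] at hu
        simp only [sum_ite_eq', hS.good.loop _ T.p1, if_false] at hu
        have h5 := cz_nonneg n (U zp)
        have h7 := Int.odd_iff.1 (hodd zp T.p1)
        simp only [Φ, hzp1, hzp2, if_false]
        omega
    · refine ⟨zs, T.s1, ?_⟩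
      have hdiv : ∀ v ∈ U zs, ¬ free Ys U v → out ps {v} = 0 := fun v hv hv' => by
        rw [a2 v hv', if_neg fun (h : v = col zs) => hS.good.loop _ T.s1 (h ▸ hv)]
      have h3 : 0 < xz σ (fun e => s * ps e) (U zs) :=
        xz_pos hfor hσ hs hal a1 (fun e => (a3 e).2) us hdiv (T.s6 T.j3)
          (T.s6 (((unc_ins.1 T.cΓ.1).1 e0 T.j2).1 T.j3)) h1
      have h4 : 0 ≤ xz σ (fun e => s * pp e) (U zs) :=
        sum_nonneg fun e _ => xz_nonneg hal b1 (fun e => (b3 e).2) us e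
      obtain ⟨u, hu⟩ := even_xz σ (fun e => s * ps e) hσ (U zs)
      rw [out_mul, out_of_div a2 (not_free_U T.s1)] at hu
      simp only [sum_ite_eq', hS.good.loop _ T.s1, if_false] at hu
      have h5 := cz_nonneg n (U zs)
      have h7 := Int.odd_iff.1 (hodd zs T.s1)
      simp only [Φ, T.s3, T.s4, if_false]
      omega
  obtain ⟨z, hz', hz''⟩ := hgain
  have h1 := hz''.trans (single_le_sum hΦ hz')
  have hN : (Ys.card : ℤ) = 2 * m := by
    have h2 := bet_union (Ys := Ys) (col := col) T.disj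
    have h3 : bet Ys col (K ∪ Γ) = Ys.card := by
      unfold bet
      rw [filter_true_of_mem fun y hy => mem_union.2 (T.all y hy)]
    rw [h3, T.bK, T.bΓ] at h2
    omega
  simp only [Φ, sum_add_distrib, sum_sub_distrib, ← mul_sum, sum_ite_eq', hS.h1, hS.h2, if_true,
    sum_const, nsmul_eq_mul, mul_one, hN] at h1
  rw [hlin, sum_add_distrib]
  have h2 : (0 : ℤ) ≤ m := Int.natCast_nonneg m
  have h3 : 0 ≤ ∑ z ∈ Ys, xz σ (fun e => s * ps e) (U z)
    + ∑ z ∈ Ys, xz σ (fun e => s * pp e) (U z) := by linarith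
  exact add_nonneg hψ (mul_nonneg h2 h3)

end Pool.Agent.Lib.MP_ee21b2_co
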