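import Pool.Agent.Lib.MP_ee21b2_co.Inst

set_option autoImplicit false
set_option linter.unusedSectionVars false

namespace Pool.Agent.Lib.MP_ee21b2_co

open Finset

variable {V Y : Type} [Fintype V] [DecidableEq V] [DecidableEq Y]

/-- An instance with a special pair of non-twin columns. -/
structure Sp (Ys : Finset Y) (U : Y → Finset V) (col : Y → V) (y1 y2 : Y) (e1 e2 : V) (z0 : Y) :
    Prop where
  good : Good Ys U col
  h1 : y1 ∈ Ys
  h2 : y2 ∈ Ys
  hne : y1 ≠ y2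
  a1 : ∀ z ∈ Ys, z ≠ y2 → (e1 ∈ U z ↔ col y1 ∈ U z)
  b1 : ¬ (e1 ∈ U y2 ↔ col y1 ∈ U y2)
  a2 : ∀ z ∈ Ys, z ≠ y1 → (e2 ∈ U z ↔ col y2 ∈ U z)
  b2 : ¬ (e2 ∈ U y1 ↔ col y2 ∈ U y1)
  hz : z0 ∈ Ys
  n1 : z0 ≠ y1
  n2 : z0 ≠ y2
  tw : ¬ (col y1 ∈ U z0 ↔ col y2 ∈ U z0)

/-- Add flow on the two special pairs. -/
def ext (φ : V × V → ℝ) (l1 l2 : V × V) (x1 x2 : ℝ) : V × V → ℝ :=
  fun e => φ e + (if e = l1 then x1 else 0) + (if e = l2 then x2 else 0)

theorem out_ext (φ : V × V → ℝ) (l1 l2 : V × V) (x1 x2 : ℝ) (W : Finset V) :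
    out (ext φ l1 l2 x1 x2) W = out φ W + x1 * io W l1 + x2 * io W l2 := by
  unfold ext
  rw [out_add, out_add, out_single, out_single]

theorem ext_comm (φ : V × V → ℝ) (l1 l2 : V × V) (x1 x2 : ℝ) :
    ext φ l1 l2 x1 x2 = ext φ l2 l1 x2 x1 := by
  funext e
  unfold ext
  ring

def Plus (Ys : Finset Y) (U : Y → Finset V) (col : Y → V) (α : V → ℤ) (y1 y2 : Y) (e1 e2 : V) :
    Prop :=
  ∀ (θ x1 x2 : ℝ) (φ : V × V → ℝ), Feas Ys U col α θ (ext φ (e1, col y1) (e2, col y2) x1 x2) →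
    1 ≤ cost Ys U φ + |x1 - x2|

def Low (V : Type) [Fintype V] [DecidableEq V] (Ys : Finset Y) : Prop :=
  ∀ Ys' ⊂ Ys, ∀ (U : Y → Finset V) (col : Y → V) (α : V → ℤ) (y1 y2 : Y) (e1 e2 : V) (z0 : Y)
    (o : V), Sp Ys' U col y1 y2 e1 e2 z0 → free Ys' U o → Odd (tt Ys' U α) →
      Plus Ys' U col α y1 y2 e1 e2

variable {Ys : Finset Y} {U : Y → Finset V} {col : Y → V} {α : V → ℤ} {y1 y2 z0 : Y} {e1 e2 o : V}

theorem Sp.swap (h : Sp Ys U col y1 y2 e1 e2 z0) : Sp Ys U col y2 y1 e2 e1 z0 :=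
  ⟨h.good, h.h2, h.h1, h.hne.symm, h.a2, h.b2, h.a1, h.b1, h.hz, h.n2, h.n1,
    fun h' => h.tw h'.symm⟩

theorem Sp.io1 (h : Sp Ys U col y1 y2 e1 e2 z0) {z : Y} (hz : z ∈ Ys) (hne : z ≠ y2) :
    io (U z) (e1, col y1) = 0 := io_eq_zero.2 (h.a1 z hz hne)

theorem Sp.io2 (h : Sp Ys U col y1 y2 e1 e2 z0) {z : Y} (hz : z ∈ Ys) (hne : z ≠ y1) :
    io (U z) (e2, col y2) = 0 := io_eq_zero.2 (h.a2 z hz hne)

theorem Sp.io_ne (h : Sp Ys U col y1 y2 e1 e2 z0) : io (U y2) (e1, col y1) ≠ 0 :=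
  fun h' => h.b1 (io_eq_zero.1 h')

theorem Sp.adj (h : Sp Ys U col y1 y2 e1 e2 z0) : col y1 ∈ U y2 ↔ col y2 ∈ U y1 :=
  ⟨h.good.symm _ h.h1 _ h.h2, h.good.symm _ h.h2 _ h.h1⟩

theorem Sp.io_eq (h : Sp Ys U col y1 y2 e1 e2 z0) :
    io (U y1) (e2, col y2) = io (U y2) (e1, col y1) := by
  have h1 := h.b1
  have h2 := h.b2
  have h3 := h.adj
  unfold io
  by_cases h4 : col y1 ∈ U y2 <;> simp_all

theorem Sp.e1_y1 (h : Sp Ys U col y1 y2 e1 e2 z0) : e1 ∉ U y1 :=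
  fun h' => h.good.loop _ h.h1 ((h.a1 _ h.h1 h.hne).1 h')

theorem Sp.e2_y2 (h : Sp Ys U col y1 y2 e1 e2 z0) : e2 ∉ U y2 := h.swap.e1_y1

theorem Sp.l_ne (h : Sp Ys U col y1 y2 e1 e2 z0) : (e1, col y1) ≠ (e2, col y2) :=
  fun h' => h.tw (by rw [show col y1 = col y2 from congrArg Prod.snd h'])

theorem Sp.sub (h : Sp Ys U col y1 y2 e1 e2 z0) {Ys' : Finset Y} (hs : Ys' ⊆ Ys)
    (h1 : y1 ∈ Ys') (h2 : y2 ∈ Ys') (h0 : z0 ∈ Ys') : Sp Ys' U col y1 y2 e1 e2 z0 :=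
  ⟨h.good.sub hs, h1, h2, h.hne, fun z hz => h.a1 z (hs hz), h.b1, fun z hz => h.a2 z (hs hz),
    h.b2, h0, h.n1, h.n2, h.tw⟩

theorem Sp.cost_l1 (h : Sp Ys U col y1 y2 e1 e2 z0) (r : ℝ) :
    cost Ys U (fun e => if e = (e1, col y1) then r else 0) = |r| := by
  unfold cost
  rw [sum_eq_single_of_mem y2 h.h2 fun z hz hne => by rw [cz_single, h.io1 hz hne]; simp,
    cz_single, abs_io_of_ne h.io_ne]
  simp

theorem Sp.out_U (h : Sp Ys U col y1 y2 e1 e2 z0) {θ x1 x2 : ℝ} {φ : V × V → ℝ}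
    (hF : Feas Ys U col α θ (ext φ (e1, col y1) (e2, col y2) x1 x2)) {z : Y} (hz : z ∈ Ys)
    (h1 : z ≠ y1) (h2 : z ≠ y2) : out φ (U z) = al α (U z) - θ * bet Ys col (U z) := by
  have := hF (U z) (not_free_U hz)
  rw [out_ext, h.io1 hz h2, h.io2 hz h1] at this
  simpa using this

theorem Sp.flip (h : Sp Ys U col y1 y2 e1 e2 z0) {A B : Finset V} (hAB : Disjoint A B)
    (hA : (e1 ∈ A ↔ col y1 ∈ A) ∧ (e2 ∈ A ↔ col y1 ∈ A) ∧ (col y2 ∈ A ↔ col y1 ∈ A))
    (hB : (e1 ∈ B ↔ col y1 ∈ B) ∧ (e2 ∈ B ↔ col y1 ∈ B) ∧ (col y2 ∈ B ↔ col y1 ∈ B)) :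
    Sp Ys (flip U col A B) col y1 y2 e1 e2 z0 := by
  obtain ⟨hA1, hA2, hA3⟩ := hA
  obtain ⟨hB1, hB2, hB3⟩ := hB
  have aux : ∀ P Q R : Prop, ¬ (P ↔ Q) → ¬ (¬ (P ↔ R) ↔ ¬ (Q ↔ R)) := by tauto
  refine ⟨h.good.flip hAB, h.h1, h.h2, h.hne, fun z hz hne => ?_, ?_, fun z hz hne => ?_, ?_,
    h.hz, h.n1, h.n2, ?_⟩
  · simp only [mem_flip hAB, h.a1 z hz hne, hA1, hB1]
  · simp only [mem_flip hAB, hA1, hB1]
    exact aux _ _ _ h.b1
  · simp only [mem_flip hAB, h.a2 z hz hne, hA2, hB2, hA3, hB3]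
  · simp only [mem_flip hAB, hA2, hB2, hA3, hB3]
    exact aux _ _ _ h.b2
  · simp only [mem_flip hAB, hA3, hB3]
    exact aux _ _ _ h.tw

theorem free_flip {A B : Finset V} (hAB : Disjoint A B) (hA : ∀ v ∈ A, ¬ free Ys U v)
    (hB : ∀ v ∈ B, ¬ free Ys U v) {v : V} (hv : free Ys U v) : free Ys (flip U col A B) v := by
  intro z hz
  have h1 := hv z hz
  have h2 : v ∉ A := fun h' => hA v h' hv
  have h3 : v ∉ B := fun h' => hB v h' hv
  simp only [mem_flip hAB]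
  tauto

/-- Deleting a set of twin columns. -/
theorem del (hS : Sp Ys U col y1 y2 e1 e2 z0) (ho : free Ys U o) (ht : Odd (tt Ys U α))
    (ih : Low V Ys) {Γ : Finset Y} (hΓ : Γ ⊆ Ys) {zz : Y} (hzz : zz ∈ Γ) (n1 : y1 ∉ Γ)
    (n2 : y2 ∉ Γ) (n0 : z0 ∉ Γ) (hsame : ∀ z ∈ Γ, ∀ w ∈ Ys, col z ∈ U w ↔ col zz ∈ U w)
    (θ' : ℝ) (p : ℤ) (hp : θ' * Γ.card = p)
    (hal : ∀ z ∈ Γ, (al α (U z) : ℝ) = θ' * bet Ys col (U z)) :
    Plus Ys U col α y1 y2 e1 e2 := by
  intro θ x1 x2 φ hF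
  have hG := hS.good
  set d := bet Ys col (U zz) with hd
  have hbet : ∀ z ∈ Γ, bet Ys col (U z) = d := fun z hz => by
    unfold bet at hd ⊢
    rw [hd]
    congr 1
    refine filter_congr fun y hy => ⟨fun h => ?_, fun h => ?_⟩
    · exact hG.symm _ (hΓ hzz) _ hy ((hsame z hz y hy).1 (hG.symm _ hy _ (hΓ hz) h))
    · exact hG.symm _ (hΓ hz) _ hy ((hsame z hz y hy).2 (hG.symm _ hy _ (hΓ hzz) h))
  have hd' : ∑ w ∈ Ys \ Γ, (if col zz ∈ U w then (1 : ℤ) else 0) = d := by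
    rw [hd, bet_eq, ← sum_sdiff hΓ]
    have : ∑ y ∈ Γ, (if col y ∈ U zz then (1 : ℤ) else 0) = 0 := sum_eq_zero fun y hy =>
      if_neg fun h => hG.loop _ (hΓ hzz) ((hsame y hy zz (hΓ hzz)).1 h)
    rw [this, add_zero]
    refine sum_congr rfl fun w hw => ?_
    have hw' := (mem_sdiff.1 hw).1
    have : col zz ∈ U w ↔ col w ∈ U zz := ⟨hG.symm _ (hΓ hzz) _ hw', hG.symm _ hw' _ (hΓ hzz)⟩
    simp only [this]
  let α' : V → ℤ := fun v => α v - if v = col zz then p else 0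
  have hal' : ∀ W, al α' W = al α W - p * if col zz ∈ W then 1 else 0 := fun W => by
    simp [α', al, sum_sub_distrib]
  have hsum : ∑ z ∈ Γ, al α (U z) = p * d := by
    have : ((∑ z ∈ Γ, al α (U z) : ℤ) : ℝ) = p * d := by
      push_cast
      rw [sum_congr rfl fun z hz => (hal z hz).trans (by rw [hbet z hz]), sum_const, ← hp]
      simp
      ring
    exact_mod_cast this
  have ht' : Odd (tt (Ys \ Γ) U α') := by
    have : tt (Ys \ Γ) U α' = tt Ys U α - 2 * (p * d) := by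
      unfold tt
      rw [← sum_sdiff hΓ, hsum]
      simp only [hal']
      rw [sum_sub_distrib, ← mul_sum, hd']
      ring
    rw [this]
    exact ht.sub_even (even_two_mul _)
  let χ : V × V → ℝ := fun e => (∑ z ∈ Γ, if e = (col z, col zz) then θ else 0)
    + if e = (col zz, o) then θ * Γ.card - p else 0
  have hss : Ys \ Γ ⊂ Ys := sdiff_ssubset hΓ ⟨zz, hzz⟩
  have hfo : free (Ys \ Γ) U o := fun w hw => ho w (mem_sdiff.1 hw).1
  have key := ih _ hss U col α' y1 y2 e1 e2 z0 o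
    (hS.sub sdiff_subset (mem_sdiff.2 ⟨hS.h1, n1⟩) (mem_sdiff.2 ⟨hS.h2, n2⟩)
      (mem_sdiff.2 ⟨hS.hz, n0⟩)) hfo ht' θ x1 x2 (fun e => φ e + χ e) (by
    intro W hW
    have h1 := hF W fun v hv hf => hW v hv fun w hw => hf w (mem_sdiff.1 hw).1
    have hoW : o ∉ W := fun h => hW o h hfo
    rw [out_ext] at h1
    rw [out_ext, out_add, hal']
    have h2 : out χ W = θ * (∑ z ∈ Γ, if col z ∈ W then 1 else 0)
        - p * if col zz ∈ W then 1 else 0 := by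
      simp only [χ]
      rw [out_add, out_sum, out_single]
      simp only [out_single, io, hoW]
      push_cast
      rw [← mul_sum, sum_sub_distrib]
      simp only [sum_const, nsmul_eq_mul]
      ring
    have h3 : (bet Ys col W : ℤ) = bet (Ys \ Γ) col W + ∑ z ∈ Γ, if col z ∈ W then 1 else 0 := by
      rw [bet_eq, bet_eq, sum_sdiff hΓ]
    have h4 : (bet Ys col W : ℝ) = bet (Ys \ Γ) col W
        + ∑ z ∈ Γ, if col z ∈ W then 1 else 0 := by exact_mod_cast h3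
    rw [h2]
    push_cast
    rw [h4] at h1
    linarith)
  have h5 : cost (Ys \ Γ) U χ ≤ |θ * Γ.card - p| * d := by
    have hd'' : ∑ w ∈ Ys \ Γ, (if col zz ∈ U w then (1 : ℝ) else 0) = d := by exact_mod_cast hd'
    rw [← hd'', mul_sum]
    refine sum_le_sum fun w hw => ?_
    have hw' := (mem_sdiff.1 hw).1
    refine (cz_add_le _ _ _).trans ?_
    have h6 : cz (fun e => ∑ z ∈ Γ, if e = (col z, col zz) then θ else 0) (U w) ≤ 0 :=
      (cz_sum_le _ _ _).trans (le_of_eq (sum_eq_zero fun z hz => by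
        rw [cz_single, io_eq_zero.2 (hsame z hz w hw')]; simp))
    have h7 : cz (fun e => if e = (col zz, o) then θ * Γ.card - p else 0) (U w)
        = |θ * Γ.card - p| * if col zz ∈ U w then 1 else 0 := by
      rw [cz_single]
      by_cases h : col zz ∈ U w <;> simp [io, ho w hw', h]
    linarith
  have h8 : |θ * Γ.card - p| * d ≤ ∑ z ∈ Γ, cz φ (U z) := by
    have : ∑ _z ∈ Γ, |θ - θ'| * d = |θ * Γ.card - p| * d := by
      rw [sum_const, ← hp, ← sub_mul, abs_mul, Nat.abs_cast]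
      simp
      ring
    rw [← this]
    refine sum_le_sum fun z hz => le_trans (le_of_eq ?_) (abs_out_le φ (U z))
    rw [hS.out_U hF (hΓ hz) (fun h => n1 (h ▸ hz)) (fun h => n2 (h ▸ hz)), hal z hz, hbet z hz,
      ← sub_mul, abs_mul, Nat.abs_cast, abs_sub_comm]
  have h9 : cost Ys U φ = cost (Ys \ Γ) U φ + ∑ z ∈ Γ, cz φ (U z) := (sum_sdiff hΓ).symm
  have := cost_add_le (Ys := Ys \ Γ) (U := U) φ χ
  linarith

theorem del_one (hS : Sp Ys U col y1 y2 e1 e2 z0) (ho : free Ys U o) (ht : Odd (tt Ys U α))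
    (ih : Low V Ys) {z : Y} (hz : z ∈ Ys) (n1 : z ≠ y1) (n2 : z ≠ y2) (n0 : z ≠ z0)
    (hal : al α (U z) = 0) : Plus Ys U col α y1 y2 e1 e2 :=
  del hS ho ht ih (singleton_subset_iff.2 hz) (mem_singleton_self z) (by simpa using n1.symm)
    (by simpa using n2.symm) (by simpa using n0.symm) (by simp) 0 0 (by simp) (by simp [hal])

/-! ### Block decompositions -/

def dg (U : Y → Finset V) (col : Y → V) (π : V → ℤ) (z : Y) : Finset V :=
  (U z).filter (fun v => π v = π (col z))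

def up (U : Y → Finset V) (col : Y → V) (π : V → ℤ) (z : Y) : Finset V :=
  (U z).filter (fun v => π (col z) < π v)

def dn (U : Y → Finset V) (col : Y → V) (π : V → ℤ) (z : Y) : Finset V :=
  (U z).filter (fun v => π v < π (col z))

variable {π : V → ℤ}

theorem mem_dg {z : Y} {v : V} : v ∈ dg U col π z ↔ v ∈ U z ∧ π v = π (col z) := mem_filter
theorem mem_up {z : Y} {v : V} : v ∈ up U col π z ↔ v ∈ U z ∧ π (col z) < π v := mem_filter
theorem mem_dn {z : Y} {v : V} : v ∈ dn U col π z ↔ v ∈ U z ∧ π v < π (col z) := mem_filter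

theorem sum_split {R : Type} [AddCommMonoid R] (f : V → R) (z : Y) :
    ∑ v ∈ U z, f v = ∑ v ∈ dg U col π z, f v + ∑ v ∈ up U col π z, f v
      + ∑ v ∈ dn U col π z, f v := by
  unfold dg up dn
  simp only [sum_filter]
  rw [← sum_add_distrib, ← sum_add_distrib]
  refine sum_congr rfl fun v _ => ?_
  rcases lt_trichotomy (π v) (π (col z)) with h | h | h
  · simp [h, h.ne, h.not_gt]
  · simp [h]
  · simp [h, h.ne', h.not_gt]

theorem al_split (z : Y) :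
    al α (U z) = al α (dg U col π z) + al α (up U col π z) + al α (dn U col π z) := sum_split _ z

theorem bet_split (z : Y) : (bet Ys col (U z) : ℤ) =
    bet Ys col (dg U col π z) + bet Ys col (up U col π z) + bet Ys col (dn U col π z) := by
  rw [bet_eq_sum, sum_split (col := col) (π := π), ← bet_eq_sum, ← bet_eq_sum, ← bet_eq_sum]

theorem cz_split {φ : V × V → ℝ} (hπ : ∀ e ∈ supp φ, π e.1 = π e.2) (z : Y) :
    cz φ (U z) = cz φ (dg U col π z) + cz φ (up U col π z) + cz φ (dn U col π z) := by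
  unfold cz
  rw [← sum_add_distrib, ← sum_add_distrib]
  refine sum_congr rfl fun e _ => ?_
  by_cases he : e ∈ supp φ
  · have h1 := hπ e he
    rw [← mul_add, ← mul_add]
    congr 1
    simp only [io, mem_dg, mem_up, mem_dn, h1]
    rcases lt_trichotomy (π e.2) (π (col z)) with h | h | h
    · simp [h, h.ne, h.not_gt]
    · simp [h]
    · simp [h, h.ne', h.not_gt]
  · simp [on_supp φ e he]

theorem Good.dg (h : Good Ys U col) : Good Ys (dg U col π) col :=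
  ⟨fun y hy z hz h' => mem_dg.2 ⟨h.symm y hy z hz (mem_dg.1 h').1, (mem_dg.1 h').2.symm⟩,
    fun y hy h' => h.loop y hy (mem_dg.1 h').1⟩

theorem Good.sum_up (h : Good Ys U col) :
    ∑ z ∈ Ys, (bet Ys col (up U col π z) : ℤ) = ∑ z ∈ Ys, (bet Ys col (dn U col π z) : ℤ) := by
  simp only [bet_eq]
  rw [sum_comm]
  refine sum_congr rfl fun y hy => sum_congr rfl fun z hz => ?_
  have : col y ∈ U z ↔ col z ∈ U y := ⟨h.symm _ hy _ hz, h.symm _ hz _ hy⟩
  simp only [mem_up, mem_dn, this]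

/-- The antisymmetric test value. -/
def toff (Ys : Finset Y) (U : Y → Finset V) (col : Y → V) (α : V → ℤ) (π : V → ℤ) : ℤ :=
  ∑ z ∈ Ys, (al α (up U col π z) - al α (dn U col π z))

def goff (Ys : Finset Y) (U : Y → Finset V) (col : Y → V) (π : V → ℤ) (l : V × V) : ℤ :=
  ∑ z ∈ Ys, (io (up U col π z) l - io (dn U col π z) l)

theorem even_tt_split : Even (tt Ys U α - tt Ys (dg U col π) α - toff Ys U col α π) := by
  unfold tt toff
  rw [← sum_sub_distrib, ← sum_sub_distrib]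
  refine even_sum _ fun z _ => ?_
  rw [al_split (col := col) (π := π)]
  exact ⟨al α (dn U col π z), by ring⟩

theorem off_bound (h : Good Ys U col) {θ x1 x2 : ℝ} {φ : V × V → ℝ} {l1 l2 : V × V}
    (hF : Feas Ys U col α θ (ext φ l1 l2 x1 x2)) (hπ : ∀ e ∈ supp φ, π e.1 = π e.2) :
    |(toff Ys U col α π : ℝ) - x1 * goff Ys U col π l1 - x2 * goff Ys U col π l2|
      ≤ cost Ys U φ - cost Ys (dg U col π) φ := by
  have h1 : (toff Ys U col α π : ℝ) - x1 * goff Ys U col π l1 - x2 * goff Ys U col π l2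
      = ∑ z ∈ Ys, (out φ (up U col π z) - out φ (dn U col π z)) := by
    have h2 : ∑ z ∈ Ys, (bet Ys col (up U col π z) : ℝ)
        = ∑ z ∈ Ys, (bet Ys col (dn U col π z) : ℝ) := by exact_mod_cast h.sum_up (π := π)
    have h3 : ∑ z ∈ Ys, (out φ (up U col π z) - out φ (dn U col π z))
        = ∑ z ∈ Ys, (((al α (up U col π z) - al α (dn U col π z) : ℤ) : ℝ)
          - x1 * ((io (up U col π z) l1 - io (dn U col π z) l1 : ℤ) : ℝ)
          - x2 * ((io (up U col π z) l2 - io (dn U col π z) l2 : ℤ) : ℝ)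
          - θ * (bet Ys col (up U col π z) - bet Ys col (dn U col π z))) := by
      refine sum_congr rfl fun z hz => ?_
      have h4 := hF (up U col π z) fun v hv => not_free_U hz v (mem_up.1 hv).1
      have h5 := hF (dn U col π z) fun v hv => not_free_U hz v (mem_dn.1 hv).1
      rw [out_ext] at h4 h5
      push_cast
      linarith
    rw [h3, sum_sub_distrib, sum_sub_distrib, sum_sub_distrib, ← mul_sum, ← mul_sum, ← mul_sum,
      sum_sub_distrib (f := fun z => (bet Ys col (up U col π z) : ℝ)), h2]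
    simp [toff, goff]
  rw [h1, cost, cost, ← sum_sub_distrib]
  refine (abs_sum_le_sum_abs _ _).trans (sum_le_sum fun z _ => ?_)
  rw [cz_split (col := col) hπ z]
  have := abs_sub (out φ (up U col π z)) (out φ (dn U col π z))
  linarith [abs_out_le φ (up U col π z), abs_out_le φ (dn U col π z)]

theorem cost_ext_le {D : Y → Finset V} {x1 x2 : ℝ} {φ : V × V → ℝ} {l1 l2 : V × V}
    (hd : ∀ z ∈ Ys, io (D z) l1 = 0 ∧ io (D z) l2 = 0) :
    cost Ys D (ext φ l1 l2 x1 x2) ≤ cost Ys D φ := by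
  refine sum_le_sum fun z hz => ?_
  have h1 := cz_add_le (fun e => φ e + if e = l1 then x1 else 0)
    (fun e => if e = l2 then x2 else 0) (D z)
  have h2 := cz_add_le φ (fun e => if e = l1 then x1 else 0) (D z)
  rw [cz_single, (hd z hz).2] at h1
  rw [cz_single, (hd z hz).1] at h2
  simp only [abs_zero, Int.cast_zero, mul_zero, add_zero] at h1 h2
  exact h1.trans h2

theorem diag_even {D : Y → Finset V} (h : Good Ys D col) {θ x1 x2 : ℝ} {φ : V × V → ℝ}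
    {l1 l2 : V × V} (hF : Feas Ys D col α θ (ext φ l1 l2 x1 x2))
    (hd : ∀ z ∈ Ys, io (D z) l1 = 0 ∧ io (D z) l2 = 0) (hc : cost Ys D φ < 1) :
    Even (tt Ys D α) := by
  by_contra h'
  have := thmB Ys D col α h (Int.not_even_iff_odd.1 h') θ _ hF
  linarith [cost_ext_le (x1 := x1) (x2 := x2) (φ := φ) hd]

theorem Feas.dg {θ : ℝ} {ψ : V × V → ℝ} (h : Feas Ys U col α θ ψ) :
    Feas Ys (dg U col π) col α θ ψ :=
  h.sub Subset.rfl (fun _ hv z hz h' => hv z hz (mem_dg.1 h').1) fun _ h1 h2 => absurd h1 h2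

theorem odd_toff (h : Good Ys U col) (ht : Odd (tt Ys U α)) {θ x1 x2 : ℝ} {φ : V × V → ℝ}
    {l1 l2 : V × V} (hF : Feas Ys U col α θ (ext φ l1 l2 x1 x2))
    (hd : ∀ z ∈ Ys, io (dg U col π z) l1 = 0 ∧ io (dg U col π z) l2 = 0)
    (hc : cost Ys (dg U col π) φ < 1) : Odd (toff Ys U col α π) := by
  obtain ⟨a, ha⟩ := diag_even h.dg hF.dg hd hc
  obtain ⟨b, hb⟩ := even_tt_split (Ys := Ys) (U := U) (col := col) (α := α) (π := π)
  obtain ⟨c, hc⟩ := ht
  exact ⟨c - a - b, by linarith⟩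

theorem block (h : Good Ys U col) (ht : Odd (tt Ys U α)) {θ x : ℝ} {φ : V × V → ℝ}
    {l1 l2 : V × V} (hF : Feas Ys U col α θ (ext φ l1 l2 x x)) (hπ : ∀ e ∈ supp φ, π e.1 = π e.2)
    (hd : ∀ z ∈ Ys, io (dg U col π z) l1 = 0 ∧ io (dg U col π z) l2 = 0)
    (hg : goff Ys U col π l1 + goff Ys U col π l2 = 0) : 1 ≤ cost Ys U φ := by
  have h1 := off_bound h hF hπ
  have h0 := cost_nonneg (Ys := Ys) (U := dg U col π) φ
  by_cases hc : cost Ys (dg U col π) φ < 1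
  · have h2 := one_le_abs_of_odd (odd_toff h ht hF hd hc)
    have h3 : (goff Ys U col π l1 : ℝ) + goff Ys U col π l2 = 0 := by exact_mod_cast hg
    have h4 : (toff Ys U col α π : ℝ) - x * goff Ys U col π l1 - x * goff Ys U col π l2
        = toff Ys U col α π := by linear_combination (-x) * h3
    rw [h4] at h1
    linarith
  · linarith [abs_nonneg ((toff Ys U col α π : ℝ) - x * goff Ys U col π l1
      - x * goff Ys U col π l2)]

/-- The indicator of a set. -/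
def ind (W : Finset V) (v : V) : ℤ := if v ∈ W then 1 else 0

theorem ind_eq {W : Finset V} {u v : V} : ind W u = ind W v ↔ (u ∈ W ↔ v ∈ W) := by
  unfold ind
  by_cases h1 : u ∈ W <;> by_cases h2 : v ∈ W <;> simp [h1, h2]

theorem ind_lt {W : Finset V} {u v : V} : ind W u < ind W v ↔ (u ∉ W ∧ v ∈ W) := by
  unfold ind
  by_cases h1 : u ∈ W <;> by_cases h2 : v ∈ W <;> simp [h1, h2]

theorem Sp.sep_dg (h : Sp Ys U col y1 y2 e1 e2 z0) {W : Finset V} (p1 : col y1 ∈ W) (p2 : e1 ∈ W)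
    (p3 : col y2 ∉ W) (p4 : e2 ∉ W) : ∀ z ∈ Ys, io (dg U col (ind W) z) (e1, col y1) = 0 ∧
      io (dg U col (ind W) z) (e2, col y2) = 0 := by
  intro z hz
  rw [io_eq_zero, io_eq_zero]
  simp only [mem_dg, ind_eq]
  constructor
  · by_cases h' : z = y2
    · subst h'; tauto
    · have := h.a1 z hz h'; tauto
  · by_cases h' : z = y1
    · subst h'; tauto
    · have := h.a2 z hz h'; tauto

theorem Sp.sep_g1 (h : Sp Ys U col y1 y2 e1 e2 z0) {W : Finset V} (p1 : col y1 ∈ W) (p2 : e1 ∈ W)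
    (p3 : col y2 ∉ W) : goff Ys U col (ind W) (e1, col y1) = io (U y2) (e1, col y1) := by
  unfold goff
  rw [sum_eq_single_of_mem y2 h.h2 fun z hz hne => ?_]
  · simp [io, mem_up, mem_dn, ind_lt, p1, p2, p3]
  · simp [io, mem_up, mem_dn, ind_lt, p1, p2, h.a1 z hz hne]

theorem Sp.sep_g2 (h : Sp Ys U col y1 y2 e1 e2 z0) {W : Finset V} (p1 : col y1 ∈ W)
    (p3 : col y2 ∉ W) (p4 : e2 ∉ W) :
    goff Ys U col (ind W) (e2, col y2) = - io (U y2) (e1, col y1) := by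
  unfold goff
  rw [sum_eq_single_of_mem y1 h.h1 fun z hz hne => ?_, ← h.io_eq]
  · simp [io, mem_up, mem_dn, ind_lt, p1, p3, p4]
  · simp [io, mem_up, mem_dn, ind_lt, p3, p4, h.a2 z hz hne]

/-- The two special pairs are separated by an uncrossed set. -/
theorem dc (h : Sp Ys U col y1 y2 e1 e2 z0) (ht : Odd (tt Ys U α)) {θ x : ℝ} {φ : V × V → ℝ}
    (hF : Feas Ys U col α θ (ext φ (e1, col y1) (e2, col y2) x x)) {W : Finset V}
    (hW : Unc (supp φ) W) (p1 : col y1 ∈ W) (p2 : e1 ∈ W) (p3 : col y2 ∉ W) (p4 : e2 ∉ W) :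
    1 ≤ cost Ys U φ :=
  block h.good ht hF (π := ind W) (fun e he => ind_eq.2 (hW e he)) (h.sep_dg p1 p2 p3 p4)
    (by rw [h.sep_g1 p1 p2 p3, h.sep_g2 p1 p3 p4]; ring)

end Pool.Agent.Lib.MP_ee21b2_co
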