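import Pool.Agent.Lib.MP_ee21b2_co.Spec

set_option autoImplicit false
set_option linter.unusedSectionVars false

namespace Pool.Agent.Lib.MP_ee21b2_co

open Finset

variable {V Y : Type} [Fintype V] [DecidableEq V] [DecidableEq Y]
variable {Ys : Finset Y} {U : Y → Finset V} {col : Y → V} {α : V → ℤ} {y1 y2 z0 : Y} {e1 e2 o : V}

def ins (F : Finset (V × V)) (l1 l2 : V × V) : Finset (V × V) := insert l1 (insert l2 F)

theorem unc_ins {F : Finset (V × V)} {l1 l2 : V × V} {W : Finset V} :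
    Unc (ins F l1 l2) W ↔ Unc F W ∧ (l1.1 ∈ W ↔ l1.2 ∈ W) ∧ (l2.1 ∈ W ↔ l2.2 ∈ W) := by
  simp only [Unc, ins, forall_mem_insert]
  tauto

theorem subset_ins (F : Finset (V × V)) (l1 l2 : V × V) : F ⊆ ins F l1 l2 :=
  (subset_insert _ _).trans (subset_insert _ _)

theorem mem_ins {F : Finset (V × V)} {l1 l2 e : V × V} :
    e ∈ ins F l1 l2 ↔ e = l1 ∨ e = l2 ∨ e ∈ F := by simp [ins]

theorem Feas.clo {θ x1 x2 : ℝ} {φ : V × V → ℝ} {l1 l2 : V × V}
    (hF : Feas Ys U col α θ (ext φ l1 l2 x1 x2)) {W : Finset V}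
    (hW : Clo (supp φ) (free Ys U) W) :
    (al α W : ℝ) = θ * bet Ys col W + x1 * io W l1 + x2 * io W l2 := by
  have := hF W hW.2
  rw [out_ext, out_unc (on_supp φ) hW.1] at this
  linarith

theorem Feas.clo_ins {θ x1 x2 : ℝ} {φ : V × V → ℝ} {l1 l2 : V × V}
    (hF : Feas Ys U col α θ (ext φ l1 l2 x1 x2)) {W : Finset V}
    (hW : Clo (ins (supp φ) l1 l2) (free Ys U) W) : (al α W : ℝ) = θ * bet Ys col W := by
  obtain ⟨h1, h2, h3⟩ := unc_ins.1 hW.1
  rw [hF.clo ⟨h1, hW.2⟩, io_eq_zero.2 h2, io_eq_zero.2 h3]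
  simp

theorem Sp.clo_U (hS : Sp Ys U col y1 y2 e1 e2 z0) {F : Finset (V × V)} {z : Y} (hz : z ∈ Ys)
    (h1 : z ≠ y1) (h2 : z ≠ y2) (hu : Unc F (U z)) :
    Clo (ins F (e1, col y1) (e2, col y2)) (free Ys U) (U z) :=
  ⟨unc_ins.2 ⟨hu, hS.a1 z hz h2, hS.a2 z hz h1⟩, not_free_U hz⟩

theorem tA_aux (hS : Sp Ys U col y1 y2 e1 e2 z0) (ht : Odd (tt Ys U α)) {θR x1 x2 : ℝ}
    {φR : V × V → ℝ} (hF : Feas Ys U col α θR (ext φR (e1, col y1) (e2, col y2) x1 x2))
    (hc : cost Ys U φR + |x1 - x2| ≤ 1) (hw : x1 ≠ x2) {W : Finset V} (hW : Unc (supp φR) W)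
    (p1 : col y1 ∈ W) (p2 : e1 ∈ W) (p3 : col y2 ∉ W) (p4 : e2 ∉ W) :
    (∀ z ∈ Ys, Unc (supp φR) (dg U col (ind W) z)) ∧
      ∀ (θ x1' x2' : ℝ) (φ : V × V → ℝ),
        Feas Ys U col α θ (ext φ (e1, col y1) (e2, col y2) x1' x2') →
        1 + (io (U y2) (e1, col y1) * sg (x1 - x2) : ℝ) * (θR - θ) *
          (∑ z ∈ Ys, (if col z ∈ W then -1 else 1) * (bet Ys col (dg U col (ind W) z) : ℝ))
          ≤ cost Ys U φ + |x1' - x2'| := by
  have hw' : 0 < |x1 - x2| := abs_pos.2 (sub_ne_zero.2 hw)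
  have hd := hS.sep_dg p1 p2 p3 p4
  have h1 := off_bound hS.good hF (π := ind W) fun e he => ind_eq.2 (hW e he)
  have h0 := cost_nonneg (Ys := Ys) (U := dg U col (ind W)) φR
  have hodd := odd_toff hS.good ht hF hd (by
    linarith [abs_nonneg ((toff Ys U col α (ind W) : ℝ) - x1 * goff Ys U col (ind W) (e1, col y1)
      - x2 * goff Ys U col (ind W) (e2, col y2))])
  have h2 := one_le_abs_of_odd hodd
  rw [hS.sep_g1 p1 p2 p3, hS.sep_g2 p1 p3 p4] at h1
  set T : ℝ := (toff Ys U col α (ind W) : ℝ) with hT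
  have hs : (io (U y2) (e1, col y1) : ℝ) = 1 ∨ (io (U y2) (e1, col y1) : ℝ) = -1 := by
    rcases io_cases (U y2) (e1, col y1) with h | h | h
    · exact absurd h hS.io_ne
    · left; rw [h]; simp
    · right; rw [h]; simp
  push_cast at h1
  set c : ℝ := (io (U y2) (e1, col y1) : ℝ) with hcdef
  have hsg : |x1 - x2| = sg (x1 - x2) * (x1 - x2) := abs_eq_sg (mul_self_nonneg _) id
  have hs2 : (sg (x1 - x2) : ℝ) = 1 ∨ (sg (x1 - x2) : ℝ) = -1 := by
    rcases sg_cases (x1 - x2) with h | h <;> rw [h] <;> simp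
  have h3 := abs_le.1 h1
  have key : 1 ≤ c * sg (x1 - x2) * T ∧ cost Ys (dg U col (ind W)) φR ≤ 0 := by
    rcases hs with h | h <;> rcases hs2 with h' | h' <;> rw [h'] at hsg ⊢ <;> rw [h] at h3 ⊢ <;>
      rcases le_abs.1 h2 with h4 | h4 <;> constructor <;> linarith [h3.1, h3.2]
  have hunc : ∀ z ∈ Ys, Unc (supp φR) (dg U col (ind W) z) := fun z hz =>
    unc_of_cz ((cz_le_cost φR hz).trans key.2)
  refine ⟨hunc, fun θ x1' x2' φ hF' => ?_⟩
  set E : ℝ := ∑ z ∈ Ys, (if col z ∈ W then -1 else 1) * (bet Ys col (dg U col (ind W) z) : ℝ)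
    with hE
  have hbal : ∑ z ∈ Ys, ((bet Ys col (up U col (ind W) z) : ℝ)
      - bet Ys col (dn U col (ind W) z)) = 0 := by
    rw [sum_sub_distrib, sub_eq_zero]
    exact_mod_cast hS.good.sum_up (π := ind W)
  have hi1 : ∑ z ∈ Ys, (if col z ∈ W then (-1 : ℝ) else 1) * io (U z) (e1, col y1) = c := by
    rw [sum_eq_single_of_mem y2 hS.h2 fun z hz hne => by rw [hS.io1 hz hne]; simp]
    simp [p3, hcdef]
  have hi2 : ∑ z ∈ Ys, (if col z ∈ W then (-1 : ℝ) else 1) * io (U z) (e2, col y2) = - c := by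
    rw [sum_eq_single_of_mem y1 hS.h1 fun z hz hne => by rw [hS.io2 hz hne]; simp, hS.io_eq]
    simp [p1, hcdef]
  have h5 : ∑ z ∈ Ys, (if col z ∈ W then (-1 : ℝ) else 1) * out φ (U z)
      = T + (θR - θ) * E - c * (x1' - x2') := by
    have h6 : ∑ z ∈ Ys, (if col z ∈ W then (-1 : ℝ) else 1) * out φ (U z)
        = ∑ z ∈ Ys, (((al α (up U col (ind W) z) - al α (dn U col (ind W) z) : ℤ) : ℝ)
          + (θR - θ) * ((if col z ∈ W then -1 else 1) * (bet Ys col (dg U col (ind W) z) : ℝ))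
          - θ * ((bet Ys col (up U col (ind W) z) : ℝ) - bet Ys col (dn U col (ind W) z))
          - x1' * ((if col z ∈ W then (-1 : ℝ) else 1) * io (U z) (e1, col y1))
          - x2' * ((if col z ∈ W then (-1 : ℝ) else 1) * io (U z) (e2, col y2))) := by
      refine sum_congr rfl fun z hz => ?_
      have h7 := hF' (U z) (not_free_U hz)
      rw [out_ext, al_split (col := col) (π := ind W)] at h7
      have h8 : (bet Ys col (U z) : ℝ) = bet Ys col (dg U col (ind W) z)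
          + bet Ys col (up U col (ind W) z) + bet Ys col (dn U col (ind W) z) := by
        exact_mod_cast bet_split (Ys := Ys) (U := U) (col := col) (π := ind W) z
      have h9 := hF.clo (W := dg U col (ind W) z)
        ⟨hunc z hz, fun v hv => not_free_U hz v (mem_dg.1 hv).1⟩
      rw [(hd z hz).1, (hd z hz).2] at h9
      rw [h8] at h7
      push_cast at h7 h9 ⊢
      by_cases hzW : col z ∈ W
      · have : up U col (ind W) z = ∅ := by
          ext v; simp [mem_up, ind_lt, hzW]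
        rw [this, al_empty, bet_empty] at h7
        rw [this, al_empty, bet_empty, if_pos hzW]
        push_cast at h7 ⊢
        linarith
      · have : dn U col (ind W) z = ∅ := by
          ext v; simp [mem_dn, ind_lt, hzW]
        rw [this, al_empty, bet_empty] at h7
        rw [this, al_empty, bet_empty, if_neg hzW]
        push_cast at h7 ⊢
        linarith
    rw [h6, sum_sub_distrib, sum_sub_distrib, sum_sub_distrib, sum_add_distrib, ← mul_sum,
      ← mul_sum, ← mul_sum, ← mul_sum, hbal, hi1, hi2, ← hE, ← Int.cast_sum]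
    change T + _ - _ - _ - _ = _
    ring
  have h10 : |∑ z ∈ Ys, (if col z ∈ W then (-1 : ℝ) else 1) * out φ (U z)| ≤ cost Ys U φ := by
    refine (abs_sum_le_sum_abs _ _).trans (sum_le_sum fun z _ => ?_)
    rw [abs_mul]
    have : |(if col z ∈ W then (-1 : ℝ) else 1)| = 1 := by split_ifs <;> simp
    rw [this, one_mul]
    exact abs_out_le _ _
  rw [h5] at h10
  have h11 := abs_le.1 h10
  have h12 := abs_le.1 (le_refl |x1' - x2'|)
  have h13 := key.1
  rcases hs with h | h <;> rcases hs2 with h' | h' <;> rw [h', h] at h13 ⊢ <;> rw [h] at h11 <;>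
    linarith [h11.1, h11.2, h12.1, h12.2]

/-- Tight point at which the two special pairs lie in different components. -/
theorem tA (hS : Sp Ys U col y1 y2 e1 e2 z0) (ht : Odd (tt Ys U α)) {θR x1 x2 : ℝ}
    {φR : V × V → ℝ} (hF : Feas Ys U col α θR (ext φR (e1, col y1) (e2, col y2) x1 x2))
    (hc : cost Ys U φR + |x1 - x2| ≤ 1) (hw : x1 ≠ x2)
    (hsep : col y2 ∉ comp (ins (supp φR) (e1, col y1) (e2, col y2)) (col y1)) :
    Plus Ys U col α y1 y2 e1 e2 := by
  set G := ins (supp φR) (e1, col y1) (e2, col y2) with hG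
  have hP := unc_ins.1 (unc_comp G (col y1))
  have hQ := unc_ins.1 (unc_comp G (col y2))
  have p1 := mem_comp_self G (col y1)
  have q1 := mem_comp_self G (col y2)
  have q2 : col y1 ∉ comp G (col y2) := fun h =>
    hsep (comp_subset' (unc_comp G (col y1)) h p1 q1)
  have p2 : e1 ∈ comp G (col y1) := hP.2.1.2 p1
  have p4 : e2 ∉ comp G (col y1) := fun h => hsep (hP.2.2.1 h)
  have r1 : col y1 ∈ (comp G (col y2))ᶜ := mem_compl.2 q2
  have r2 : e1 ∈ (comp G (col y2))ᶜ := mem_compl.2 fun h => q2 (hQ.2.1.1 h)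
  have r3 : col y2 ∉ (comp G (col y2))ᶜ := fun h => mem_compl.1 h q1
  have r4 : e2 ∉ (comp G (col y2))ᶜ := fun h => mem_compl.1 h (hQ.2.2.2 q1)
  obtain ⟨u1, k1⟩ := tA_aux hS ht hF hc hw hP.1 p1 p2 hsep p4
  obtain ⟨u2, k2⟩ := tA_aux hS ht hF hc hw hQ.1.compl r1 r2 r3 r4
  have hE1 : 0 ≤ ∑ z ∈ Ys, (if col z ∈ comp G (col y1) then -1 else 1) *
      (bet Ys col (dg U col (ind (comp G (col y1))) z) : ℝ) := by
    refine sum_nonneg fun z hz => ?_
    split_ifs with h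
    · have : dg U col (ind (comp G (col y1))) z = ∅ := by
        refine eq_empty_of_forall_notMem fun v hv => ?_
        have hu : Unc G (dg U col (ind (comp G (col y1))) z) :=
          unc_ins.2 ⟨u1 z hz, io_eq_zero.1 (hS.sep_dg p1 p2 hsep p4 z hz).1,
            io_eq_zero.1 (hS.sep_dg p1 p2 hsep p4 z hz).2⟩
        have := comp_subset' hu ((ind_eq.1 (mem_dg.1 hv).2).2 h) hv h
        exact hS.good.loop z hz (mem_dg.1 this).1
      simp [this, bet_empty]
    · simp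
  have hE2 : ∑ z ∈ Ys, (if col z ∈ (comp G (col y2))ᶜ then -1 else 1) *
      (bet Ys col (dg U col (ind (comp G (col y2))ᶜ) z) : ℝ) ≤ 0 := by
    refine sum_nonpos fun z hz => ?_
    split_ifs with h
    · simp
    · have : dg U col (ind (comp G (col y2))ᶜ) z = ∅ := by
        refine eq_empty_of_forall_notMem fun v hv => ?_
        have hu : Unc G (dg U col (ind (comp G (col y2))ᶜ) z) :=
          unc_ins.2 ⟨u2 z hz, io_eq_zero.1 (hS.sep_dg r1 r2 r3 r4 z hz).1,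
            io_eq_zero.1 (hS.sep_dg r1 r2 r3 r4 z hz).2⟩
        have h1 : v ∈ comp G (col y2) := by
          by_contra h'
          exact h ((ind_eq.1 (mem_dg.1 hv).2).1 (mem_compl.2 h'))
        have := comp_subset' hu h1 hv (not_not.1 fun h' => h (mem_compl.2 h'))
        exact hS.good.loop z hz (mem_dg.1 this).1
      simp [this, bet_empty]
  intro θ x1' x2' φ hF'
  rcases le_total 0 ((io (U y2) (e1, col y1) * sg (x1 - x2) : ℝ) * (θR - θ)) with h | h
  · linarith [k1 θ x1' x2' φ hF', mul_nonneg h hE1]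
  · linarith [k2 θ x1' x2' φ hF', mul_nonneg_of_nonpos_of_nonpos h hE2]

/-- Tight point with an uncrossed set of ordinary nodes that contains a column but not the witness
column. -/
theorem t5a (hS : Sp Ys U col y1 y2 e1 e2 z0) (ho : free Ys U o) (ht : Odd (tt Ys U α))
    (ih : Low V Ys) (hiso : ∀ z ∈ Ys, z ≠ y1 → z ≠ y2 → ¬ free Ys U (col z)) {θR x1 x2 : ℝ}
    {φR : V × V → ℝ} (hF : Feas Ys U col α θR (ext φR (e1, col y1) (e2, col y2) x1 x2))
    (hc : cost Ys U φR + |x1 - x2| ≤ 1) (hw : x1 ≠ x2) {Γ : Finset V} (hΓ : Unc (supp φR) Γ)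
    (p1 : col y1 ∉ Γ) (p2 : e1 ∉ Γ) (p3 : col y2 ∉ Γ) (p4 : e2 ∉ Γ) (p0 : col z0 ∉ Γ)
    {z : Y} (hz : z ∈ Ys) (hzΓ : col z ∈ Γ) : Plus Ys U col α y1 y2 e1 e2 := by
  have hw' : 0 < |x1 - x2| := abs_pos.2 (sub_ne_zero.2 hw)
  have hG := hS.good
  have hπ : ∀ e ∈ supp φR, ind Γ e.1 = ind Γ e.2 := fun e he => ind_eq.2 (hΓ e he)
  set D := dg U col (ind Γ) with hD
  have g1 : goff Ys U col (ind Γ) (e1, col y1) = 0 := sum_eq_zero fun w hw => by
    by_cases h : w = y2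
    · simp [io, mem_up, mem_dn, ind_lt, p1, p2, h, p3]
    · simp [io, mem_up, mem_dn, ind_lt, p1, p2, hS.a1 w hw h]
  have g2 : goff Ys U col (ind Γ) (e2, col y2) = 0 := sum_eq_zero fun w hw => by
    by_cases h : w = y1
    · simp [io, mem_up, mem_dn, ind_lt, p1, p4, h, p3]
    · simp [io, mem_up, mem_dn, ind_lt, p3, p4, hS.a2 w hw h]
  have h1 := off_bound hG hF hπ
  rw [g1, g2] at h1
  have h0 := cost_nonneg (Ys := Ys) (U := D) φR
  have hT : toff Ys U col α (ind Γ) = 0 := int_eq_zero_of_abs_lt (by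
    simp only [Int.cast_zero, mul_zero, sub_zero] at h1
    linarith)
  set Y1 := Ys.filter (fun y => col y ∈ Γ) with hY1
  set Y2 := Ys.filter (fun y => ¬ col y ∈ Γ) with hY2
  have htt : tt Ys D α = tt Y1 D α + tt Y2 D α := (sum_filter_add_sum_filter_not _ _ _).symm
  have hcost : cost Ys D φR = cost Y1 D φR + cost Y2 D φR :=
    (sum_filter_add_sum_filter_not _ _ _).symm
  have hfr : ∀ (Y' : Finset Y), Y' ⊆ Ys → ∀ v, free Ys U v → free Y' D v :=
    fun Y' hY' v hv w hw h' => hv w (hY' hw) (mem_dg.1 h').1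
  have hev : Even (tt Y1 D α) := by
    refine diag_even (hG.dg.sub (filter_subset _ _))
      (hF.sub (filter_subset _ _) (hfr _ (filter_subset _ _)) fun y hy hy' w hw h' => ?_)
      (fun w hw => ?_) ?_
    · exact hy' (mem_filter.2 ⟨hy, (ind_eq.1 (mem_dg.1 h').2).2 (mem_filter.1 hw).2⟩)
    · have := (mem_filter.1 hw).2
      simp [io, hD, mem_dg, ind_eq, p1, p2, p3, p4, this]
    · linarith [cost_nonneg (Ys := Y2) (U := D) φR, abs_nonneg ((toff Ys U col α (ind Γ) : ℝ)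
        - x1 * (0 : ℤ) - x2 * (0 : ℤ))]
  have hodd : Odd (tt Y2 D α) := by
    obtain ⟨a, ha⟩ := hev
    obtain ⟨b, hb⟩ := even_tt_split (Ys := Ys) (U := U) (col := col) (α := α) (π := ind Γ)
    obtain ⟨c, hc⟩ := ht
    exact ⟨c - a - b, by linarith⟩
  have hS2 : Sp Y2 D col y1 y2 e1 e2 z0 := by
    refine ⟨hG.dg.sub (filter_subset _ _), mem_filter.2 ⟨hS.h1, p1⟩, mem_filter.2 ⟨hS.h2, p3⟩,
      hS.hne, fun w hw h => ?_, ?_, fun w hw h => ?_, ?_, mem_filter.2 ⟨hS.hz, p0⟩, hS.n1, hS.n2,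
      ?_⟩
    · simp [hD, mem_dg, ind_eq, p1, p2, hS.a1 w (mem_filter.1 hw).1 h]
    · simpa [hD, mem_dg, ind_eq, p1, p2, p3] using hS.b1
    · simp [hD, mem_dg, ind_eq, p3, p4, hS.a2 w (mem_filter.1 hw).1 h]
    · simpa [hD, mem_dg, ind_eq, p1, p4, p3] using hS.b2
    · simpa [hD, mem_dg, ind_eq, p1, p0, p3] using hS.tw
  have h2 := ih Y2 ⟨filter_subset _ _, fun h => (mem_filter.1 (h hz)).2 hzΓ⟩ D col α y1 y2 e1 e2
    z0 o hS2 (hfr _ (filter_subset _ _) o ho) hodd θR x1 x2 φR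
    (hF.sub (filter_subset _ _) (hfr _ (filter_subset _ _)) fun y hy hy' w hw h' =>
      hy' (mem_filter.2 ⟨hy, fun h => (mem_filter.1 hw).2 ((ind_eq.1 (mem_dg.1 h').2).1 h)⟩))
  have h3 : cost Ys U φR = cost Ys D φR + ∑ w ∈ Ys, cz φR (up U col (ind Γ) w)
      + ∑ w ∈ Ys, cz φR (dn U col (ind Γ) w) := by
    unfold cost
    rw [← sum_add_distrib, ← sum_add_distrib]
    exact sum_congr rfl fun w _ => cz_split hπ w
  have n1 := cost_nonneg (Ys := Y1) (U := D) φR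
  have n2 := cost_nonneg (Ys := Ys) (U := up U col (ind Γ)) φR
  have n3 := cost_nonneg (Ys := Ys) (U := dn U col (ind Γ)) φR
  have z1 : ∀ w ∈ Y1, cz φR (D w) ≤ 0 := fun w hw =>
    (cz_le_cost φR hw).trans (by unfold cost at n2 n3; linarith)
  have z2 : ∀ w ∈ Ys, cz φR (up U col (ind Γ) w) ≤ 0 := fun w hw =>
    (cz_le_cost φR hw).trans (by unfold cost at n2 n3 ⊢; linarith)
  have z3 : ∀ w ∈ Ys, cz φR (dn U col (ind Γ) w) ≤ 0 := fun w hw =>
    (cz_le_cost φR hw).trans (by unfold cost at n2 n3 ⊢; linarith)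
  set G := ins (supp φR) (e1, col y1) (e2, col y2) with hGdef
  have hΓG : Unc G Γ := unc_ins.2 ⟨hΓ, by simp [p1, p2], by simp [p3, p4]⟩
  have hUΓ : ∀ w ∈ Ys, Unc G (U w ∩ Γ) := fun w hw => by
    refine unc_ins.2 ⟨?_, by simp [p1, p2], by simp [p3, p4]⟩
    by_cases h : col w ∈ Γ
    · have : U w ∩ Γ = D w := by ext v; simp [hD, mem_dg, ind_eq, h]
      rw [this]
      exact unc_of_cz (z1 w (mem_filter.2 ⟨hw, h⟩))
    · have : U w ∩ Γ = up U col (ind Γ) w := by ext v; simp [mem_up, ind_lt, h]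
      rw [this]
      exact unc_of_cz (z2 w hw)
  have hsub : comp G (col z) ⊆ Γ := comp_subset hΓG hzΓ
  have hsame : ∀ v ∈ comp G (col z), ∀ w ∈ Ys, v ∈ U w ↔ col z ∈ U w := fun v hv w hw =>
    ⟨fun h => (mem_inter.1 (comp_subset' (hUΓ w hw) hv (mem_inter.2 ⟨h, hsub hv⟩)
      (mem_comp_self _ _))).1,
      fun h => (mem_inter.1 (comp_subset (hUΓ w hw) (mem_inter.2 ⟨h, hzΓ⟩) hv)).1⟩
  have hclo : Clo G (free Ys U) (comp G (col z)) := ⟨unc_comp _ _, fun v hv hf =>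
    hiso z hz (fun h => p1 (h ▸ hzΓ)) (fun h => p3 (h ▸ hzΓ))
      fun w hw h => hf w hw ((hsame v hv w hw).2 h)⟩
  refine del hS ho ht ih (Γ := Ys.filter (fun y => col y ∈ comp G (col z))) (filter_subset _ _)
    (zz := z) (mem_filter.2 ⟨hz, mem_comp_self _ _⟩) (fun h => p1 (hsub (mem_filter.1 h).2))
    (fun h => p3 (hsub (mem_filter.1 h).2)) (fun h => p0 (hsub (mem_filter.1 h).2))
    (fun w hw => hsame _ (mem_filter.1 hw).2) θR (al α (comp G (col z)))
    (hF.clo_ins hclo).symm fun w hw => ?_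
  have hw1 := (mem_filter.1 hw).1
  have hw2 := hsub (mem_filter.1 hw).2
  refine hF.clo_ins (hS.clo_U hw1 (fun h => p1 (h ▸ hw2)) (fun h => p3 (h ▸ hw2)) (unc_of_cz ?_))
  rw [cz_split (col := col) hπ w]
  linarith [z1 w (mem_filter.2 ⟨hw1, hw2⟩), z2 w hw1, z3 w hw1]

end Pool.Agent.Lib.MP_ee21b2_co
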