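import Pool.Agent.Lib.MP_ee21b2_co.Mat

set_option autoImplicit false
set_option linter.unusedSectionVars false

namespace Pool.Agent.Lib.MP_ee21b2_co

open Finset

theorem pair_lemma {J : Type} [DecidableEq J] (s : Finset J) (m L : J → ℝ) (θ : ℝ) (hθ : 0 < θ)
    (h0 : ∀ j ∈ s, 0 ≤ m j) (h1 : ∀ j ∈ s, m j ≤ L j) (h2 : ∀ j ∈ s, m j + L j ≤ θ) {j0 : J}
    (hj : j0 ∈ s) (hmax : ∀ j ∈ s, m j ≤ m j0)
    (h : ∑ j ∈ s, (θ * (m j + L j) - 2 * (m j * L j)) < θ * θ) :
    ∑ j ∈ s, m j * L j ≤ θ * m j0 := by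
  rcases (h0 j0 hj).eq_or_lt with hμ | hμ
  · rw [← hμ, mul_zero]
    exact le_of_eq (sum_eq_zero fun j hj' => by
      rw [le_antisymm (hμ ▸ hmax j hj') (h0 j hj'), zero_mul])
  by_contra hc
  push Not at hc
  have a1 := h1 j0 hj
  have a2 := h2 j0 hj
  have e1 : m j0 * ∑ j ∈ s, (θ * (m j + L j) - 2 * (m j * L j))
      = θ * ∑ j ∈ s, ((m j0 - m j) * L j + m j * m j0) + (θ - 2 * m j0) * ∑ j ∈ s, m j * L j := by
    rw [mul_sum, mul_sum, mul_sum, ← sum_add_distrib]
    exact sum_congr rfl fun j _ => by ring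
  have e2 : m j0 * m j0 + m j0 * ∑ j ∈ s.erase j0, min (m j0) (L j)
      ≤ ∑ j ∈ s, ((m j0 - m j) * L j + m j * m j0) := by
    rw [← add_sum_erase _ _ hj, mul_sum, sub_self, zero_mul, zero_add]
    refine add_le_add le_rfl (sum_le_sum fun j hj' => ?_)
    have b1 := h0 j (mem_of_mem_erase hj')
    have b2 := hmax j (mem_of_mem_erase hj')
    have b3 := min_le_left (m j0) (L j)
    have b4 := min_le_right (m j0) (L j)
    nlinarith [mul_le_mul_of_nonneg_left b4 (sub_nonneg.2 b2), mul_le_mul_of_nonneg_left b3 b1]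
  have hmin0 : ∀ j ∈ s.erase j0, 0 ≤ min (m j0) (L j) := fun j hj' =>
    le_min hμ.le ((h0 j (mem_of_mem_erase hj')).trans (h1 j (mem_of_mem_erase hj')))
  rcases le_or_gt (m j0) (∑ j ∈ s.erase j0, min (m j0) (L j)) with h3 | h3
  · have b1 := mul_le_mul_of_nonneg_left h3 hμ.le
    have b2 := mul_le_mul_of_nonneg_left hc.le (show 0 ≤ θ - 2 * m j0 by linarith)
    have b3 := mul_lt_mul_of_pos_left h hμ
    have b4 := mul_le_mul_of_nonneg_left (show 2 * (m j0 * m j0)
      ≤ ∑ j ∈ s, ((m j0 - m j) * L j + m j * m j0) by linarith) hθ.le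
    nlinarith
  · have b1 : ∑ j ∈ s.erase j0, m j * L j ≤ m j0 * ∑ j ∈ s.erase j0, min (m j0) (L j) := by
      rw [mul_sum]
      refine sum_le_sum fun j hj' => ?_
      have c1 := (single_le_sum hmin0 hj').trans_lt h3
      have c2 : L j < m j0 := by
        rcases min_lt_iff.1 c1 with c | c
        · exact absurd c (lt_irrefl _)
        · exact c
      rw [min_eq_right c2.le]
      exact mul_le_mul_of_nonneg_right (hmax j (mem_of_mem_erase hj'))
        ((h0 j (mem_of_mem_erase hj')).trans (h1 j (mem_of_mem_erase hj')))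
    rw [← add_sum_erase _ _ hj] at hc
    nlinarith [mul_lt_mul_of_pos_left h3 hμ]

variable {X Y : Type} [Fintype X] [DecidableEq X] [Fintype Y] [DecidableEq Y]
variable {M : X → Y → ℝ} {Z : X → Finset Y} {θ : ℝ} {g : Y → Y → Prop}

theorem slack_nonneg (hR : ∀ x, ∑ y, M x y ≤ 1) : 0 ≤ slack M Z :=
  sum_nonneg fun x _ => mul_nonneg (Nat.cast_nonneg _) (sub_nonneg.2 (hR x))

theorem BB_nonneg (hM : ∀ x y, 0 ≤ M x y) (z y : Y) : 0 ≤ BB M Z z y :=
  sum_nonneg fun x _ => by split_ifs; exacts [hM x y, le_rfl]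

theorem BB_le (hM : ∀ x y, 0 ≤ M x y) (hC : ∀ y, ∑ x, M x y ≤ θ) (z y : Y) : BB M Z z y ≤ θ :=
  (sum_le_sum fun x _ => by split_ifs; exacts [le_rfl, hM x y]).trans (hC y)

theorem BB_self (hz : ∀ x, ∀ y ∈ Z x, M x y = 0) (y : Y) : BB M Z y y = 0 :=
  sum_eq_zero fun x _ => by split_ifs with h; exacts [hz x y h, rfl]

theorem dv_nonneg [DecidableRel g] (hM : ∀ x y, 0 ≤ M x y) (hC : ∀ y, ∑ x, M x y ≤ θ) (z y : Y) :
    0 ≤ dv M Z θ g z y := by
  unfold dv
  split_ifs
  exacts [sub_nonneg.2 (BB_le hM hC z y), BB_nonneg hM z y]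

theorem sum_BB (z : Y) : ∑ y, BB M Z z y = ∑ x, if z ∈ Z x then ∑ y, M x y else 0 := by
  unfold BB
  rw [sum_comm]
  exact sum_congr rfl fun x _ => by split_ifs <;> simp

theorem twin [DecidableRel g] (hM : ∀ x y, 0 ≤ M x y) (hR : ∀ x, ∑ y, M x y ≤ 1)
    (hC : ∀ y, ∑ x, M x y ≤ θ) (hz : ∀ x, ∀ y ∈ Z x, M x y = 0) (hs : ∀ y z, g y z → g z y)
    (hl : ∀ y, ¬ g y y) (ht : Odd (∑ x, (Z x).card)) {y1 y2 : Y} (hne : y1 ≠ y2)
    (tw : ∀ z, z ≠ y1 → z ≠ y2 → (g z y1 ↔ g z y2)) :
    1 ≤ slack M Z + (∑ z, ∑ y, if (z = y2 ∧ y = y1) ∨ (z = y1 ∧ y = y2) then 0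
      else dv M Z θ g z y) + |BB M Z y2 y1 - BB M Z y1 y2| := by
  by_contra hc
  push Not at hc
  have tw' : ∀ y, y ≠ y1 → y ≠ y2 → (g y1 y ↔ g y2 y) := fun y h1 h2 =>
    ⟨fun h => hs _ _ ((tw y h1 h2).1 (hs _ _ h)), fun h => hs _ _ ((tw y h1 h2).2 (hs _ _ h))⟩
  set Rest := ∑ z, ∑ y, if (z = y2 ∧ y = y1) ∨ (z = y1 ∧ y = y2) then 0 else dv M Z θ g z y
    with hRest
  have habs := abs_nonneg (BB M Z y2 y1 - BB M Z y1 y2)
  have hterm : ∀ (W : X → Finset Y) (x : X) (z y : Y),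
      0 ≤ (if (z ∈ W x ↔ g z y) then 0 else M x y) := fun W x z y => by
    split_ifs; exacts [le_rfl, hM x y]
  have hnull : ∀ z y : Y, 0 ≤ (if g z y then θ - ∑ x, M x y else 0) := fun z y => by
    split_ifs; exacts [sub_nonneg.2 (hC y), le_rfl]
  have step1 : ∀ x, ¬ (y1 ∈ Z x ↔ y2 ∈ Z x) → ∀ y, y ≠ y1 → y ≠ y2 → g y1 y → M x y = 0 := by
    intro x hx y n1 n2 hg
    by_contra hm
    have hy : y ∉ Z x := fun h => hm (hz x y h)
    have b1 : ∑ y', M x y' ≤ Rest := by
      rw [hRest, sum_comm]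
      refine sum_le_sum fun y' _ => ?_
      by_cases h0 : M x y' = 0
      · rw [h0]
        exact sum_nonneg fun z _ => by split_ifs; exacts [le_rfl, dv_nonneg hM hC _ _]
      have hy' : y' ∉ Z x := fun h => h0 (hz x y' h)
      obtain ⟨z, h1, h2⟩ : ∃ z, ¬ ((z = y2 ∧ y' = y1) ∨ (z = y1 ∧ y' = y2)) ∧
          ¬ (z ∈ Z x ↔ g z y') := by
        by_cases c1 : y' = y1
        · exact ⟨y, fun h => h.elim (fun h => n2 h.1) (fun h => n1 h.1),
            fun h => hy (h.2 (c1 ▸ hs _ _ hg))⟩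
        by_cases c2 : y' = y2
        · exact ⟨y, fun h => h.elim (fun h => n2 h.1) (fun h => n1 h.1),
            fun h => hy (h.2 (c2 ▸ hs _ _ ((tw' y n1 n2).1 hg)))⟩
        by_cases c3 : y1 ∈ Z x ↔ g y1 y'
        · exact ⟨y2, fun h => h.elim (fun h => c1 h.2) (fun h => c2 h.2),
            fun h => hx (c3.trans ((tw' y' c1 c2).trans h.symm))⟩
        · exact ⟨y1, fun h => h.elim (fun h => c1 h.2) (fun h => c2 h.2), c3⟩
      refine le_trans ?_ (single_le_sum (f := fun z => if (z = y2 ∧ y' = y1) ∨ (z = y1 ∧ y' = y2)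
        then 0 else dv M Z θ g z y')
        (fun z _ => by split_ifs; exacts [le_rfl, dv_nonneg hM hC _ _]) (mem_univ z))
      rw [if_neg h1, dv_eq]
      have := single_le_sum (fun x _ => hterm Z x z y') (mem_univ x)
      rw [if_neg h2] at this
      linarith [hnull z y']
    have b2 : 1 - ∑ y', M x y' ≤ slack M Z := by
      refine le_trans ?_ (single_le_sum (f := fun x => ((Z x).card : ℝ) * (1 - ∑ y, M x y))
        (fun x _ => mul_nonneg (Nat.cast_nonneg _) (sub_nonneg.2 (hR x))) (mem_univ x))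
      have : 1 ≤ (Z x).card := card_pos.2 (by
        by_cases h : y1 ∈ Z x
        · exact ⟨y1, h⟩
        · exact ⟨y2, by_contra fun h' => hx ⟨fun a => absurd a h, fun a => absurd a h'⟩⟩)
      exact le_mul_of_one_le_left (sub_nonneg.2 (hR x)) (by exact_mod_cast this)
    linarith
  let Z' : X → Finset Y := fun x => if (y1 ∈ Z x ↔ y2 ∈ Z x) then Z x else (Z x).erase y1 |>.erase y2
  let g0 : Y → Y → Prop := fun z y => g z y ∧ ¬ ((z = y2 ∧ y = y1) ∨ (z = y1 ∧ y = y2))
  have hcard : ∀ x, ((Z x).card : ℤ) = (Z' x).card + if (y1 ∈ Z x ↔ y2 ∈ Z x) then 0 else 1 := by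
    intro x
    simp only [Z']
    split_ifs with h
    · simp
    · by_cases h1 : y1 ∈ Z x
      · have h2 : y2 ∉ Z x := fun h2 => h ⟨fun _ => h2, fun _ => h1⟩
        rw [erase_eq_of_notMem fun h' => h2 (mem_of_mem_erase h'), ← card_erase_add_one h1]
        simp
      · have h2 : y2 ∈ Z x := by_contra fun h2 => h ⟨fun a => absurd a h1, fun a => absurd a h2⟩
        rw [erase_eq_of_notMem h1, ← card_erase_add_one h2]
        simp
  have step2 : ¬ Odd (∑ x, (Z' x).card) := fun ho => by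
    have h1 := matB (g := g0) hM hR hC (fun y z h => ⟨hs _ _ h.1, fun h' => h.2 (by tauto)⟩)
      (fun y h => hl y h.1) ho
    have h2 : slack M Z' ≤ slack M Z := sum_le_sum fun x _ =>
      mul_le_mul_of_nonneg_right (by
        have := hcard x
        have h3 : ((Z' x).card : ℤ) ≤ (Z x).card := by split_ifs at this <;> omega
        exact_mod_cast h3) (sub_nonneg.2 (hR x))
    have h3 : ∑ z, ∑ y, dv M Z' θ g0 z y ≤ Rest := sum_le_sum fun z _ => sum_le_sum fun y _ => by
      rw [dv_eq]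
      split_ifs with c1 c2 c2
      · exact absurd c2 c1.2
      · rw [dv_eq, if_pos c1.1]
        refine add_le_add (sum_le_sum fun x _ => ?_) le_rfl
        by_cases c3 : y1 ∈ Z x ↔ y2 ∈ Z x
        · simp [Z', c3, c1, c1.1]
        · by_cases c4 : z = y1 ∨ z = y2
          · have n1 : y ≠ y1 := fun h => c4.elim (fun h' => hl y (by
                have := c1.1; rwa [h'.trans h.symm] at this))
              fun h' => c2 (Or.inl ⟨h', h⟩)
            have n2 : y ≠ y2 := fun h => c4.elim (fun h' => c2 (Or.inr ⟨h', h⟩))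
              fun h' => hl y (by have := c1.1; rwa [h'.trans h.symm] at this)
            rw [step1 x c3 y n1 n2 (c4.elim (fun h => h ▸ c1.1)
              fun h => (tw' y n1 n2).2 (h ▸ c1.1))]
            simp
          · push Not at c4
            simp [Z', c3, c1, c1.1, c4.1, c4.2]
      · rw [add_zero]
        refine le_of_eq (sum_eq_zero fun x _ => ?_)
        split_ifs with c3
        · rfl
        · have c4 : z ∈ Z' x := by_contra fun h => c3 ⟨fun a => absurd a h, fun a => absurd a c1⟩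
          by_cases c5 : y1 ∈ Z x ↔ y2 ∈ Z x
          · simp only [Z', c5, if_true] at c4
            rcases c2 with ⟨d1, d2⟩ | ⟨d1, d2⟩
            · exact hz x y (d2 ▸ c5.2 (d1 ▸ c4))
            · exact hz x y (d2 ▸ c5.1 (d1 ▸ c4))
          · simp only [Z', c5, if_false, mem_erase] at c4
            exact absurd c2 fun h => h.elim (fun h => c4.1 h.1) (fun h => c4.2.1 h.1)
      · have c3 : ¬ g z y := fun h => c1 ⟨h, c2⟩
        rw [dv_eq, if_neg c3]
        refine add_le_add (sum_le_sum fun x _ => ?_) le_rfl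
        by_cases c4 : z ∈ Z' x
        · have : z ∈ Z x := by
            simp only [Z'] at c4
            split_ifs at c4
            exacts [c4, mem_of_mem_erase (mem_of_mem_erase c4)]
          simp [c4, this, c1, c3]
        · rw [if_pos ⟨fun a => absurd a c4, fun a => absurd a c1⟩]
          exact hterm Z x z y
    linarith
  let D : ℤ := ∑ x, ((if y1 ∈ Z x then 1 else 0) - if y2 ∈ Z x then 1 else 0)
  have step3 : D = 0 := int_eq_zero_of_abs_lt (by
    have h1 : (D : ℝ) = ∑ x, ((if y1 ∈ Z x then 1 else 0) - if y2 ∈ Z x then 1 else 0)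
        * (1 - ∑ y, M x y) + ∑ y, (BB M Z y1 y - BB M Z y2 y) := by
      rw [sum_sub_distrib (f := fun y => BB M Z y1 y), sum_BB, sum_BB, ← sum_sub_distrib,
        ← sum_add_distrib]
      simp only [D]
      push_cast
      exact sum_congr rfl fun x _ => by split_ifs <;> ring
    have h2 : |∑ x, ((if y1 ∈ Z x then (1 : ℝ) else 0) - if y2 ∈ Z x then 1 else 0)
        * (1 - ∑ y, M x y)| ≤ slack M Z := by
      refine (abs_sum_le_sum_abs _ _).trans (sum_le_sum fun x _ => ?_)
      rw [abs_mul, abs_of_nonneg (sub_nonneg.2 (hR x))]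
      refine mul_le_mul_of_nonneg_right ?_ (sub_nonneg.2 (hR x))
      split_ifs with c1 c2 c2
      · simp
      · simpa using card_pos.2 ⟨_, c1⟩
      · simpa using card_pos.2 ⟨_, c2⟩
      · simp
    have h3 : ∑ y, (BB M Z y1 y - BB M Z y2 y) = ∑ y, (if y = y1 ∨ y = y2 then 0
        else BB M Z y1 y - BB M Z y2 y) - (BB M Z y2 y1 - BB M Z y1 y2) := by
      have : BB M Z y2 y1 - BB M Z y1 y2 = ∑ y, ((if y = y1 then BB M Z y2 y1 else 0)
          - if y = y2 then BB M Z y1 y2 else 0) := by simp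
      rw [this, ← sum_sub_distrib]
      refine sum_congr rfl fun y _ => ?_
      by_cases c1 : y = y1
      · simp [c1, hne, BB_self hz]
      by_cases c2 : y = y2
      · simp [c2, hne.symm, BB_self hz]
      simp [c1, c2]
    have h4 : |∑ y, (if y = y1 ∨ y = y2 then 0 else BB M Z y1 y - BB M Z y2 y)| ≤ Rest := by
      rw [hRest, sum_comm]
      refine (abs_sum_le_sum_abs _ _).trans (sum_le_sum fun y _ => ?_)
      have hnn : ∀ z ∈ univ, 0 ≤ (if (z = y2 ∧ y = y1) ∨ (z = y1 ∧ y = y2) then 0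
          else dv M Z θ g z y) := fun z _ => by split_ifs; exacts [le_rfl, dv_nonneg hM hC _ _]
      split_ifs with c
      · rw [abs_zero]; exact sum_nonneg hnn
      · push Not at c
        refine le_trans ?_ (add_le_sum hnn (mem_univ y1) (mem_univ y2) hne)
        have d1 := dv_nonneg (Z := Z) (g := g) hM hC y1 y
        have d2 := dv_nonneg (Z := Z) (g := g) hM hC y2 y
        simp only [c.1, c.2, and_false, or_false, if_false]
        unfold dv at d1 d2 ⊢
        rw [abs_le]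
        by_cases c3 : g y1 y
        · simp only [c3, (tw' y c.1 c.2).1 c3, if_true] at d1 d2 ⊢
          constructor <;> linarith
        · simp only [c3, (show ¬ g y2 y from fun h => c3 ((tw' y c.1 c.2).2 h)), if_false]
            at d1 d2 ⊢
          constructor <;> linarith
    rw [h1, h3]
    have h5 := abs_le.1 h2
    have h6 := abs_le.1 h4
    have h7 := abs_le.1 (le_refl |BB M Z y2 y1 - BB M Z y1 y2|)
    rw [abs_lt]
    constructor <;> linarith [h5.1, h5.2, h6.1, h6.2, h7.1, h7.2])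
  have h8 : Even ((∑ x, ((Z x).card : ℤ)) - ∑ x, ((Z' x).card : ℤ) - D) := by
    simp only [D]
    rw [← sum_sub_distrib, ← sum_sub_distrib]
    refine even_sum _ fun x _ => ?_
    rw [hcard x]
    by_cases c1 : y1 ∈ Z x <;> by_cases c2 : y2 ∈ Z x <;> simp [c1, c2]
  apply step2
  rw [step3] at h8
  have h9 : Odd (∑ x, ((Z x).card : ℤ)) := by exact_mod_cast ht
  obtain ⟨a, ha⟩ := h8
  obtain ⟨b, hb⟩ := h9
  have : Odd (∑ x, ((Z' x).card : ℤ)) := ⟨b - a, by linarith⟩
  exact_mod_cast this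

theorem sum_pairs {Y : Type} [Fintype Y] [LinearOrder Y] (h : Y → Y → ℝ) (h0 : ∀ y, h y y = 0) :
    ∑ z, ∑ y, h z y
      = ∑ p ∈ univ.filter (fun p : Y × Y => p.1 < p.2), (h p.1 p.2 + h p.2 p.1) := by
  rw [sum_filter, Fintype.sum_prod_type]
  have e1 : ∑ z, ∑ y, h z y = ∑ z, ∑ y, (if z < y then h z y else 0)
      + ∑ z, ∑ y, (if y < z then h z y else 0) := by
    simp only [← sum_add_distrib]
    refine sum_congr rfl fun z _ => sum_congr rfl fun y _ => ?_
    rcases lt_trichotomy z y with c | c | c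
    · simp [c, c.not_gt]
    · simp [c, h0]
    · simp [c, c.not_gt]
  rw [e1, sum_comm (f := fun z y => if y < z then h z y else 0)]
  simp only [← sum_add_distrib]
  exact sum_congr rfl fun z _ => sum_congr rfl fun y _ => by split_ifs <;> simp

theorem core {Y : Type} [Fintype Y] [LinearOrder Y] {M : X → Y → ℝ} {Z : X → Finset Y}
    (hM : ∀ x y, 0 ≤ M x y) (hR : ∀ x, ∑ y, M x y ≤ 1) (hC : ∀ y, ∑ x, M x y ≤ θ)
    (hz : ∀ x, ∀ y ∈ Z x, M x y = 0) (hθ : 1 ≤ θ) (ht : Odd (∑ x, (Z x).card)) :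
    ∑ z, ∑ y, BB M Z z y * BB M Z y z ≤ (((∑ x, (Z x).card : ℕ) : ℝ) - 1) * θ := by
  classical
  by_contra hc
  push Not at hc
  have hθ0 : 0 < θ := by linarith
  let g : Y → Y → Prop := fun z y => θ < BB M Z z y + BB M Z y z
  have hs : ∀ y z, g y z → g z y := fun y z h => by simp only [g] at h ⊢; linarith
  have hl : ∀ y, ¬ g y y := fun y h => by simp only [g, BB_self hz] at h; linarith
  have d0 : ∀ y, dv M Z θ g y y = 0 := fun y => by rw [dv, if_neg (hl y), BB_self hz]
  have d1 := dv_nonneg (Z := Z) (g := g) hM hC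
  have d2 : ∀ z y, dv M Z θ g z y + dv M Z θ g y z ≤ θ := fun z y => by
    unfold dv
    by_cases h : g z y
    · rw [if_pos h, if_pos (hs _ _ h)]
      simp only [g] at h
      linarith
    · rw [if_neg h, if_neg fun h' => h (hs _ _ h')]
      simp only [g] at h
      linarith
  set J := univ.filter (fun p : Y × Y => p.1 < p.2) with hJ
  let m : Y × Y → ℝ := fun p => min (dv M Z θ g p.1 p.2) (dv M Z θ g p.2 p.1)
  let L : Y × Y → ℝ := fun p => max (dv M Z θ g p.1 p.2) (dv M Z θ g p.2 p.1)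
  have e1 : ∑ z, ∑ y, BB M Z z y = ((∑ x, (Z x).card : ℕ) : ℝ) - slack M Z := by
    simp only [sum_BB]
    rw [sum_comm, slack]
    push_cast
    rw [← sum_sub_distrib]
    refine sum_congr rfl fun x _ => ?_
    simp only [sum_ite_mem, univ_inter, sum_const, nsmul_eq_mul]
    ring
  have e2 : ∑ p ∈ J, (θ * (m p + L p) - 2 * (m p * L p))
      = θ * ∑ z, ∑ y, BB M Z z y - ∑ z, ∑ y, BB M Z z y * BB M Z y z := by
    rw [sum_pairs _ (BB_self hz), sum_pairs _ (fun y => by rw [BB_self hz, mul_zero]), mul_sum,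
      ← sum_sub_distrib]
    refine sum_congr rfl fun p _ => ?_
    simp only [m, L, min_add_max, min_mul_max, dv]
    by_cases h : g p.1 p.2
    · rw [if_pos h, if_pos (hs _ _ h)]; ring
    · rw [if_neg h, if_neg fun h' => h (hs _ _ h')]; ring
  have e3 : ∑ z, ∑ y, dv M Z θ g z y = ∑ p ∈ J, (m p + L p) := by
    rw [sum_pairs _ d0]
    exact sum_congr rfl fun p _ => by simp only [m, L, min_add_max]
  have e4 : ∑ p ∈ J, (θ * (m p + L p) - 2 * (m p * L p))
      = θ * ∑ p ∈ J, (m p + L p) - 2 * ∑ p ∈ J, m p * L p := by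
    rw [mul_sum, mul_sum, sum_sub_distrib]
  have hsl := slack_nonneg (Z := Z) hR
  have e5 : θ * slack M Z + ∑ p ∈ J, (θ * (m p + L p) - 2 * (m p * L p)) < θ := by
    rw [e2, e1]; linarith
  rcases J.eq_empty_or_nonempty with hJ0 | hJ0
  · have := matB (g := g) hM hR hC hs hl ht
    rw [e3, hJ0] at this
    rw [hJ0] at e5
    simp only [sum_empty, add_zero] at this e5
    nlinarith
  obtain ⟨⟨y1, y2⟩, hj, hmax⟩ := exists_max_image J m hJ0
  have hne : y1 ≠ y2 := (mem_filter.1 hj).2.ne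
  have h1 := pair_lemma J m L θ hθ0 (fun p _ => le_min (d1 _ _) (d1 _ _))
    (fun p _ => min_le_max) (fun p _ => by simp only [m, L, min_add_max]; exact d2 _ _) hj hmax
    (by nlinarith [mul_nonneg hθ0.le hsl])
  have h2 : slack M Z + ∑ z, ∑ y, dv M Z θ g z y - 2 * m (y1, y2) < 1 := by
    rw [e4, ← e3] at e5
    refine lt_of_mul_lt_mul_left ?_ hθ0.le
    linarith
  have h3 : ∑ z, ∑ y, dv M Z θ g z y = (∑ z, ∑ y, if (z = y2 ∧ y = y1) ∨ (z = y1 ∧ y = y2) then 0
      else dv M Z θ g z y) + dv M Z θ g y2 y1 + dv M Z θ g y1 y2 := by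
    have a1 : dv M Z θ g y2 y1
        = ∑ z, ∑ y, if y = y1 then (if z = y2 then dv M Z θ g z y else 0) else 0 := by simp
    have a2 : dv M Z θ g y1 y2
        = ∑ z, ∑ y, if y = y2 then (if z = y1 then dv M Z θ g z y else 0) else 0 := by simp
    rw [a1, a2]
    simp only [← sum_add_distrib]
    refine sum_congr rfl fun z _ => sum_congr rfl fun y _ => ?_
    by_cases c1 : y = y1
    · by_cases c2 : z = y2 <;> simp [c1, c2, hne]
    · by_cases c2 : y = y2
      · by_cases c3 : z = y1 <;> simp [c2, c3, hne.symm]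
      · simp [c1, c2]
  have h4 : |dv M Z θ g y2 y1 - dv M Z θ g y1 y2|
      = dv M Z θ g y2 y1 + dv M Z θ g y1 y2 - 2 * m (y1, y2) := by
    simp only [m]
    rcases le_total (dv M Z θ g y1 y2) (dv M Z θ g y2 y1) with h | h
    · rw [min_eq_left h, abs_of_nonneg (sub_nonneg.2 h)]; ring
    · rw [min_eq_right h, abs_of_nonpos (sub_nonpos.2 h)]; ring
  by_cases htw : ∃ z0, z0 ≠ y1 ∧ z0 ≠ y2 ∧ ¬ (g z0 y1 ↔ g z0 y2)
  · obtain ⟨z0, n1, n2, tw⟩ := htw
    have := matPlus (g := g) hM hR hC hs hl ht hne n1 n2 tw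
    linarith
  · have := twin (g := g) hM hR hC hz hs hl ht hne
      fun z n1 n2 => by_contra fun h => htw ⟨z, n1, n2, h⟩
    have h5 : |BB M Z y2 y1 - BB M Z y1 y2| = |dv M Z θ g y2 y1 - dv M Z θ g y1 y2| := by
      unfold dv
      by_cases h : g y1 y2
      · rw [if_pos h, if_pos (hs _ _ h), abs_sub_comm]
        congr 1
        ring
      · rw [if_neg h, if_neg fun h' => h (hs _ _ h')]
    linarith

/-- The inequality when the column bound is at least the row bound. -/
theorem main_le {Y : Type} [Fintype Y] [LinearOrder Y] {ι : Type} [Fintype ι]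
    (M : X → Y → ℝ) (hM : ∀ x y, 0 ≤ M x y) (ht : Odd (Fintype.card ι)) (x : ι → X) (y : ι → Y)
    (hinj : Function.Injective fun i => (x i, y i)) (hz : ∀ i, M (x i) (y i) = 0)
    (R C : ℝ) (hR : ∀ a, ∑ b, M a b ≤ R) (hC : ∀ b, ∑ a, M a b ≤ C) (hRC : R ≤ C) :
    ∑ i, ∑ j, M (x i) (y j) * M (x j) (y i) ≤ ((Fintype.card ι : ℝ) - 1) * R * C := by
  classical
  obtain ⟨i0⟩ := Fintype.card_pos_iff.1 ht.pos
  have hR0 : 0 ≤ R := (sum_nonneg fun b _ => hM _ b).trans (hR (x i0))
  rcases hR0.eq_or_lt with h | hRp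
  · have hM0 : ∀ a b, M a b = 0 := fun a b => le_antisymm
      ((single_le_sum (fun b _ => hM a b) (mem_univ b)).trans (h ▸ hR a)) (hM a b)
    simp [hM0, ← h]
  let Z : X → Finset Y := fun a => univ.filter (fun b => ∃ i, x i = a ∧ y i = b)
  have conv : ∀ f : X → Y → ℝ, ∑ i, f (x i) (y i) = ∑ b, ∑ a, if b ∈ Z a then f a b else 0 := by
    intro f
    rw [← sum_image (s := univ) (g := fun i => (x i, y i)) (f := fun p => f p.1 p.2)
      fun i _ j _ h => hinj h, sum_comm, ← Fintype.sum_prod_type', ← sum_filter]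
    refine sum_congr ?_ fun _ _ => rfl
    ext p
    simp [Z, Prod.ext_iff]
  have hcard : ((∑ a, (Z a).card : ℕ) : ℝ) = Fintype.card ι := by
    have := conv fun _ _ => 1
    rw [sum_comm] at this
    simp only [sum_const, card_univ, nsmul_eq_mul, mul_one, sum_ite_mem, univ_inter] at this
    rw [this]
    push_cast
    rfl
  have hcard' : ∑ a, (Z a).card = Fintype.card ι := by exact_mod_cast hcard
  have key := core (M := fun a b => M a b / R) (Z := Z) (θ := C / R)
    (fun a b => div_nonneg (hM a b) hR0) (fun a => by rw [← sum_div, div_le_one hRp]; exact hR a)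
    (fun b => by rw [← sum_div]; exact div_le_div_of_nonneg_right (hC b) hR0)
    (fun a b hb => by
      obtain ⟨i, h1, h2⟩ := (mem_filter.1 hb).2
      rw [← h1, ← h2, hz, zero_div]) ((one_le_div hRp).2 hRC) (hcard' ▸ ht)
  have e : ∑ i, ∑ j, M (x i) (y j) * M (x j) (y i)
      = (∑ z, ∑ w, BB (fun a b => M a b / R) Z z w * BB (fun a b => M a b / R) Z w z) * R ^ 2 := by
    rw [conv fun a b => ∑ j, M a (y j) * M (x j) b, sum_mul]
    refine sum_congr rfl fun z _ => ?_
    have : ∀ a, ∑ j, M a (y j) * M (x j) z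
        = ∑ w, ∑ a', if w ∈ Z a' then M a w * M a' z else 0 :=
      fun a => conv fun a' w => M a w * M a' z
    simp only [this, BB, sum_mul_sum]
    simp only [sum_mul]
    rw [sum_comm (f := fun w a => ∑ a', (if z ∈ Z a then M a w / R else 0)
      * (if w ∈ Z a' then M a' z / R else 0) * R ^ 2)]
    refine sum_congr rfl fun a _ => ?_
    split_ifs with h
    · refine sum_congr rfl fun w _ => sum_congr rfl fun a' _ => ?_
      split_ifs
      · field_simp
      · simp
    · simp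
  rw [e]
  refine (mul_le_mul_of_nonneg_right key (sq_nonneg R)).trans (le_of_eq ?_)
  rw [hcard]
  field_simp

end Pool.Agent.Lib.MP_ee21b2_co
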