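import Pool.Agent.Lib.MP_ee21b2_co.Tight

set_option autoImplicit false
set_option linter.unusedSectionVars false

namespace Pool.Agent.Lib.MP_ee21b2_co

open Finset

variable {V Y : Type} [Fintype V] [DecidableEq V] [DecidableEq Y]
variable {Ys : Finset Y} {U : Y → Finset V} {col : Y → V} {α : V → ℤ} {y1 y2 z0 : Y} {e1 e2 o : V}

theorem card_le_ne (S : Finset Y) (y1 y2 : Y) :
    S.card ≤ (S.filter (fun z => z ≠ y1 ∧ z ≠ y2)).card + 2 := by
  have : S ⊆ insert y1 (insert y2 (S.filter (fun z => z ≠ y1 ∧ z ≠ y2))) := fun z hz => by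
    simp only [mem_insert, mem_filter]
    tauto
  have h1 := card_le_card this
  have h2 := card_insert_le y1 (insert y2 (S.filter (fun z => z ≠ y1 ∧ z ≠ y2)))
  have h3 := card_insert_le y2 (S.filter (fun z => z ≠ y1 ∧ z ≠ y2))
  omega

theorem and_iff_aux {A A' B B' : Prop} (h1 : A ↔ A') (h2 : A → (B ↔ B')) : A ∧ B ↔ A' ∧ B' := by
  tauto

theorem xor_aux {A A' B B' : Prop} (h : ¬ (A ↔ B)) (h1 : A ↔ A') (h2 : B ↔ B') : A' ↔ ¬ B' := by
  tauto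

/-- The configuration with two closed components of the same size. -/
structure TwoCl (Ys : Finset Y) (U : Y → Finset V) (col : Y → V) (y1 y2 : Y) (e1 e2 : V) (z0 : Y)
    (FR : Finset (V × V)) (m : ℕ) (Γ : Finset V) (zs zp yj : Y) (e0 : V × V) : Prop where
  cK : Clo (ins FR (e1, col y1) (e2, col y2)) (free Ys U)
    (comp (ins FR (e1, col y1) (e2, col y2)) (col y1))
  cΓ : Clo (ins FR (e1, col y1) (e2, col y2)) (free Ys U) Γ
  isc : Γ = comp (ins FR (e1, col y1) (e2, col y2)) (col z0)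
  c2 : col y2 ∈ comp (ins FR (e1, col y1) (e2, col y2)) (col y1)
  disj : Disjoint (comp (ins FR (e1, col y1) (e2, col y2)) (col y1)) Γ
  bK : bet Ys col (comp (ins FR (e1, col y1) (e2, col y2)) (col y1)) = m
  bΓ : bet Ys col Γ = m
  all : ∀ y ∈ Ys, col y ∈ comp (ins FR (e1, col y1) (e2, col y2)) (col y1) ∨ col y ∈ Γ
  s1 : zs ∈ Ys
  s2 : col zs ∈ comp (ins FR (e1, col y1) (e2, col y2)) (col y1)
  s3 : zs ≠ y1
  s4 : zs ≠ y2
  s5 : Unc FR (U zs)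
  s6 : Γ ⊆ U zs
  s7 : Disjoint (comp (ins FR (e1, col y1) (e2, col y2)) (col y1)) (U zs)
  p1 : zp ∈ Ys
  p2 : col zp ∈ Γ
  p5 : Unc FR (U zp)
  p6 : comp (ins FR (e1, col y1) (e2, col y2)) (col y1) ⊆ U zp
  p7 : Disjoint Γ (U zp)
  j1 : yj = y1 ∨ yj = y2
  j2 : e0 ∈ FR
  j3 : e0.1 ∈ Γ
  j4 : io (U yj) e0 ≠ 0

theorem tB (hS : Sp Ys U col y1 y2 e1 e2 z0) (ho : free Ys U o) (ht : Odd (tt Ys U α))
    (ih : Low V Ys) (hiso : ∀ z ∈ Ys, z ≠ y1 → z ≠ y2 → ¬ free Ys U (col z))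
    (bad : ¬ Plus Ys U col α y1 y2 e1 e2) {θR x1 x2 : ℝ}
    {φR : V × V → ℝ} (hF : Feas Ys U col α θR (ext φR (e1, col y1) (e2, col y2) x1 x2))
    (hc : cost Ys U φR + |x1 - x2| ≤ 1) (hw : x1 ≠ x2) {m : ℕ} {p : ℤ} (hp : θR * m = p)
    (hm0 : 0 < m) (hmin : ∀ k : ℕ, 0 < k → (∃ p : ℤ, θR * k = p) → m ≤ k) (hmN : m + 1 ≤ Ys.card)
    (hcnt : ∀ C ⊆ Ys, (∀ z ∈ C, ¬ Unc (supp φR) (U z)) → C.card + 1 ≤ m)
    {K1 K2 : Finset V} (hK1 : Clo (supp φR) (free Ys U) K1) (hK2 : Clo (supp φR) (free Ys U) K2)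
    (k1 : e1 ∈ K1) (k2 : e2 ∈ K1) (k4 : col y2 ∉ K1) (k5 : col y1 ∈ K2)
    (k7 : e2 ∉ K2) (k8 : col y2 ∉ K2) :
    ∃ Γ zs zp yj e0, TwoCl Ys U col y1 y2 e1 e2 z0 (supp φR) m Γ zs zp yj e0 := by
  classical
  have hG := hS.good
  set G := ins (supp φR) (e1, col y1) (e2, col y2) with hGdef
  set K := comp G (col y1) with hK
  have uK : Unc G K := unc_comp _ _
  have c1K : col y1 ∈ K := mem_comp_self _ _
  have c2K : col y2 ∈ K := by
    by_contra h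
    exact bad (tA hS ht hF hc hw h)
  have e1K : e1 ∈ K := (unc_ins.1 uK).2.1.2 c1K
  have e2K : e2 ∈ K := (unc_ins.1 uK).2.2.2 c2K
  have hdiv : ∀ W, Clo G (free Ys U) W → 0 < bet Ys col W → m ≤ bet Ys col W :=
    fun W hW h => hmin _ h ⟨_, (hF.clo_ins hW).symm⟩
  have hdiv2 : ∀ W, Clo G (free Ys U) W → m < bet Ys col W → 2 * m ≤ bet Ys col W := by
    intro W hW h
    have := hmin (bet Ys col W - m) (by omega) ⟨al α W - p, by
      rw [Nat.cast_sub h.le, mul_sub, hp, ← hF.clo_ins hW]; simp⟩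
    omega
  have x0 : ¬ Unc (supp φR) (U z0) := fun h => by
    have hu := (hS.clo_U hS.hz hS.n1 hS.n2 h).1
    exact hS.tw ⟨fun h' => comp_subset hu h' c2K, fun h' => comp_subset' hu c2K h' c1K⟩
  have h5a : ∀ Γ, Unc G Γ → Disjoint K Γ → col z0 ∉ Γ → ∀ z ∈ Ys, col z ∉ Γ :=
    fun Γ h1 h2 h3 z hz h4 => bad (t5a hS ho ht ih hiso hF hc hw (unc_ins.1 h1).1
      (disjoint_left.1 h2 c1K) (disjoint_left.1 h2 e1K) (disjoint_left.1 h2 c2K)
      (disjoint_left.1 h2 e2K) h3 hz h4)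
  have hpos : ∀ z ∈ Ys, z ≠ y1 → z ≠ y2 → ∃ y ∈ Ys, col y ∈ U z := fun z hz h1 h2 => by
    by_contra h
    push Not at h
    exact hiso z hz h1 h2 (hG.free_of_bet hz h)
  have cnt2 : ∀ S ⊆ Ys, (∀ z ∈ S, z ≠ y1 → z ≠ y2 → ¬ Unc (supp φR) (U z)) →
      ∀ yc, yc = y1 ∨ yc = y2 → ¬ Unc (supp φR) (U yc) → S.card ≤ m := by
    intro S hS' h yc hyc hx
    have h1 := card_le_ne S y1 y2
    have h2 := hcnt (insert yc (S.filter (fun z => z ≠ y1 ∧ z ≠ y2)))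
      (insert_subset (by rcases hyc with h | h <;> rw [h]; exacts [hS.h1, hS.h2])
        ((filter_subset _ _).trans hS'))
      (by
        intro z hz
        rcases mem_insert.1 hz with h' | h'
        · rw [h']; exact hx
        · obtain ⟨h3, h4, h5⟩ := mem_filter.1 h'
          exact h z h3 h4 h5)
    rw [card_insert_of_notMem (fun h' => hyc.elim (mem_filter.1 h').2.1 (mem_filter.1 h').2.2)] at h2
    omega
  by_cases h0K : col z0 ∈ K
  · exfalso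
    have hall : ∀ z ∈ Ys, col z ∈ K := fun z hz => by
      by_contra h
      exact h5a Kᶜ uK.compl disjoint_compl_right (by simpa using h0K) z hz (mem_compl.2 h)
    have hx : ∀ z ∈ Ys, z ≠ y1 → z ≠ y2 → ¬ Unc (supp φR) (U z) := fun z hz h1 h2 h => by
      obtain ⟨y, hy, hy'⟩ := hpos z hz h1 h2
      exact hG.loop z hz (comp_subset' (hS.clo_U hz h1 h2 h).1 (hall y hy) hy' (hall z hz))
    by_cases hf : ∀ v ∈ K, ¬ free Ys U v
    · have h1 : bet Ys col K = Ys.card := by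
        unfold bet
        rw [filter_true_of_mem hall]
      have h2 := hdiv2 K ⟨uK, hf⟩ (by omega)
      have h3 := card_le_ne Ys y1 y2
      have h4 := hcnt _ (filter_subset (fun z => z ≠ y1 ∧ z ≠ y2) Ys)
        fun z hz => hx z (mem_filter.1 hz).1 (mem_filter.1 hz).2.1 (mem_filter.1 hz).2.2
      have h5 : 0 < (Ys.filter (fun z => z ≠ y1 ∧ z ≠ y2)).card :=
        card_pos.2 ⟨z0, mem_filter.2 ⟨hS.hz, hS.n1, hS.n2⟩⟩
      omega
    · have hy : ¬ Unc (supp φR) (U y1) := fun h => by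
        by_cases hk : col y2 ∈ U y1
        · have hu : Unc G (U y1 ∪ K1 ∪ K2) :=
            unc_ins.2 ⟨(h.union hK1.1).union hK2.1, by simp [k1, k5], by simp [k2, hk]⟩
          refine hf fun v hv => ?_
          have := comp_subset hu (by simp [k5]) hv
          simp only [mem_union] at this
          rcases this with (h' | h') | h'
          exacts [not_free_U hS.h1 v h', hK1.2 v h', hK2.2 v h']
        · have he : e2 ∈ U y1 := by
            by_contra h'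
            exact hS.b2 ⟨fun h'' => absurd h'' h', fun h'' => absurd h'' hk⟩
          have hu : Unc G (K2 ∪ (K1 \ U y1)) :=
            unc_ins.2 ⟨hK2.1.union (hK1.1.sdiff h), by simp [k1, k5, hS.e1_y1],
              by simp [k7, he, k8, k4]⟩
          have := comp_subset hu (by simp [k5]) c2K
          simp [k8, k4] at this
      have := cnt2 Ys Subset.rfl hx y1 (Or.inl rfl) hy
      omega
  set Γ := comp G (col z0) with hΓ
  have uΓ : Unc G Γ := unc_comp _ _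
  have z0Γ : col z0 ∈ Γ := mem_comp_self _ _
  have hdis : Disjoint K Γ := disjoint_left.2 fun v h1 h2 => h0K (comp_subset' uK h2 h1 z0Γ)
  have hall : ∀ y ∈ Ys, col y ∈ K ∨ col y ∈ Γ := fun y hy => by
    by_contra h
    exact h5a (K ∪ Γ)ᶜ (uK.union uΓ).compl
      (disjoint_left.2 fun v h1 h2 => mem_compl.1 h2 (mem_union_left _ h1)) (by simp [z0Γ]) y hy
      (by simpa using h)
  have F1 : ∀ z ∈ Ys, z ≠ y1 → z ≠ y2 → col z ∈ K → Unc (supp φR) (U z) →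
      Γ ⊆ U z ∧ Disjoint K (U z) := fun z hz h1 h2 h3 h => by
    have hu := (hS.clo_U hz h1 h2 h).1
    have hd : Disjoint K (U z) :=
      disjoint_left.2 fun v h4 h5 => hG.loop z hz (comp_subset' hu h4 h5 h3)
    obtain ⟨y, hy, hy'⟩ := hpos z hz h1 h2
    exact ⟨comp_subset' hu ((hall y hy).resolve_left fun h4 => disjoint_left.1 hd h4 hy') hy', hd⟩
  have hne : ∀ z, col z ∈ Γ → z ≠ y1 ∧ z ≠ y2 := fun z h =>
    ⟨fun h' => disjoint_left.1 hdis c1K (h' ▸ h), fun h' => disjoint_left.1 hdis c2K (h' ▸ h)⟩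
  have F2 : ∀ z ∈ Ys, col z ∈ Γ → Unc (supp φR) (U z) → K ⊆ U z ∧ Disjoint Γ (U z) :=
    fun z hz h3 h => by
      obtain ⟨h1, h2⟩ := hne z h3
      have hu := (hS.clo_U hz h1 h2 h).1
      have hd : Disjoint Γ (U z) :=
        disjoint_left.2 fun v h4 h5 => hG.loop z hz (comp_subset' hu h4 h5 h3)
      obtain ⟨y, hy, hy'⟩ := hpos z hz h1 h2
      exact ⟨comp_subset' hu ((hall y hy).resolve_right fun h4 => disjoint_left.1 hd h4 hy') hy',
        hd⟩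
  have F3 : ∀ v ∈ Γ, ∀ y, ¬ (v ∈ U y ↔ col z0 ∈ U y) →
      ∃ e ∈ supp φR, e.1 ∈ Γ ∧ io (U y) e ≠ 0 := fun v hv y h => by
    by_contra h'
    push Not at h'
    have hu : Unc G (Γ ∩ U y) := unc_ins.2 ⟨fun e he => by
      have h1 := (unc_ins.1 uΓ).1 e he
      have h2 := fun h3 => io_eq_zero.1 (h' e he h3)
      simp only [mem_inter]
      exact and_iff_aux h1 h2, by simp [disjoint_left.1 hdis c1K, disjoint_left.1 hdis e1K],
      by simp [disjoint_left.1 hdis c2K, disjoint_left.1 hdis e2K]⟩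
    exact h ⟨fun h1 => (mem_inter.1 (comp_subset' hu hv (mem_inter.2 ⟨hv, h1⟩) z0Γ)).2,
      fun h1 => (mem_inter.1 (comp_subset hu (mem_inter.2 ⟨z0Γ, h1⟩) hv)).2⟩
  have F4 : ∀ y, (∃ e ∈ supp φR, e.1 ∈ Γ ∧ io (U y) e ≠ 0) → ¬ Unc (supp φR) (U y) :=
    fun y ⟨e, h1, _, h3⟩ h => h3 (io_eq_zero.2 (h e h1))
  have s1 : col y1 ∈ U z0 ↔ col z0 ∈ U y1 := ⟨hG.symm _ hS.h1 _ hS.hz, hG.symm _ hS.hz _ hS.h1⟩
  have s2 : col y2 ∈ U z0 ↔ col z0 ∈ U y2 := ⟨hG.symm _ hS.h2 _ hS.hz, hG.symm _ hS.hz _ hS.h2⟩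
  have htw := xor_aux hS.tw s1 s2
  have cnt3 : (∀ v ∈ K, ¬ free Ys U v) → (∀ z ∈ Ys, z ≠ y1 → z ≠ y2 → col z ∈ K →
      ¬ Unc (supp φR) (U z)) → ∀ yc, yc = y1 ∨ yc = y2 → ¬ Unc (supp φR) (U yc) → False := by
    intro hf hx yc hyc hyc'
    have h1 := hdiv K ⟨uK, hf⟩ (bet_pos hS.h1 c1K)
    have h2 := cnt2 (insert z0 (Ys.filter (fun y => col y ∈ K)))
      (insert_subset hS.hz (filter_subset _ _)) (fun z hz h3 h4 => by
        rcases mem_insert.1 hz with h' | h'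
        · rw [h']; exact x0
        · exact hx z (mem_filter.1 h').1 h3 h4 (mem_filter.1 h').2) yc hyc hyc'
    rw [card_insert_of_notMem (by simp [h0K])] at h2
    unfold bet at h1
    omega
  by_cases hfΓ : ∀ v ∈ Γ, ¬ free Ys U v
  swap
  · exfalso
    push Not at hfΓ
    obtain ⟨v, hv, hfv⟩ := hfΓ
    obtain ⟨yc, hyc, hyc'⟩ : ∃ yc, (yc = y1 ∨ yc = y2) ∧ ¬ Unc (supp φR) (U yc) := by
      have h1 := hfv y1 hS.h1
      have h2 := hfv y2 hS.h2
      by_cases h : col z0 ∈ U y1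
      · exact ⟨y1, Or.inl rfl, F4 _ (F3 v hv y1 fun h' => h1 (h'.2 h))⟩
      · exact ⟨y2, Or.inr rfl, F4 _ (F3 v hv y2 fun h' => h (htw.2 fun h'' => h2 (h'.2 h'')))⟩
    have hx : ∀ z ∈ Ys, z ≠ y1 → z ≠ y2 → col z ∈ K → ¬ Unc (supp φR) (U z) :=
      fun z hz h1 h2 h3 h => hfv z hz ((F1 z hz h1 h2 h3 h).1 hv)
    by_cases hR : ∃ z ∈ Ys, col z ∈ Γ ∧ Unc (supp φR) (U z)
    · obtain ⟨z, hz, h1, h2⟩ := hR
      exact cnt3 (fun v hv => not_free_U hz v ((F2 z hz h1 h2).1 hv)) hx yc hyc hyc'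
    · push Not at hR
      have := cnt2 Ys Subset.rfl
        (fun z hz h1 h2 => (hall z hz).elim (hx z hz h1 h2) (hR z hz)) yc hyc hyc'
      omega
  have hmΓ := hdiv Γ ⟨uΓ, hfΓ⟩ (bet_pos hS.hz z0Γ)
  obtain ⟨zp, hzp, hzpΓ, hzpu⟩ : ∃ z ∈ Ys, col z ∈ Γ ∧ Unc (supp φR) (U z) := by
    by_contra hR
    push Not at hR
    have := hcnt _ (filter_subset (fun y => col y ∈ Γ) Ys)
      fun z hz => hR z (mem_filter.1 hz).1 (mem_filter.1 hz).2
    unfold bet at hmΓ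
    omega
  obtain ⟨q1, q2⟩ := F2 zp hzp hzpΓ hzpu
  have hfK : ∀ v ∈ K, ¬ free Ys U v := fun v hv => not_free_U hzp v (q1 hv)
  obtain ⟨yj, hyj, e0, he0, he0', he0''⟩ :
      ∃ yj, (yj = y1 ∨ yj = y2) ∧ ∃ e ∈ supp φR, e.1 ∈ Γ ∧ io (U yj) e ≠ 0 := by
    have h1 := hG.symm _ hS.h1 _ hzp (q1 c1K)
    have h2 := hG.symm _ hS.h2 _ hzp (q1 c2K)
    by_cases h : col z0 ∈ U y1
    · exact ⟨y2, Or.inr rfl, F3 _ hzpΓ y2 fun h' => htw.1 h (h'.1 h2)⟩
    · exact ⟨y1, Or.inl rfl, F3 _ hzpΓ y1 fun h' => h (h'.1 h1)⟩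
  have xj := F4 yj ⟨e0, he0, he0', he0''⟩
  obtain ⟨zs, hzs, hs1, hs2, hzsK, hzsu⟩ :
      ∃ z ∈ Ys, z ≠ y1 ∧ z ≠ y2 ∧ col z ∈ K ∧ Unc (supp φR) (U z) := by
    by_contra hR
    push Not at hR
    exact cnt3 hfK hR yj hyj xj
  have hmK := hdiv K ⟨uK, hfK⟩ (bet_pos hS.h1 c1K)
  have hdel : ∀ R : Finset Y, R ⊆ Ys → (∀ z ∈ R, z ≠ y1 ∧ z ≠ y2 ∧ Unc (supp φR) (U z)) →
      ∀ A : Finset V, (∀ z ∈ R, ∀ w ∈ Ys, col w ∈ U z ↔ col w ∈ A) → R.card + 1 ≤ m := by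
    intro R hR h1 A h2
    by_contra h3
    obtain ⟨R', hR', hcard⟩ := exists_subset_card_eq (s := R) (n := m) (by omega)
    obtain ⟨zz, hzz⟩ := card_pos.1 (hcard ▸ hm0)
    refine bad (del hS ho ht ih (hR'.trans hR) hzz (fun h => (h1 _ (hR' h)).1 rfl)
      (fun h => (h1 _ (hR' h)).2.1 rfl) (fun h => x0 (h1 _ (hR' h)).2.2) (fun z hz w hw => ?_)
      θR p (by rw [hcard, hp]) fun z hz => ?_)
    · have a1 : col z ∈ U w ↔ col w ∈ U z :=
        ⟨hG.symm _ (hR (hR' hz)) _ hw, hG.symm _ hw _ (hR (hR' hz))⟩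
      have a2 : col zz ∈ U w ↔ col w ∈ U zz :=
        ⟨hG.symm _ (hR (hR' hzz)) _ hw, hG.symm _ hw _ (hR (hR' hzz))⟩
      rw [a1, a2, h2 z (hR' hz) w hw, h2 zz (hR' hzz) w hw]
    · obtain ⟨a1, a2, a3⟩ := h1 z (hR' hz)
      exact hF.clo_ins (hS.clo_U (hR (hR' hz)) a1 a2 a3)
  have hbK : bet Ys col K = m := by
    by_contra h
    have h1 := hdiv2 K ⟨uK, hfK⟩ (by omega)
    set S := (Ys.filter (fun y => col y ∈ K)).filter (fun z => z ≠ y1 ∧ z ≠ y2) with hSdef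
    have hSm : ∀ z ∈ S, z ∈ Ys ∧ col z ∈ K ∧ z ≠ y1 ∧ z ≠ y2 := fun z hz => by
      simp only [hSdef, mem_filter] at hz
      exact ⟨hz.1.1, hz.1.2, hz.2⟩
    have h2 : bet Ys col K ≤ S.card + 2 := card_le_ne _ y1 y2
    have h3 := card_filter_add_card_filter_not (s := S) (fun z => Unc (supp φR) (U z))
    have h4 := hdel (S.filter (fun z => Unc (supp φR) (U z)))
      (fun z hz => (hSm z (mem_filter.1 hz).1).1)
      (fun z hz => ⟨(hSm z (mem_filter.1 hz).1).2.2.1, (hSm z (mem_filter.1 hz).1).2.2.2,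
        (mem_filter.1 hz).2⟩) Γ (fun z hz w hw => by
        obtain ⟨a1, a2, a3, a4⟩ := hSm z (mem_filter.1 hz).1
        obtain ⟨b1, b2⟩ := F1 z a1 a3 a4 a2 (mem_filter.1 hz).2
        exact ⟨fun h' => (hall w hw).resolve_left fun h'' => disjoint_left.1 b2 h'' h',
          fun h' => b1 h'⟩)
    have h5 := hcnt (insert z0 (S.filter (fun z => ¬ Unc (supp φR) (U z))))
      (insert_subset hS.hz fun z hz => (hSm z (mem_filter.1 hz).1).1) (fun z hz => by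
        rcases mem_insert.1 hz with h' | h'
        · rw [h']; exact x0
        · exact (mem_filter.1 h').2)
    rw [card_insert_of_notMem fun h' => h0K (hSm _ (mem_filter.1 h').1).2.1] at h5
    omega
  have hbΓ : bet Ys col Γ = m := by
    by_contra h
    have h1 := hdiv2 Γ ⟨uΓ, hfΓ⟩ (by omega)
    set S := Ys.filter (fun y => col y ∈ Γ) with hSdef
    have h2 : bet Ys col Γ = S.card := rfl
    have h3 := card_filter_add_card_filter_not (s := S) (fun z => Unc (supp φR) (U z))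
    have h4 := hdel (S.filter (fun z => Unc (supp φR) (U z)))
      (fun z hz => (mem_filter.1 (mem_filter.1 hz).1).1)
      (fun z hz => ⟨(hne z (mem_filter.1 (mem_filter.1 hz).1).2).1,
        (hne z (mem_filter.1 (mem_filter.1 hz).1).2).2, (mem_filter.1 hz).2⟩) K (fun z hz w hw => by
        obtain ⟨a1, a2⟩ := mem_filter.1 (mem_filter.1 hz).1
        obtain ⟨b1, b2⟩ := F2 z a1 a2 (mem_filter.1 hz).2
        exact ⟨fun h' => (hall w hw).resolve_right fun h'' => disjoint_left.1 b2 h'' h',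
          fun h' => b1 h'⟩)
    have h5 := hcnt (S.filter (fun z => ¬ Unc (supp φR) (U z)))
      (fun z hz => (mem_filter.1 (mem_filter.1 hz).1).1) fun z hz => (mem_filter.1 hz).2
    omega
  obtain ⟨r1, r2⟩ := F1 zs hzs hs1 hs2 hzsK hzsu
  exact ⟨Γ, zs, zp, yj, e0, ⟨uK, hfK⟩, ⟨uΓ, hfΓ⟩, rfl, c2K, hdis, hbK, hbΓ, hall, hzs, hzsK, hs1, hs2,
    hzsu, r1, r2, hzp, hzpΓ, hzpu, q1, q2, hyj, he0, he0', he0''⟩

end Pool.Agent.Lib.MP_ee21b2_co
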